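import Pool.Agent.W_448fw_h5.FwR

/-!
Natural sets from the shape of the strip.
-/

namespace Pool.Agent.GaussPoset

set_option linter.unusedSectionVars false

open Polynomial Finset

universe u

variable {P : Type u} [Fintype P] [PartialOrder P] [DecidableEq P]

open Cp in
/-- the strip read from the other side -/
theorem comp_swap {j : ℕ} {t : P} {lo hi : ℕ → ℕ} {e : ℕ → ℕ → P} (C : Comp j t lo hi e) :
    Comp j t (fun k => k - hi k) (fun k => k - lo k) (fun k s => e k (k - s)) where
  lo_zero := by simp
  hi_zero := by simp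
  top := C.top
  lo_step := by
    intro k hk
    have h1 := C.hi_step k hk
    have h2 := C.hi_le (k := k) (by omega)
    have h3 := C.hi_le (k := k + 1) (by omega)
    show k + 1 - hi (k + 1) = k - hi k ∨ k + 1 - hi (k + 1) = k - hi k + 1
    omega
  hi_step := by
    intro k hk
    have h1 := C.lo_step k hk
    have h2 := C.hi_le (k := k) (by omega)
    have h3 := C.lo_le k (by omega)
    show k + 1 - lo (k + 1) = k - lo k ∨ k + 1 - lo (k + 1) = k - lo k + 1
    omega
  lo_le := by
    intro k hk
    have h3 := C.lo_le k (by omega)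
    show k - hi k ≤ k - lo k
    omega
  lev_e := by
    intro k s hk h1 h2
    have h3 := C.hi_le (k := k) hk
    have h4 := C.lo_le k hk
    have h1' : k - hi k ≤ s := h1
    have h2' : s ≤ k - lo k := h2
    exact C.lev_e k (k - s) hk (by omega) (by omega)
  le_t := by
    intro k s hk h1 h2
    have h3 := C.hi_le (k := k) hk
    have h4 := C.lo_le k hk
    have h1' : k - hi k ≤ s := h1
    have h2' : s ≤ k - lo k := h2
    exact C.le_t k (k - s) hk (by omega) (by omega)
  inj := by
    intro k s s' hk h1 h2 h3 h4 h5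
    have h6 := C.hi_le (k := k) hk
    have h7 := C.lo_le k hk
    have h1' : k - hi k ≤ s := h1
    have h2' : s ≤ k - lo k := h2
    have h3' : k - hi k ≤ s' := h3
    have h4' : s' ≤ k - lo k := h4
    have := C.inj k (k - s) (k - s') hk (by omega) (by omega) (by omega) (by omega) h5
    omega
  surj := by
    intro z hz hzl
    obtain ⟨s, h1, h2, h3⟩ := C.surj z hz hzl
    have h6 := C.hi_le hzl
    refine ⟨lev z - s, ?_, ?_, ?_⟩
    · show lev z - hi (lev z) ≤ lev z - s
      omega
    · show lev z - s ≤ lev z - lo (lev z)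
      omega
    · show e (lev z) (lev z - (lev z - s)) = z
      rw [show lev z - (lev z - s) = s by omega]
      exact h3
  cov := by
    intro k s s' hk h1 h2 h3 h4
    have h6 := C.hi_le (k := k) hk.le
    have h7 := C.lo_le k hk.le
    have h8 := C.hi_le (k := k + 1) hk
    have h9 := C.lo_le (k + 1) hk
    have h1' : k + 1 - hi (k + 1) ≤ s := h1
    have h2' : s ≤ k + 1 - lo (k + 1) := h2
    have h3' : k - hi k ≤ s' := h3
    have h4' : s' ≤ k - lo k := h4
    have := C.cov k (k + 1 - s) (k - s') hk (by omega) (by omega) (by omega) (by omega)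
    show e (k + 1) (k + 1 - s) ⋖ e k (k - s') ↔ s' = s ∨ s' + 1 = s
    rw [this]
    omega

/-- both ends are open for some time and closed afterwards -/
structure RectShape (j : ℕ) (lo hi : ℕ → ℕ) : Prop where
  lo : ∀ k, k < j → lo (k + 1) = 0 ∨ lo (k + 1) = lo k + 1
  hi : ∀ k, k < j → hi (k + 1) = k + 1 ∨ hi (k + 1) = hi k

/-- the fold on the side of `hi`, the other end is open for some time and closed afterwards -/
structure StairShape (j : ℕ) (lo hi : ℕ → ℕ) : Prop where
  lo : ∀ k, k < j → lo (k + 1) = 0 ∨ lo (k + 1) = lo k + 1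
  hi : ∀ k, k ≤ j → hi k = k / 2

section Shapes

open Cp

variable {r j : ℕ} {t : Tops P} {lo hi : ℕ → ℕ} {e : ℕ → ℕ → P}

lemma RectShape.swap (S : RectShape j lo hi) (C : Comp j (t : P) lo hi e) :
    RectShape j (fun k => k - hi k) (fun k => k - lo k) where
  lo := by
    intro k hk
    have h1 := S.hi k hk
    have h2 := C.hi_le (k := k) (by omega)
    show k + 1 - hi (k + 1) = 0 ∨ k + 1 - hi (k + 1) = k - hi k + 1
    omega
  hi := by
    intro k hk
    have h1 := S.lo k hk
    have h2 := C.hi_le (k := k) (by omega)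
    have h3 := C.lo_le k (by omega)
    show k + 1 - lo (k + 1) = k + 1 ∨ k + 1 - lo (k + 1) = k - lo k
    omega

/-- an end which is closed stays closed -/
lemma shape_lo (C : Comp j (t : P) lo hi e)
    (h : ∀ k, k < j → lo (k + 1) = 0 ∨ lo (k + 1) = lo k + 1) {l : ℕ}
    (hl : 1 ≤ lo l) : ∀ d, l + d ≤ j → lo (l + d) = lo l + d := by
  intro d
  induction d with
  | zero => intro _; rfl
  | succ d ih =>
    intro hd
    have h1 := ih (by omega)
    have h2 := h (l + d) (by omega)
    have h3 := C.lo_step (l + d) (by omega)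
    rw [← Nat.add_assoc]
    omega

/-- the same for the other end -/
lemma shape_hi (C : Comp j (t : P) lo hi e)
    (h : ∀ k, k < j → hi (k + 1) = k + 1 ∨ hi (k + 1) = hi k) {l : ℕ}
    (hl : hi l < l) : ∀ d, l + d ≤ j → hi (l + d) = hi l := by
  intro d
  induction d with
  | zero => intro _; rfl
  | succ d ih =>
    intro hd
    have h1 := ih (by omega)
    have h2 := h (l + d) (by omega)
    have h3 := C.hi_step (l + d) (by omega)
    rw [← Nat.add_assoc]
    omega

/-- the strip of a rectangle-like component is a chart -/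
theorem chart_rect (C : Comp j (t : P) lo hi e) (H : Gr P r) (hg : ∀ l, l < j → Win.Good P l)
    (S : RectShape j lo hi) : Chart (t : P) (fun _ => True) (lowPart j t) (ccoord lo hi e) := by
  refine chart_of_comp C H hg t.2 conn_true (fun _ _ _ _ _ => trivial) ?_ ?_
  · intro k s hk h1 h2 h3 _
    have h4 := S.lo k hk
    have h5 := C.lo_step k hk
    have h6 : lo k ≤ lo (k + 1) := by omega
    omega
  · intro k s hk h1 h2 h3 _
    have h4 := S.hi k hk
    have h5 := C.hi_step k hk
    have h6 := C.hi_le (k := k) hk.le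
    omega

/-- the strip of a stair-like component is a chart -/
theorem chart_stair (C : Comp j (t : P) lo hi e) (H : Gr P r) (hg : ∀ l, l < j → Win.Good P l)
    (S : StairShape j lo hi) : Chart (t : P) (fun c => c.1 ≤ c.2) (lowPart j t)
      (ccoord lo hi e) := by
  refine chart_of_comp C H hg t.2 conn_shift ?_ ?_ ?_
  · intro k s hk h1 h2
    rw [S.hi k hk] at h2
    show s ≤ k - s
    omega
  · intro k s hk h1 h2 h3 _
    have h4 := S.lo k hk
    have h5 := C.lo_step k hk
    have h6 : lo k ≤ lo (k + 1) := by omega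
    omega
  · intro k s hk h1 h2 h3 h4
    rw [S.hi k hk.le]
    have h5 : s ≤ k - s := h4
    omega

/-- the element of the strip at a given cell -/
lemma cell_mem (C : Comp j (t : P) lo hi e) {a b : ℕ} (hab : a + b ≤ j) (h1 : lo (a + b) ≤ a)
    (h2 : a ≤ hi (a + b)) : ∃ x ∈ lowPart j (t : P), ccoord lo hi e x = (a, b) := by
  refine ⟨e (a + b) a, ?_, ?_⟩
  · rw [mem_lowPart]
    exact ⟨C.le_t _ a hab h1 h2, by rw [C.lev_e _ a hab h1 h2]; exact hab⟩
  · unfold ccoord
    rw [scoord_e C hab h1 h2, C.lev_e _ a hab h1 h2]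
    exact Prod.ext rfl (by simp only; omega)

lemma cell_of (C : Comp j (t : P) lo hi e) {x : P} (hx : x ∈ lowPart j (t : P)) :
    lo ((ccoord lo hi e x).1 + (ccoord lo hi e x).2) ≤ (ccoord lo hi e x).1 ∧
      (ccoord lo hi e x).1 ≤ hi ((ccoord lo hi e x).1 + (ccoord lo hi e x).2) := by
  rw [mem_lowPart] at hx
  obtain ⟨h1, h2, -⟩ := scoord_spec C hx.1 hx.2
  have h3 := C.hi_le hx.2
  have h4 : (ccoord lo hi e x).1 + (ccoord lo hi e x).2 = lev x := by
    unfold ccoord
    simp only
    omega
  rw [h4]
  exact ⟨h1, h2⟩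

/-- low elements below the top belong to every set containing the strip -/
lemma low_of_strip {N : Finset P} (hN : lowPart j (t : P) ⊆ N) {i : ℕ} (hi : i ≤ j) :
    ∀ x, x ≤ (t : P) → lev x ≤ i → x ∈ N := fun x hx hxi =>
  hN (mem_lowPart.mpr ⟨hx, hxi.trans hi⟩)

/-- data of a rectangle-like natural set -/
structure RectNat (j i : ℕ) (t : Tops P) (b : ℕ) (N : Finset P) (co : P → ℕ × ℕ) : Prop where
  chart : Chart (t : P) (fun _ => True) N co
  max : MaxChart (fun _ => True) N co
  strip : lowPart j (t : P) ⊆ N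
  b_two : 2 ≤ b
  b_le : b ≤ i + 1
  cell : ∃ x ∈ N, co x = (b - 1, i)
  rows : b = i + 1 ∨ ∀ x ∈ N, (co x).1 ≤ b - 1

theorem RectNat.natTop {i b : ℕ} {N : Finset P} {co : P → ℕ × ℕ} (hgr : GradedBelow P)
    (R : RectNat j i t b N co) (hij : i ≤ j) :
    NatTop i t b (natR N co) (thR i b N co) (fun x => x ∈ N ∧ co x = (b - 1, i)) :=
  natTop_rect hgr R.chart R.b_two R.b_le R.cell R.rows (low_of_strip R.strip hij)

/-- data of a stair-like natural set -/
structure StairNat (j i : ℕ) (t : Tops P) (N : Finset P) (co : P → ℕ × ℕ) : Prop where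
  chart : Chart (t : P) (fun c => c.1 ≤ c.2) N co
  max : MaxChart (fun c => c.1 ≤ c.2) N co
  strip : lowPart j (t : P) ⊆ N
  cell : ∃ x ∈ N, co x = (2 * (i / 2), i)

theorem StairNat.natTop {i : ℕ} {N : Finset P} {co : P → ℕ × ℕ} (hgr : GradedBelow P)
    (R : StairNat j i t N co) (hi : 2 ≤ i) (hij : i ≤ j) :
    NatTop i t (i / 2 + 1) (natS N co) (thS i N co)
      (fun x => x ∈ N ∧ co x = (2 * (i / 2), i)) :=
  natTop_stair hgr R.chart hi R.cell (low_of_strip R.strip hij)

/-- rectangle-like components, the end on the side of `lo` being open at window `i` -/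
theorem exists_rect_aux (C : Comp j (t : P) lo hi e) (H : Gr P r)
    (hg : ∀ l, l < j → Win.Good P l) (hgr : GradedBelow P) (S : RectShape j lo hi) {i : ℕ}
    (hij : 2 * i ≤ j) (h0 : lo i = 0) (h2 : 1 ≤ hi i) :
    ∃ N co, RectNat j i t (hi i + 1) N co ∧ ∀ x ∈ lowPart j (t : P), co x = ccoord lo hi e x := by
  obtain ⟨N, co, C1, hsub, hco, hmax⟩ := (chart_rect C H hg S).exists_max conn_true hgr
  have hii : hi i ≤ i := C.hi_le (by omega)
  have hlo : lo (hi i + i) ≤ hi i := by
    have := C.lo_mono (l := i) (d := hi i) (by omega)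
    rw [h0, Nat.add_comm i (hi i)] at this
    omega
  have hhi : hi i ≤ hi (hi i + i) := by
    have := C.hi_mono (l := i) (d := hi i) (by omega)
    rw [Nat.add_comm i (hi i)] at this
    omega
  refine ⟨N, co, ⟨C1, hmax, hsub, by omega, by omega, ?_, ?_⟩, hco⟩
  · obtain ⟨x, hx, hcx⟩ := cell_mem C (a := hi i) (b := i) (by omega) hlo hhi
    refine ⟨x, hsub hx, ?_⟩
    rw [hco x hx, hcx, Nat.add_sub_cancel]
  · by_cases h3 : hi i = i
    · exact Or.inl (by rw [h3])
    · right
      intro x hx
      by_contra hcon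
      obtain ⟨y, hy, hcy⟩ := C1.low x hx (hi i + 1, 0)
        ⟨by simp only; omega, Nat.zero_le _⟩ trivial
      have hly := C1.lev y hy
      rw [hcy] at hly
      simp only at hly
      have hyl : y ∈ lowPart j (t : P) := mem_lowPart.mpr ⟨C1.le_t y hy, by omega⟩
      have h4 := cell_of C hyl
      rw [← hco y hyl, hcy] at h4
      simp only at h4
      have h5 : hi (hi i + 1) ≤ hi i := by
        have := C.hi_mono (l := hi i + 1) (d := i - (hi i + 1)) (by omega)
        rw [show hi i + 1 + (i - (hi i + 1)) = i by omega] at this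
        omega
      rw [Nat.add_zero] at h4
      omega

/-- rectangle-like components have natural sets at all windows `1 ≤ i ≤ j / 2` -/
theorem exists_rect (C : Comp j (t : P) lo hi e) (H : Gr P r) (hg : ∀ l, l < j → Win.Good P l)
    (hgr : GradedBelow P) (S : RectShape j lo hi) {i : ℕ} (hij : 2 * i ≤ j) (h2 : lo i < hi i) :
    ∃ N co, RectNat j i t (hi i - lo i + 1) N co ∧
      ((∀ x ∈ lowPart j (t : P), co x = ccoord lo hi e x) ∨
        ∀ x ∈ lowPart j (t : P), co x = swp (ccoord lo hi e) x) := by
  have hii : hi i ≤ i := C.hi_le (by omega)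
  by_cases h0 : lo i = 0
  · obtain ⟨N, co, h3, h4⟩ := exists_rect_aux C H hg hgr S hij h0 (by omega)
    rw [h0, Nat.sub_zero]
    exact ⟨N, co, h3, Or.inl h4⟩
  · have h3 : hi i = i := by
      by_contra hcon
      have e1 := shape_lo C S.lo (l := i) (by omega) i (by omega)
      have e2 := shape_hi C S.hi (l := i) (by omega) i (by omega)
      have e3 := C.lo_le (i + i) (by omega)
      omega
    obtain ⟨N, co, h4, h5⟩ := exists_rect_aux (comp_swap C) H hg hgr (S.swap C) hij
      (show i - hi i = 0 by omega) (show 1 ≤ i - lo i by omega)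
    refine ⟨N, co, ?_, Or.inr fun x hx => ?_⟩
    · have e1 : hi i - lo i + 1 = i - lo i + 1 := by omega
      rw [e1]
      exact h4
    · rw [h5 x hx]
      have hx' := mem_lowPart.mp hx
      obtain ⟨e1, e2, e3⟩ := scoord_spec C hx'.1 hx'.2
      have e4 := C.hi_le hx'.2
      have e5 : scoord (fun k => k - hi k) (fun k => k - lo k) (fun k s => e k (k - s)) x =
          lev x - scoord lo hi e x := by
        have h6 := scoord_e (comp_swap C) (k := lev x) (s := lev x - scoord lo hi e x) hx'.2
          (show lev x - hi (lev x) ≤ _ by omega) (show _ ≤ lev x - lo (lev x) by omega)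
        have h7 : e (lev x) (lev x - (lev x - scoord lo hi e x)) = x := by
          rw [show lev x - (lev x - scoord lo hi e x) = scoord lo hi e x by omega]
          exact e3
        rw [h7] at h6
        exact h6
      unfold ccoord swp
      simp only
      rw [e5]
      exact Prod.ext rfl (by simp only; omega)

/-- stair-like components: general form (the strip is natural down to level `j`) -/
theorem exists_stair' (C : Comp j (t : P) lo hi e) (H : Gr P r)
    (hg : ∀ l, l < j → Win.Good P l) (hgr : GradedBelow P) (S : StairShape j lo hi) {i : ℕ}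
    (hij : i + 2 * (i / 2) ≤ j) (h0 : lo i = 0) :
    ∃ N co, StairNat j i t N co ∧ ∀ x ∈ lowPart j (t : P), co x = ccoord lo hi e x := by
  obtain ⟨N, co, C1, hsub, hco, hmax⟩ := (chart_stair C H hg S).exists_max conn_shift hgr
  refine ⟨N, co, ⟨C1, hmax, hsub, ?_⟩, hco⟩
  have h1 := S.hi (2 * (i / 2) + i) (by omega)
  have h2 := C.lo_mono (l := i) (d := 2 * (i / 2)) (by omega)
  rw [h0, Nat.add_comm i _] at h2
  obtain ⟨x, hx, hcx⟩ := cell_mem C (a := 2 * (i / 2)) (b := i) (by omega) (by omega) (by omega)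
  exact ⟨x, hsub hx, by rw [hco x hx, hcx]⟩

/-- stair-like components have natural sets at all windows `i ≤ j / 2` -/
theorem exists_stair (C : Comp j (t : P) lo hi e) (H : Gr P r)
    (hg : ∀ l, l < j → Win.Good P l) (hgr : GradedBelow P) (S : StairShape j lo hi) {i : ℕ}
    (hij : 2 * i ≤ j) :
    ∃ N co, StairNat j i t N co ∧ ∀ x ∈ lowPart j (t : P), co x = ccoord lo hi e x := by
  refine exists_stair' C H hg hgr S (by omega) ?_
  by_contra hcon
  have e1 := shape_lo C S.lo (l := i) (by omega) i (by omega)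
  have e2 := S.hi (i + i) (by omega)
  have e3 := C.lo_le (i + i) (by omega)
  omega

/-- light components -/
theorem exists_light (C : Comp j (t : P) lo hi e) (H : Gr P r) (hg : ∀ l, l < j → Win.Good P l)
    (hgr : GradedBelow P) {i : ℕ} (hij : i ≤ j) :
    NatTop i t 1 (onlyB t) (fun x => lev x - i) (fun _ => False) := by
  refine natTop_light hgr ?_ ⟨e i (lo i), C.le_t i (lo i) hij le_rfl (C.lo_le i hij),
    C.lev_e i (lo i) hij le_rfl (C.lo_le i hij)⟩
  intro x hx hxi
  rw [mem_onlyB]
  intro s hs hxs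
  exact top_eq H hg (by omega) hs t.2 hxs hx

end Shapes

end Pool.Agent.GaussPoset
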