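import Pool.Agent.W_448fw_h5.FwG
import Pool.Agent.W_448fs_h63.SG

/-!
Component data of straight, narrow and shifted components.
-/

namespace Pool.Agent.GaussPoset

set_option linter.unusedSectionVars false

open Polynomial Finset

universe u

variable {P : Type u} [Fintype P] [PartialOrder P] [DecidableEq P]
variable {ι : Type*}

/-- coordinates of the natural elements of the component `k` (`S` = allowed cells) -/
structure Coord (R : Finset P) (cp : P → ι) (k : ι) (S : ℕ × ℕ → Prop) (co : P → ℕ × ℕ) :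
    Prop where
  inj : ∀ x y, x ∉ R → y ∉ R → cp x = k → cp y = k → co x = co y → x = y
  le_iff : ∀ x y, x ∉ R → y ∉ R → cp x = k → cp y = k → (x ≤ y ↔ co y ≤ co x)
  mem : ∀ x, x ∉ R → cp x = k → S (co x)
  low : ∀ x, x ∉ R → cp x = k → ∀ c ≤ co x, S c → ∃ y, y ∉ R ∧ cp y = k ∧ co y = c
  lev : ∀ x, x ∉ R → cp x = k → Pool.Agent.GaussPoset.lev x = (co x).1 + (co x).2

section Cells

variable {R : Finset P} {cp : P → ι} {k : ι} {S : ℕ × ℕ → Prop} {co : P → ℕ × ℕ}
  {i b α β : ℕ} {θ : P → ℕ} {B : P → Prop}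

/-- component data from coordinates, general form -/
theorem compData_cells (hgr : GradedBelow P) (hcp : ∀ x y, x ≤ y → x ∉ R → cp x = cp y)
    (H : Coord R cp k S co) (hB : ∀ x, x ∉ R → cp x = k → (B x ↔ co x = (α, β)))
    (hθ : ∀ x, x ∉ R → cp x = k → θ x = ((co x).1 - α) + ((co x).2 - β))
    (hle : ∀ x, x ∉ R → cp x = k →
      ((co x).1 - α) + ((co x).2 - β) ≤ ((co x).1 + (co x).2) - i)
    (hclean : ∀ D, Good i R B D → ∀ _ : DecidableEq ι,
      (1 + X : Polynomial (PowerSeries ℤ)) ^ b ∣ W {x : {x : P // x ∉ D} // cp (x : P) = k} i) :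
    CompData R cp k i b θ B where
  clean := hclean
  lev := by
    intro x hx hk h1
    rw [hθ x hx hk] at h1
    have h2 := hle x hx hk
    rw [H.lev x hx hk]
    omega
  base := by
    intro x hx hk h1 y hyx hy hBy
    have hyk : cp y = k := by rw [hcp y x hyx hy]; exact hk
    have h2 := (hB y hy hyk).mp hBy
    have h3 := (H.le_iff y x hy hx hyk hk).mp hyx
    rw [h2] at h3
    rw [hθ x hx hk] at h1
    have h4 : (co x).1 ≤ α := h3.1
    have h5 : (co x).2 ≤ β := h3.2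
    omega
  step := by
    intro x hx hk _ y hyx hy x' hx' hyx' hn
    have hyk : cp y = k := by rw [hcp y x hyx hy]; exact hk
    have hxk' : cp x' = k := by rw [← hcp y x' hyx'.1.le hy]; exact hyk
    have h2 := (H.le_iff y x hy hx hyk hk).mp hyx
    have h3 := (H.le_iff y x' hy hx' hyk hxk').mp hyx'.1.le
    have h4 := hgr.lev_covBy hyx'
    rw [H.lev y hy hyk, H.lev x' hx' hxk'] at h4
    have h5 : ¬ co x ≤ co x' := fun h => hn ((H.le_iff x' x hx' hx hxk' hk).mpr h)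
    have h6 : ¬ ((co x).1 ≤ (co x').1 ∧ (co x).2 ≤ (co x').2) := h5
    have h7 : (co x).1 ≤ (co y).1 := h2.1
    have h8 : (co x).2 ≤ (co y).2 := h2.2
    have h9 : (co x').1 ≤ (co y).1 := h3.1
    have h10 : (co x').2 ≤ (co y).2 := h3.2
    rw [hθ x hx hk, hθ x' hx' hxk']
    omega
  le := by
    intro x hx hk
    rw [hθ x hx hk, H.lev x hx hk]
    exact hle x hx hk

lemma Coord.base_not_mem (H : Coord R cp k S co)
    (hB : ∀ x, x ∉ R → cp x = k → (B x ↔ co x = (α, β)))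
    {D : Finset P} (hD : Good i R B D) {c : ℕ × ℕ} (hc : c ≤ (α, β)) (hS : S c)
    (hcell : ∃ x, x ∉ R ∧ cp x = k ∧ co x = (α, β)) : ∃ y, y ∉ D ∧ cp y = k ∧ co y = c := by
  obtain ⟨x, hx, hk, hcx⟩ := hcell
  have hxD : x ∉ D := fun h => hD.2.2.2 x h ((hB x hx hk).mpr hcx)
  obtain ⟨y, hy, hyk, hcy⟩ := H.low x hx hk c (by rw [hcx]; exact hc) hS
  refine ⟨y, fun h => hxD (hD.1 x y ?_ h), hyk, hcy⟩
  rw [H.le_iff x y hx hy hk hyk, hcy, hcx]
  exact hc

/-- straight shapes containing the cell `(k' - 1, i)`, `k' ≤ i + 1`: order `k'` -/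
theorem compData_straight (hgr : GradedBelow P) (hcp : ∀ x y, x ≤ y → x ∉ R → cp x = cp y)
    (H : Coord R cp k (fun _ => True) co) (hb1 : 1 ≤ b) (hbi : b ≤ i + 1)
    (hB : ∀ x, x ∉ R → cp x = k → (B x ↔ co x = (b - 1, i)))
    (hcell : ∃ x, x ∉ R ∧ cp x = k ∧ co x = (b - 1, i))
    (hθ : ∀ x, x ∉ R → cp x = k → θ x = ((co x).1 - (b - 1)) + ((co x).2 - i))
    (hrows : b = i + 1 ∨ ∀ x, x ∉ R → cp x = k → (co x).1 ≤ b - 1) :
    CompData R cp k i b θ B := by
  refine compData_cells hgr hcp H hB hθ ?_ ?_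
  · intro x hx hk
    rcases hrows with h | h
    · omega
    · have := h x hx hk
      omega
  · intro D hD _
    have hR : ∀ x : {x : P // x ∉ D}, (x : P) ∉ R := fun x h => x.2 (hD.2.1 h)
    refine Yg.young_dvd_co (Q := {x : {x : P // x ∉ D} // cp (x : P) = k})
      (fun x => co x.1.1) ?_ ?_ ?_ hbi ?_
    · intro x y hxy
      exact Subtype.ext (Subtype.ext (H.inj _ _ (hR _) (hR _) x.2 y.2 hxy))
    · intro x y
      exact H.le_iff _ _ (hR _) (hR _) x.2 y.2
    · intro x c hc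
      obtain ⟨y, hy, hyk, hcy⟩ := H.low _ (hR x.1) x.2 c hc trivial
      have hyD : y ∉ D := by
        intro h
        refine x.1.2 (hD.1 _ y ?_ h)
        rw [H.le_iff _ y (hR _) hy x.2 hyk, hcy]
        exact hc
      exact ⟨⟨⟨y, hyD⟩, hyk⟩, hcy⟩
    · intro s hs
      obtain ⟨y, hyD, hyk, hcy⟩ := H.base_not_mem hB hD (c := (b - 1, i)) le_rfl trivial hcell
      have : s = b - 1 := by omega
      rw [this]
      exact ⟨⟨⟨y, hyD⟩, hyk⟩, hcy⟩

/-- shifted shapes containing the cell `(2 (i / 2), i)`: order `i / 2 + 1` -/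
theorem compData_shifted (hgr : GradedBelow P) (hcp : ∀ x y, x ≤ y → x ∉ R → cp x = cp y)
    (H : Coord R cp k (fun c => c.1 ≤ c.2) co)
    (hB : ∀ x, x ∉ R → cp x = k → (B x ↔ co x = (2 * (i / 2), i)))
    (hcell : ∃ x, x ∉ R ∧ cp x = k ∧ co x = (2 * (i / 2), i))
    (hθ : ∀ x, x ∉ R → cp x = k → θ x = ((co x).1 - 2 * (i / 2)) + ((co x).2 - i)) :
    CompData R cp k i (i / 2 + 1) θ B := by
  refine compData_cells hgr hcp H hB hθ ?_ ?_
  · intro x hx hk
    have := H.mem x hx hk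
    omega
  · intro D hD _
    have hR : ∀ x : {x : P // x ∉ D}, (x : P) ∉ R := fun x h => x.2 (hD.2.1 h)
    refine Yg.shift_dvd_cell (Q := {x : {x : P // x ∉ D} // cp (x : P) = k})
      (fun x => co x.1.1) ?_ ?_ ?_ ?_ ?_
    · intro x y hxy
      exact Subtype.ext (Subtype.ext (H.inj _ _ (hR _) (hR _) x.2 y.2 hxy))
    · intro x
      exact H.mem _ (hR _) x.2
    · intro x y
      exact H.le_iff _ _ (hR _) (hR _) x.2 y.2
    · intro x c hc hS
      obtain ⟨y, hy, hyk, hcy⟩ := H.low _ (hR x.1) x.2 c hc hS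
      have hyD : y ∉ D := by
        intro h
        refine x.1.2 (hD.1 _ y ?_ h)
        rw [H.le_iff _ y (hR _) hy x.2 hyk, hcy]
        exact hc
      exact ⟨⟨⟨y, hyD⟩, hyk⟩, hcy⟩
    · obtain ⟨y, hyD, hyk, hcy⟩ := H.base_not_mem hB hD (c := (2 * (i / 2), i)) le_rfl
        (by simp only; omega) hcell
      exact ⟨⟨⟨y, hyD⟩, hyk⟩, hcy⟩

/-- coordinates may be transposed for straight shapes -/
theorem Coord.swap (H : Coord R cp k (fun _ => True) co) :
    Coord R cp k (fun _ => True) (fun x => ((co x).2, (co x).1)) where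
  inj := by
    intro x y hx hy hkx hky h
    simp only [Prod.mk.injEq] at h
    exact H.inj x y hx hy hkx hky (Prod.ext h.2 h.1)
  le_iff := by
    intro x y hx hy hkx hky
    rw [H.le_iff x y hx hy hkx hky]
    exact ⟨fun h => ⟨h.2, h.1⟩, fun h => ⟨h.2, h.1⟩⟩
  mem := fun _ _ _ => trivial
  low := by
    intro x hx hk c hc _
    obtain ⟨y, hy, hyk, hcy⟩ := H.low x hx hk (c.2, c.1) ⟨hc.2, hc.1⟩ trivial
    exact ⟨y, hy, hyk, by rw [hcy]⟩
  lev := by
    intro x hx hk
    rw [H.lev x hx hk]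
    exact Nat.add_comm _ _

end Cells

end Pool.Agent.GaussPoset
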