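import Pool.Agent.W_448fw_h5.FwU

/-!
The far window system of a poset whose strips are rectangle-like, stair-like or light.
-/

namespace Pool.Agent.GaussPoset

set_option linter.unusedSectionVars false

open Polynomial Finset

universe u

variable {P : Type u} [Fintype P] [PartialOrder P] [DecidableEq P] {r j : ℕ}

/-- explicit rectangles (truncated at level `j`) -/
lemma rectShape_of_eq {lo hi : ℕ → ℕ} {p q : ℕ} (hlo : ∀ k, k ≤ j → lo k = k + 1 - q)
    (hhi : ∀ k, k ≤ j → hi k = min k (p - 1)) : RectShape j lo hi where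
  lo := by
    intro k hk
    rw [hlo k hk.le, hlo (k + 1) hk]
    omega
  hi := by
    intro k hk
    rw [hhi k hk.le, hhi (k + 1) hk]
    omega

/-- explicit stairs (truncated at level `j`) -/
lemma stairShape_of_eq {lo hi : ℕ → ℕ} {q : ℕ} (hlo : ∀ k, k ≤ j → lo k = k + 1 - q)
    (hhi : ∀ k, k ≤ j → hi k = k / 2) : StairShape j lo hi where
  lo := by
    intro k hk
    rw [hlo k hk.le, hlo (k + 1) hk]
    omega
  hi := hhi

/-- the type of the natural set of a top at window `i` (strip natural down to level `j`) -/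
inductive TopType (j i : ℕ) (t : Tops P) (b : ℕ) (N : Finset P) (θ : P → ℕ) : Prop
  | light (h1 : N = onlyB t) (h2 : θ = fun x => lev x - i) (h3 : b = 1) (h4 : i ≤ j)
      (h5 : ∀ x, x ≤ (t : P) → lev x ≤ j → x ∈ onlyB t) (h6 : ∃ x ≤ (t : P), lev x = i)
  | rect (Nc : Finset P) (co : P → ℕ × ℕ) (h0 : RectNat j i t b Nc co) (h1 : N = natR Nc co)
      (h2 : θ = thR i b Nc co) (h4 : i ≤ j)
  | stair (Nc : Finset P) (co : P → ℕ × ℕ) (h0 : StairNat j i t Nc co) (h1 : N = natS Nc co)
      (h2 : θ = thS i Nc co) (h3 : b = i / 2 + 1) (h4 : i ≤ j) (h5 : 2 ≤ i)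

theorem TopType.natTop {i b : ℕ} {t : Tops P} {N : Finset P} {θ : P → ℕ}
    (hgr : GradedBelow P) (T : TopType j i t b N θ) : ∃ B, NatTop i t b N θ B := by
  rcases T with ⟨h1, h2, h3, h4, h5, h6⟩ | ⟨Nc, co, h0, h1, h2, h4⟩ | ⟨Nc, co, h0, h1, h2, h3, h4, h5⟩
  · subst h1 h2 h3
    exact ⟨_, natTop_light hgr (fun x hx hxi => h5 x hx (hxi.trans h4)) h6⟩
  · subst h1 h2
    exact ⟨_, h0.natTop hgr h4⟩
  · subst h1 h2 h3
    exact ⟨_, h0.natTop hgr h5 h4⟩

/-- the far window system -/
theorem farData_of_types (hgr : GradedBelow P) {i : ℕ} {jt b : Tops P → ℕ}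
    {N : Tops P → Finset P} {θ : Tops P → P → ℕ}
    (T : ∀ t, TopType (jt t) i t (b t) (N t) (θ t)) :
    NatSys N ∧ FarData P i (unnat N) (∑ t, b t) (hcan (unnat N) (fun x => θ (topOf x) x)) := by
  choose B hB using fun t => (T t).natTop hgr
  exact ⟨natSys_of_tops hB, farData_of_tops hgr hB⟩

section Count

open Cp

variable {lo hi : Tops P → ℕ → ℕ} {e : Tops P → ℕ → ℕ → P}

/-- number of elements of a level -/
theorem card_level (H : Gr P r) (hg : ∀ l, l < j → Win.Good P l)
    (C : ∀ t : Tops P, Comp j (t : P) (lo t) (hi t) (e t)) {i : ℕ} (hi' : i ≤ j) :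
    (lv P i).card = ∑ t, (hi t i - lo t i + 1) := by
  classical
  rw [Finset.card_eq_sum_card_fiberwise (f := topOf) (t := univ) (fun _ _ => Finset.mem_coe.mpr
    (mem_univ _))]
  refine Finset.sum_congr rfl fun t _ => ?_
  have h1 : (lv P i).filter (fun x => topOf x = t) = (Icc (lo t i) (hi t i)).image (e t i) := by
    ext x
    rw [mem_filter, mem_lv, mem_image]
    constructor
    · rintro ⟨h1, h2⟩
      have hxt : x ≤ (t : P) := by rw [← h2]; exact le_topOf x
      obtain ⟨s, h3, h4, h5⟩ := (C t).surj x hxt (by omega)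
      rw [h1] at h3 h4 h5
      exact ⟨s, mem_Icc.mpr ⟨h3, h4⟩, h5⟩
    · rintro ⟨s, hs, rfl⟩
      rw [mem_Icc] at hs
      have hl := (C t).lev_e i s hi' hs.1 hs.2
      refine ⟨hl, ?_⟩
      exact Subtype.ext (top_eq H hg (by omega) (topOf _).2 t.2 (le_topOf _)
        ((C t).le_t i s hi' hs.1 hs.2))
  have h2 := (C t).lo_le i hi'
  rw [h1, Finset.card_image_of_injOn, Nat.card_Icc]
  · omega
  · intro s hs s' hs' h
    have hs1 := mem_Icc.mp (Finset.mem_coe.mp hs)
    have hs2 := mem_Icc.mp (Finset.mem_coe.mp hs')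
    exact (C t).inj i s s' hi' hs1.1 hs1.2 hs2.1 hs2.2 h

/-- the type of a light strip -/
theorem type_light (H : Gr P r) (hg : ∀ l, l < j → Win.Good P l) {t : Tops P} {lo hi : ℕ → ℕ}
    {e : ℕ → ℕ → P} (C : Comp j (t : P) lo hi e) {i : ℕ} (hij : i ≤ j) :
    TopType j i t 1 (onlyB t) (fun x => lev x - i) := by
  refine TopType.light rfl rfl rfl hij ?_ ⟨e i (lo i), C.le_t i (lo i) hij le_rfl (C.lo_le i hij),
    C.lev_e i (lo i) hij le_rfl (C.lo_le i hij)⟩
  intro x hx hxi
  rw [mem_onlyB]
  intro s hs hxs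
  exact top_eq H hg hxi hs t.2 hxs hx

/-- every strip which is light at level `i` or has a natural shape has a type -/
theorem exists_type (H : Gr P r) (hg : ∀ l, l < j → Win.Good P l) {t : Tops P} {lo hi : ℕ → ℕ}
    {e : ℕ → ℕ → P} (C : Comp j (t : P) lo hi e) {i : ℕ} (hij : 2 * i ≤ j)
    (hT : lo i = hi i ∨ RectShape j lo hi ∨ StairShape j lo hi ∨
      StairShape j (fun k => k - hi k) (fun k => k - lo k)) :
    ∃ N θ, TopType j i t (hi i - lo i + 1) N θ := by
  have hlo := C.lo_le i (by omega)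
  by_cases hl : lo i = hi i
  · rw [hl, Nat.sub_self]
    exact ⟨_, _, type_light H hg C (by omega)⟩
  · have hlt : lo i < hi i := by omega
    have hii : hi i ≤ i := C.hi_le (by omega)
    rcases hT with h | h | h | h
    · exact absurd h hl
    · obtain ⟨N, co, h1, -⟩ := exists_rect C H hg H.gradedBelow h hij hlt
      exact ⟨_, _, TopType.rect N co h1 rfl rfl (by omega)⟩
    · have h2 := h.hi i (by omega)
      have h0 : lo i = 0 := by
        by_contra hcon
        have e1 := shape_lo C h.lo (l := i) (by omega) i (by omega)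
        have e2 := h.hi (i + i) (by omega)
        have e3 := C.lo_le (i + i) (by omega)
        omega
      obtain ⟨N, co, h1, -⟩ := exists_stair C H hg H.gradedBelow h hij
      exact ⟨_, _, TopType.stair N co h1 rfl rfl (by rw [h0, h2]; omega) (by omega) (by omega)⟩
    · have C' := comp_swap C
      have h2 : i - lo i = i / 2 := h.hi i (by omega)
      have h0 : i - hi i = 0 := by
        by_contra hcon
        have e1 := shape_lo C' h.lo (l := i) (by show 1 ≤ i - hi i; omega) i (by omega)
        have e2 := h.hi (i + i) (by omega)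
        have e3 := C'.lo_le (i + i) (by omega)
        omega
      obtain ⟨N, co, h1, -⟩ := exists_stair C' H hg H.gradedBelow h hij
      exact ⟨_, _, TopType.stair N co h1 rfl rfl (by omega) (by omega) (by omega)⟩

/-- **The far window system at window `i ≤ j / 2`.**  If every strip is light at level `i` or has a
natural shape, there are natural sets and thresholds of the listed types, and the far window
theorem applies with the full order. -/
theorem exists_farSystem (H : Gr P r) (hg : ∀ l, l < j → Win.Good P l)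
    (C : ∀ t : Tops P, Comp j (t : P) (lo t) (hi t) (e t)) {i : ℕ} (hij : 2 * i ≤ j)
    (hT : ∀ t : Tops P, lo t i = hi t i ∨ RectShape j (lo t) (hi t) ∨
      StairShape j (lo t) (hi t) ∨ StairShape j (fun k => k - hi t k) (fun k => k - lo t k)) :
    ∃ (N : Tops P → Finset P) (θ : Tops P → P → ℕ),
      (∀ t, TopType j i t (hi t i - lo t i + 1) (N t) (θ t)) ∧ NatSys N ∧
      FarData P i (unnat N) (lv P i).card (hcan (unnat N) (fun x => θ (topOf x) x)) := by
  choose N θ h using fun t => exists_type H hg (C t) hij (hT t)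
  obtain ⟨h1, h2⟩ := farData_of_types H.gradedBelow h
  refine ⟨N, θ, h, h1, ?_⟩
  rw [card_level H hg C (show i ≤ j by omega)]
  exact h2

end Count

end Pool.Agent.GaussPoset
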