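import Pool.Agent.W_448fw_h5.FwC

/-!
Cleanness of the unconstrained sums: passage to subtypes, disjoint unions, peaks.
-/

namespace Pool.Agent.GaussPoset

set_option linter.unusedSectionVars false

open Polynomial Finset

universe u

section Sub

variable {P : Type u} [Fintype P] [PartialOrder P] [DecidableEq P]

/-- on an upper set the levels are the levels of the whole poset -/
lemma lev_subtype {p : P → Prop} [DecidablePred p] (hp : ∀ x y, x ≤ y → p x → p y)
    (x : {x : P // p x}) : lev x = lev (x : P) := by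
  classical
  apply le_antisymm
  · obtain ⟨f, hf, hfx⟩ := Nat.sInf_mem (exists_strictAnti (x : P))
    have h1 : StrictAnti (fun y : {x : P // p x} => f (y : P)) := by
      intro a b hab
      exact hf hab
    have h2 := lev_le h1 x
    exact h2.trans hfx.le
  · obtain ⟨f, hf, hfx⟩ := Nat.sInf_mem (exists_strictAnti x)
    let M : ℕ := ∑ y : {x : P // p x}, f y
    have hM : ∀ y, f y ≤ M := fun y => Finset.single_le_sum (fun _ _ => Nat.zero_le _) (mem_univ y)
    have h1 : StrictAnti (fun y : P => if h : p y then f ⟨y, h⟩ else M + 1 + lev y) := by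
      intro a b hab
      by_cases ha : p a
      · have hb : p b := hp a b hab.le ha
        simp only [ha, hb, dif_pos]
        exact hf (show (⟨a, ha⟩ : {x : P // p x}) < ⟨b, hb⟩ from hab)
      · by_cases hb : p b
        · simp only [ha, hb, dif_pos, dif_neg, not_false_eq_true]
          have := hM ⟨b, hb⟩
          omega
        · simp only [ha, hb, dif_neg, not_false_eq_true]
          have := lev_strictAnti hab
          omega
    have h2 := lev_le h1 (x : P)
    simp only [x.2, dif_pos] at h2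
    exact h2.trans hfx.le

variable {D : Finset P} (hD : ∀ x y, x ≤ y → y ∈ D → x ∈ D)

include hD in
lemma lev_off (x : {x : P // x ∉ D}) : lev x = lev (x : P) :=
  lev_subtype (p := fun x => x ∉ D) (fun x y hxy hx hy => hx (hD x y hxy hy)) x

/-- extension by zero -/
def ext0 (D : Finset P) (e : {x : P // x ∉ D} → ℕ) (x : P) : ℕ :=
  if h : x ∉ D then e ⟨x, h⟩ else 0

lemma ext0_of {e : {x : P // x ∉ D} → ℕ} {x : P} (h : x ∉ D) : ext0 D e x = e ⟨x, h⟩ := by
  unfold ext0
  rw [dif_pos h]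

include hD in
lemma cst_off_iff {i : ℕ} (hlev : ∀ x ∈ D, i < lev x) (e : {x : P // x ∉ D} → ℕ)
    (F : Finset {x : P // x ∉ D}) :
    Cst i D 0 0 (ext0 D e) (F.map (Function.Embedding.subtype _)) ↔ Vd i e F := by
  classical
  have hmem : ∀ x : P, x ∈ F.map (Function.Embedding.subtype _) ↔ ∃ h : x ∉ D, ⟨x, h⟩ ∈ F := by
    intro x
    rw [mem_map]
    constructor
    · rintro ⟨y, hy, rfl⟩
      exact ⟨y.2, hy⟩
    · rintro ⟨h, hx⟩
      exact ⟨⟨x, h⟩, hx, rfl⟩
  have hr : ∀ x : {x : P // x ∉ D}, rho i (ext0 D e) (x : P) = rho i e x := by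
    intro x
    unfold rho
    rw [ext0_of x.2, lev_off hD x]
  have hr0 : ∀ x ∈ D, rho i (ext0 D e) x = 0 := by
    intro x hx
    rw [rho_of_lt (hlev x hx)]
    unfold ext0
    rw [dif_neg (not_not.mpr hx)]; rfl
  constructor
  · rintro ⟨⟨h1, h2, h3, h4⟩, -, -⟩
    refine ⟨?_, ?_, ?_, ?_⟩
    · intro x y hxy hx
      have := (hmem y).mp (h1 x y hxy ((hmem x).mpr ⟨x.2, hx⟩))
      exact this.2
    · intro x hx
      rw [← hr]
      exact h2 x (fun h => hx ((hmem x).mp h).2)
    · intro x y hxy hx hy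
      rw [← hr, ← hr]
      exact h3 x y hxy (fun h => hx ((hmem x).mp h).2) (fun h => hy ((hmem y).mp h).2)
    · intro x y hxy hx hy
      rw [← hr, ← hr]
      exact h4 x y hxy ((hmem x).mpr ⟨x.2, hx⟩) ((hmem y).mpr ⟨y.2, hy⟩)
  · rintro ⟨h1, h2, h3, h4⟩
    have hoff : ∀ x, x ∉ F.map (Function.Embedding.subtype _) →
        0 ≤ rho i (ext0 D e) x := by
      intro x hx
      by_cases hxD : x ∈ D
      · rw [hr0 x hxD]
      · rw [hr ⟨x, hxD⟩]
        exact h2 ⟨x, hxD⟩ (fun h => hx ((hmem x).mpr ⟨hxD, h⟩))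
    refine ⟨⟨?_, hoff, ?_, ?_⟩, ?_, ?_⟩
    · intro x y hxy hx
      obtain ⟨hxD, hx⟩ := (hmem x).mp hx
      have hyD : y ∉ D := fun h => hxD (hD x y hxy h)
      exact (hmem y).mpr ⟨hyD, h1 ⟨x, hxD⟩ ⟨y, hyD⟩ hxy hx⟩
    · intro x y hxy hx hy
      by_cases hxD : x ∈ D
      · rw [hr0 x hxD]
        exact hoff y hy
      · have hyD : y ∉ D := fun h => hxD (hD x y hxy h)
        rw [hr ⟨x, hxD⟩, hr ⟨y, hyD⟩]
        exact h3 ⟨x, hxD⟩ ⟨y, hyD⟩ hxy (fun h => hx ((hmem x).mpr ⟨hxD, h⟩))
          (fun h => hy ((hmem y).mpr ⟨hyD, h⟩))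
    · intro x y hxy hx hy
      obtain ⟨hxD, hx⟩ := (hmem x).mp hx
      obtain ⟨hyD, hy⟩ := (hmem y).mp hy
      rw [hr ⟨x, hxD⟩, hr ⟨y, hyD⟩]
      exact h4 ⟨x, hxD⟩ ⟨y, hyD⟩ hxy hx hy
    · intro x hx
      refine ⟨fun h => ((hmem x).mp h).1 hx, ?_⟩
      unfold ext0
      rw [dif_neg (not_not.mpr hx)]; rfl
    · intro x _ hxF
      simpa using hoff x hxF

include hD in
/-- the unconstrained sum with the lower set `D` removed is the window sum of the rest -/
theorem ZB_off {i : ℕ} (hlev : ∀ x ∈ D, i < lev x) (n : ℕ) :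
    ZB i D 0 0 n = Z {x : P // x ∉ D} i n := by
  classical
  rw [Z_eq_sum, Finset.sum_comm]
  have h1 : ∀ F : Finset {x : P // x ∉ D}, ∑ e ∈ (univ : Finset {x : P // x ∉ D}).piAntidiag n,
      (if Vd i e F then (X : ℤ[X]) ^ F.card else 0) =
      ∑ _e ∈ ((univ : Finset {x : P // x ∉ D}).piAntidiag n).filter (fun e => Vd i e F),
        (X : ℤ[X]) ^ F.card := fun F => (Finset.sum_filter _ _).symm
  rw [Finset.sum_congr rfl (fun F _ => h1 F)]
  unfold ZB
  rw [Finset.sum_sigma', Finset.sum_sigma']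
  symm
  refine Finset.sum_bij (fun a _ => (⟨a.1.map (Function.Embedding.subtype _), ext0 D a.2⟩ :
    (_ : Finset P) × (P → ℕ))) ?_ ?_ ?_ ?_
  · rintro ⟨F, e⟩ ha
    simp only [mem_sigma, mem_univ, true_and, mem_filter, mem_piAntidiag] at ha ⊢
    refine ⟨⟨?_, fun _ _ => trivial⟩, (cst_off_iff hD hlev e F).mpr ha.2⟩
    have h2 : ∑ x, ext0 D e x = ∑ x ∈ univ.filter (fun x => x ∉ D), ext0 D e x := by
      symm
      refine Finset.sum_subset (Finset.filter_subset _ _) fun x _ hx => ?_
      unfold ext0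
      rw [dif_neg]
      simpa using hx
    have h3 : ∑ x ∈ univ.filter (fun x => x ∉ D), ext0 D e x = ∑ x, e x := by
      rw [Finset.sum_subtype (univ.filter (fun x => x ∉ D)) (p := fun x => x ∉ D) (by simp)]
      exact Finset.sum_congr rfl fun x _ => ext0_of x.2
    have h4 : ∑ x, e x = n := ha.1.1
    change ∑ x, ext0 D e x = n
    rw [h2, h3, h4]
  · rintro ⟨F, e⟩ _ ⟨F', e'⟩ _ h
    simp only [Sigma.mk.injEq, heq_eq_eq] at h ⊢
    refine ⟨Finset.map_injective _ h.1, ?_⟩
    funext x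
    have := congrFun h.2 (x : P)
    rwa [ext0_of x.2, ext0_of x.2] at this
  · rintro ⟨F, e⟩ ha
    simp only [mem_sigma, mem_univ, true_and, mem_filter, mem_piAntidiag] at ha
    obtain ⟨⟨ha1, -⟩, ha2⟩ := ha
    have hF : (F.subtype (fun x => x ∉ D)).map (Function.Embedding.subtype _) = F := by
      rw [Finset.subtype_map_of_mem]
      intro x hx hxD
      exact (ha2.2.1 x hxD).1 hx
    have he : ext0 D (fun x => e x) = e := by
      funext x
      unfold ext0
      by_cases h : x ∈ D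
      · rw [dif_neg (not_not.mpr h)]
        exact ((ha2.2.1 x h).2).symm
      · rw [dif_pos h]
    refine ⟨⟨F.subtype (fun x => x ∉ D), fun x => e x⟩, ?_, ?_⟩
    · simp only [mem_sigma, mem_univ, true_and, mem_filter, mem_piAntidiag]
      refine ⟨⟨?_, fun _ _ => trivial⟩, ?_⟩
      · have h2 : ∑ x, e x = ∑ x ∈ univ.filter (fun x => x ∉ D), e x := by
          symm
          refine Finset.sum_subset (Finset.filter_subset _ _) fun x _ hx => ?_
          have hxD : x ∈ D := by simpa using hx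
          simpa using (ha2.2.1 x hxD).2
        rw [Finset.sum_subtype (univ.filter (fun x => x ∉ D)) (p := fun x => x ∉ D) (by simp)]
          at h2
        have h3 : ∑ x, e x = n := ha1
        rw [h3] at h2
        exact h2.symm
      · rw [← cst_off_iff hD hlev, hF, he]
        exact ha2
    · simp only [Sigma.mk.injEq, heq_eq_eq]
      exact ⟨hF, he⟩
  · rintro ⟨F, e⟩ _
    simp only [card_map]

end Sub

section Window

variable {Q : Type u} [Fintype Q] [PartialOrder Q] [DecidableEq Q]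

lemma map_one_add_X_pow (b : ℕ) : ((1 + X : ℤ[X]) ^ b).map (PowerSeries.C : ℤ →+* PowerSeries ℤ) =
    (1 + X) ^ b := by
  rw [Polynomial.map_pow, Polynomial.map_add, Polynomial.map_one, Polynomial.map_X]

/-- from the window polynomial to its coefficients -/
lemma dvd_Z_of_dvd_W {i b : ℕ} (h : (1 + X : Polynomial (PowerSeries ℤ)) ^ b ∣ W Q i) (n : ℕ) :
    (1 + X : ℤ[X]) ^ b ∣ Z Q i n := by
  obtain ⟨f, hf⟩ := h
  have h1 := exq_W (P := Q) i (n + M0 Q i)
  rw [if_pos (Nat.le_add_left _ _), Nat.add_sub_cancel] at h1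
  rw [← h1, hf, ← map_one_add_X_pow, exq_map_mul]
  exact dvd_mul_right _ _

/-- one factor `1 + X` can be checked on the coefficients -/
lemma dvd_W_of_dvd_Z {i : ℕ} (h : ∀ n, (1 + X : ℤ[X]) ∣ Z Q i n) :
    (1 + X : Polynomial (PowerSeries ℤ)) ∣ W Q i := by
  have h1 : (W Q i).IsRoot (-1) := by
    unfold Polynomial.IsRoot
    ext N
    have h2 : PowerSeries.coeff N ((W Q i).eval (-1)) = (exq N (W Q i)).eval (-1) := by
      rw [Polynomial.eval_eq_sum_range' (n := max ((W Q i).natDegree + 1)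
        ((exq N (W Q i)).natDegree + 1)) (by omega), Polynomial.eval_eq_sum_range'
        (n := max ((W Q i).natDegree + 1) ((exq N (W Q i)).natDegree + 1)) (by omega), map_sum]
      refine Finset.sum_congr rfl fun k _ => ?_
      rw [coeff_exq]
      have h3 : ((-1 : PowerSeries ℤ) ^ k) = PowerSeries.C ((-1 : ℤ) ^ k) := by simp
      rw [h3, mul_comm, PowerSeries.coeff_C_mul, mul_comm]
    rw [h2, exq_W, map_zero]
    split_ifs with h4
    · obtain ⟨g, hg⟩ := h (N - M0 Q i)
      rw [hg, eval_mul, eval_add, eval_one, eval_X]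
      ring
    · exact Polynomial.eval_zero
  have h2 := Polynomial.dvd_iff_isRoot.mpr h1
  rwa [map_neg, map_one, sub_neg_eq_add, add_comm] at h2

/-- a poset with an element of level at least `i` has a peak in every admissible configuration -/
lemma one_le_pk {i : ℕ} (hx : ∃ x : Q, i ≤ lev x) (e : Q → ℕ) : 1 ≤ (Pk i e).card := by
  classical
  obtain ⟨x, hx⟩ := hx
  obtain ⟨a, -, ha⟩ := Finset.exists_max_image (univ : Finset Q) (fun y => rho i e y)
    ⟨x, mem_univ x⟩
  let S : Finset Q := univ.filter (fun y => rho i e y = rho i e a)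
  obtain ⟨w, hw⟩ := S.exists_maximal ⟨a, by simp [S]⟩
  have hw1 : rho i e w = rho i e a := by simpa [S] using hw.1
  have h0 : 0 ≤ rho i e a := by
    have h1 := ha x (mem_univ x)
    have h2 : 0 ≤ rho i e x := by unfold rho; omega
    exact h2.trans h1
  rw [Nat.one_le_iff_ne_zero, Ne, Finset.card_eq_zero, ← Ne, ← Finset.nonempty_iff_ne_empty]
  refine ⟨w, ?_⟩
  simp only [Pk, mem_filter, mem_univ, true_and]
  constructor
  · rintro (h1 | ⟨z, -, h1⟩)
    · rw [hw1] at h1; omega
    · rw [hw1] at h1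
      exact absurd (ha z (mem_univ z)) (not_le.mpr h1)
  · rintro ⟨y, hy, h1⟩
    have h2 : rho i e y = rho i e a := le_antisymm (ha y (mem_univ y)) (by rw [← hw1]; exact h1)
    have h3 : y ∈ S := by simp [S, h2]
    exact absurd (hw.2 h3 hy.le) (not_le_of_gt hy)

/-- the peak lemma -/
theorem dvd_W_one {i : ℕ} (hx : ∃ x : Q, i ≤ lev x) :
    (1 + X : Polynomial (PowerSeries ℤ)) ∣ W Q i := by
  classical
  refine dvd_W_of_dvd_Z fun n => ?_
  unfold Z
  refine Finset.dvd_sum fun e _ => ?_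
  split_ifs with h
  · exact dvd_mul_of_dvd_right (dvd_pow_self _ (by have := one_le_pk hx e; omega)) _
  · exact dvd_zero _

end Window

end Pool.Agent.GaussPoset
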