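import Pool.Agent.W_448fw_h5.FwO
import Pool.Agent.W_448s7_h27.HangE

/-!
Local data of one component, assembly of the far window data.
-/

namespace Pool.Agent.GaussPoset

set_option linter.unusedSectionVars false

open Polynomial Finset

universe u

variable {P : Type u} [Fintype P] [PartialOrder P] [DecidableEq P]

/-- `N` is a possible natural set of the top `t` at window `i`, with order `b`, thresholds `θ` and
base elements `B`: it gives component data in every natural system which contains it -/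
structure NatTop (i : ℕ) (t : Tops P) (b : ℕ) (N : Finset P) (θ : P → ℕ) (B : P → Prop) :
    Prop where
  up : ∀ x ∈ N, ∀ y, x ≤ y → y ∈ N
  le_t : ∀ x ∈ N, x ≤ (t : P)
  low : ∀ x, x ≤ (t : P) → lev x ≤ i → x ∈ N
  data : ∀ M : Tops P → Finset P, NatSys M → M t = N → ∀ (θ' : P → ℕ) (B' : P → Prop),
    (∀ x ∈ N, θ' x = θ x) → (∀ x ∈ N, B' x ↔ B x) → CompData (unnat M) topOf t i b θ' B'

section Assembly

variable {i : ℕ} {N : Tops P → Finset P} {b : Tops P → ℕ} {θ : Tops P → P → ℕ}
  {B : Tops P → P → Prop}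

theorem natSys_of_tops (H : ∀ t, NatTop i t (b t) (N t) (θ t) (B t)) : NatSys N where
  up := fun t => (H t).up
  le_t := fun t => (H t).le_t

/-- low elements are natural -/
lemma low_natural (H : ∀ t, NatTop i t (b t) (N t) (θ t) (B t)) {x : P} (hx : lev x ≤ i) :
    x ∉ unnat N := by
  intro h
  exact mem_unnat.mp h (topOf x) ((H (topOf x)).low x (le_topOf x) hx)

/-- assembly: natural sets of all tops give the data of the far window theorem -/
theorem farData_of_tops (hgr : GradedBelow P) (H : ∀ t, NatTop i t (b t) (N t) (θ t) (B t)) :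
    FarData P i (unnat N) (∑ t, b t) (hcan (unnat N) (fun x => θ (topOf x) x)) := by
  have HN := natSys_of_tops H
  refine farData_of_comp hgr HN.lower ?_ topOf HN.cp b (fun x => θ (topOf x) x)
    (fun x => x ∉ unnat N ∧ B (topOf x) x) (fun x hx h => h.1 hx) ?_
  · intro x hx
    by_contra hcon
    exact low_natural H (not_lt.mp hcon) hx
  · intro t
    refine (H t).data N HN rfl _ _ ?_ ?_
    · intro x hx
      simp only [HN.topOf_eq hx]
    · intro x hx
      simp only [HN.topOf_eq hx, (HN.mem_iff.mp hx).1, not_false_eq_true, true_and]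

end Assembly

/-- local data of an up-closed set `N` at window `i` -/
structure LocData (i b : ℕ) (N : Finset P) (θ : P → ℕ) (B : P → Prop) : Prop where
  clean : ∀ U ⊆ N, (∀ x ∈ U, ∀ y, x ≤ y → y ∈ U) → (∀ x ∈ N, lev x ≤ i → x ∈ U) →
    (∀ x ∈ N, B x → x ∈ U) → (1 + X : Polynomial (PowerSeries ℤ)) ^ b ∣ W {x : P // x ∈ U} i
  lev : ∀ x ∈ N, 1 ≤ θ x → i < lev x
  base : ∀ x ∈ N, 1 ≤ θ x → ∀ y ∈ N, y ≤ x → ¬ B y
  step : ∀ x ∈ N, 1 ≤ θ x → ∀ y ∈ N, y ≤ x → ∀ x' ∈ N, y ⋖ x' → ¬ x' ≤ x → θ x ≤ θ x' + 1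
  le : ∀ x ∈ N, θ x ≤ Pool.Agent.GaussPoset.lev x - i

/-- local data give a natural set -/
theorem LocData.natTop {i b : ℕ} {t : Tops P} {N : Finset P} {θ : P → ℕ} {B : P → Prop}
    (L : LocData i b N θ B) (hup : ∀ x ∈ N, ∀ y, x ≤ y → y ∈ N) (hle : ∀ x ∈ N, x ≤ (t : P))
    (hlow : ∀ x, x ≤ (t : P) → Pool.Agent.GaussPoset.lev x ≤ i → x ∈ N) :
    NatTop i t b N θ B where
  up := hup
  le_t := hle
  low := hlow
  data := by
    intro M HM hM θ' B' hθ hB
    subst hM
    have hmem : ∀ x, x ∉ unnat M → topOf x = t → x ∈ M t := fun x h1 h2 => HM.mem_iff.mpr ⟨h1, h2⟩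
    constructor
    · intro D hD hdec
      classical
      let U : Finset P := (M t).filter (fun x => x ∉ D)
      have hU : ∀ x, x ∈ U ↔ x ∈ M t ∧ x ∉ D := by
        intro x
        simp [U]
      have h1 := L.clean U (Finset.filter_subset _ _) (fun x hx y hxy => by
          rw [hU] at hx ⊢
          exact ⟨hup x hx.1 y hxy, fun h => hx.2 (hD.1 x y hxy h)⟩)
        (fun x hx hxi => by
          rw [hU]
          exact ⟨hx, fun h => by have := hD.2.2.1 x h; omega⟩)
        (fun x hx hxB => by
          rw [hU]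
          exact ⟨hx, fun h => hD.2.2.2 x h ((hB x hx).mpr hxB)⟩)
      let e : {x : P // x ∈ U} ≃o {x : {x : P // x ∉ D} // topOf (x : P) = t} :=
        { toFun := fun x => ⟨⟨x, ((hU x).mp x.2).2⟩, HM.topOf_eq ((hU x).mp x.2).1⟩
          invFun := fun x => ⟨x.1.1, (hU _).mpr
            ⟨hmem _ (fun h => x.1.2 (hD.2.1 h)) x.2, x.1.2⟩⟩
          left_inv := fun x => rfl
          right_inv := fun x => rfl
          map_rel_iff' := Iff.rfl }
      rw [← W_iso e]
      exact h1
    · intro x hx hk h1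
      rw [hθ x (hmem x hx hk)] at h1
      exact L.lev x (hmem x hx hk) h1
    · intro x hx hk h1 y hyx hy
      have hxN := hmem x hx hk
      have hyN : y ∈ M t := by
        have h2 : topOf y = topOf x := HM.cp y x hyx hy
        exact hmem y hy (h2.trans hk)
      rw [hθ x hxN] at h1
      rw [hB y hyN]
      exact L.base x hxN h1 y hyN hyx
    · intro x hx hk h1 y hyx hy x' hx' hyx' hn
      have hxN := hmem x hx hk
      have hyN : y ∈ M t := by
        have h2 : topOf y = topOf x := HM.cp y x hyx hy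
        exact hmem y hy (h2.trans hk)
      have hxN' : x' ∈ M t := hup y hyN x' hyx'.1.le
      rw [hθ x hxN] at h1 ⊢
      rw [hθ x' hxN']
      exact L.step x hxN h1 y hyN hyx x' hxN' hyx' hn
    · intro x hx hk
      rw [hθ x (hmem x hx hk)]
      exact L.le x (hmem x hx hk)

/-- light sets: every up-closed set with an element of level `i` -/
theorem locData_light (hgr : GradedBelow P) {i : ℕ} {N : Finset P}
    (hex : ∃ x ∈ N, Pool.Agent.GaussPoset.lev x = i) :
    LocData i 1 N (fun x => Pool.Agent.GaussPoset.lev x - i) (fun _ => False) where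
  clean := by
    intro U hUN hU hlow _
    rw [pow_one]
    obtain ⟨x, hx, hl⟩ := hex
    have hxU : x ∈ U := hlow x hx hl.le
    refine dvd_W_one ⟨⟨x, hxU⟩, ?_⟩
    rw [lev_subtype (p := fun x => x ∈ U) (fun a c hac ha => hU a ha c hac)]
    exact hl.ge
  lev := fun x _ h => by omega
  base := fun _ _ _ _ _ _ h => h
  step := by
    intro x _ _ y _ hyx x' _ hyx' _
    have h1 := hgr.lev_covBy hyx'
    have h2 : Pool.Agent.GaussPoset.lev x ≤ Pool.Agent.GaussPoset.lev y := by
      rcases eq_or_lt_of_le hyx with h | h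
      · rw [h]
      · exact (lev_strictAnti h).le
    show Pool.Agent.GaussPoset.lev x - i ≤ (Pool.Agent.GaussPoset.lev x' - i) + 1
    omega
  le := fun _ _ => le_rfl

/-- the set of all elements below the top `t` only, as natural set of a light component -/
theorem natTop_light (hgr : GradedBelow P) {i : ℕ} {t : Tops P}
    (hlow : ∀ x, x ≤ (t : P) → lev x ≤ i → x ∈ onlyB t) (hex : ∃ x ≤ (t : P), lev x = i) :
    NatTop i t 1 (onlyB t) (fun x => lev x - i) (fun _ => False) := by
  refine (locData_light hgr ?_).natTop (fun x hx y hxy => onlyB_up hx hxy)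
    (fun x hx => onlyB_le hx) hlow
  obtain ⟨x, hx, hl⟩ := hex
  exact ⟨x, hlow x hx hl.le, hl⟩

end Pool.Agent.GaussPoset
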