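import Pool.Agent.W_448fw_h5.FwS

/-!
Cost and sign in terms of the numbers of elements above `z`, joins, and the elements above the
cells of a chart.
-/

namespace Pool.Agent.GaussPoset

set_option linter.unusedSectionVars false

open Polynomial Finset

universe u

variable {P : Type u} [Fintype P] [PartialOrder P] [DecidableEq P] {r : ℕ}

lemma Gr.gradedBelow (H : Gr P r) : GradedBelow P := by
  classical
  intro z x hzx
  let T : Finset P := univ.filter (fun w => z ≤ w ∧ w < x)
  obtain ⟨w, hw⟩ := T.exists_maximal ⟨z, by simp [T, hzx]⟩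
  have hw1 : z ≤ w ∧ w < x := by simpa [T] using hw.1
  refine ⟨w, hw1.1, hw1.2, ?_⟩
  refine (H.covBy_iff.mp ⟨hw1.2, fun v hv1 hv2 => ?_⟩).2
  have hvT : v ∈ T := by simp [T, hv2, hw1.1.trans hv1.le]
  exact absurd (hw.2 hvT hv1.le) (not_le_of_gt hv1)

/-- the cost by levels -/
theorem cst_eq (i : ℕ) (h : P → ℕ) (z : P) :
    cst i h z = ∑ k ∈ range (lev z + 1), min (h z) (k - i) * nab k z := by
  classical
  unfold cst ez
  rw [← Finset.sum_filter, ← Finset.sum_fiberwise_of_maps_to (t := range (lev z + 1)) (g := lev)]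
  · refine Finset.sum_congr rfl fun k _ => ?_
    have h1 : (univ.filter (fun x : P => z ≤ x)).filter (fun x => lev x = k) =
        (lv P k).filter (fun x => z ≤ x) := by
      ext x
      simp only [mem_filter, mem_univ, true_and, mem_lv]
      exact and_comm
    rw [h1, Finset.sum_congr rfl (g := fun _ => min (h z) (k - i)), Finset.sum_const, smul_eq_mul,
      Nat.mul_comm]
    · rfl
    · intro x hx
      rw [mem_filter, mem_lv] at hx
      rw [hx.1]
  · intro x hx
    rw [mem_filter] at hx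
    rw [mem_range, Nat.lt_succ_iff]
    rcases eq_or_lt_of_le hx.2 with h2 | h2
    · rw [h2]
    · exact (lev_strictAnti h2).le

/-- the sign exponent by levels -/
theorem nst_eq (i : ℕ) (h : P → ℕ) (z : P) : nst i h z = ∑ k ∈ range (h z), nab (i + k) z := by
  classical
  unfold nst
  rw [Finset.card_eq_sum_card_fiberwise (f := fun x => lev x - i) (t := range (h z))]
  · refine Finset.sum_congr rfl fun k hk => ?_
    rw [mem_range] at hk
    unfold nab
    congr 1
    ext x
    simp only [mem_filter, mem_univ, true_and, mem_lv]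
    constructor
    · rintro ⟨⟨h1, h2, h3⟩, h4⟩
      exact ⟨by omega, h1⟩
    · rintro ⟨h1, h2⟩
      exact ⟨⟨h2, by omega, by omega⟩, by omega⟩
  · intro x hx
    have hx' := mem_filter.mp (Finset.mem_coe.mp hx)
    refine Finset.mem_coe.mpr (mem_range.mpr ?_)
    show lev x - i < h z
    omega

lemma nab_mono {l : ℕ} {z x : P} (h : z ≤ x) : nab l x ≤ nab l z := by
  classical
  unfold nab
  refine Finset.card_le_card fun y hy => ?_
  rw [mem_filter] at hy ⊢
  exact ⟨hy.1, h.trans hy.2⟩

lemma one_le_nab {l : ℕ} {z : P} (h : l ≤ lev z) : 1 ≤ nab l z := by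
  classical
  obtain ⟨y, hy, hl⟩ := exists_above' (x := z) h
  exact Finset.card_pos.mpr ⟨y, by rw [mem_filter, mem_lv]; exact ⟨hl, hy⟩⟩

lemma nab_self {z : P} : nab (lev z) z = 1 := by
  classical
  unfold nab
  rw [Finset.card_eq_one]
  refine ⟨z, ?_⟩
  ext x
  rw [mem_filter, mem_lv, mem_singleton]
  constructor
  · rintro ⟨h1, h2⟩
    by_contra hne
    have := lev_strictAnti (lt_of_le_of_ne h2 (Ne.symm hne))
    omega
  · rintro rfl
    exact ⟨rfl, le_rfl⟩

/-- two different elements of level `l` above `z` -/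
lemma two_le_nab {l : ℕ} {z x y : P} (hx : z ≤ x) (hy : z ≤ y) (hlx : lev x = l) (hly : lev y = l)
    (hne : x ≠ y) : 2 ≤ nab l z := by
  classical
  unfold nab
  have h1 : ({x, y} : Finset P) ⊆ (lv P l).filter (fun x => z ≤ x) := by
    intro w hw
    rw [mem_insert, mem_singleton] at hw
    rw [mem_filter, mem_lv]
    rcases hw with rfl | rfl
    · exact ⟨hlx, hx⟩
    · exact ⟨hly, hy⟩
  have h2 := Finset.card_le_card h1
  rwa [Finset.card_pair hne] at h2

/-- lower bound of the cost from lower bounds of the numbers of elements above `z` -/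
theorem cst_ge {i : ℕ} {h : P → ℕ} {z : P} (f : ℕ → ℕ) (hf : ∀ k, i < k → k ≤ lev z → f k ≤ nab k z) :
    ∑ k ∈ range (lev z + 1), min (h z) (k - i) * f k ≤ cst i h z := by
  rw [cst_eq]
  refine Finset.sum_le_sum fun k hk => ?_
  rw [mem_range] at hk
  rcases Nat.lt_or_ge i k with h1 | h1
  · exact Nat.mul_le_mul_left _ (hf k h1 (by omega))
  · have : k - i = 0 := by omega
    rw [this, Nat.min_zero, Nat.zero_mul, Nat.zero_mul]

/-- `∑ (k - i) · 2` -/
lemma sum_two (i : ℕ) : ∀ L : ℕ, ∑ k ∈ range (i + L + 1), (k - i) * 2 = L * (L + 1) := by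
  intro L
  induction L with
  | zero =>
    refine Finset.sum_eq_zero fun k hk => ?_
    rw [mem_range] at hk
    have : k - i = 0 := by omega
    rw [this, Nat.zero_mul]
  | succ L ih =>
    rw [show i + (L + 1) + 1 = (i + L + 1) + 1 by ring, Finset.sum_range_succ, ih,
      show i + L + 1 - i = L + 1 by omega]
    ring

/-- full label and two elements above on every level `> i`: cost at least `(lev z - i) ^ 2` -/
theorem sq_le_cst {i : ℕ} {h : P → ℕ} {z : P} (hi : i < lev z) (hh : h z = lev z - i)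
    (h2 : ∀ k, i < k → k < lev z → 2 ≤ nab k z) : (lev z - i) ^ 2 ≤ cst i h z := by
  obtain ⟨L, hL⟩ : ∃ L, lev z = i + L + 1 := ⟨lev z - i - 1, by omega⟩
  have h3 := cst_ge (h := h) (z := z) (i := i) (fun k => if k < lev z then 2 else 1) (by
    intro k hk hk2
    split_ifs with hc
    · exact h2 k hk hc
    · exact one_le_nab hk2)
  refine le_trans (le_of_eq ?_) h3
  rw [Finset.sum_range_succ, if_neg (lt_irrefl _), hh, hL]
  have h4 : ∑ k ∈ range (i + L + 1), min (i + L + 1 - i) (k - i) *
      (if k < i + L + 1 then 2 else 1) = ∑ k ∈ range (i + L + 1), (k - i) * 2 := by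
    refine Finset.sum_congr rfl fun k hk => ?_
    rw [mem_range] at hk
    rw [if_pos hk, Nat.min_eq_right (by omega)]
  rw [h4, sum_two, show i + L + 1 - i = L + 1 by omega, Nat.min_self]
  ring

/-- an element of every level between `z` and `s` -/
lemma exists_between (hgr : GradedBelow P) {z s : P} (hzs : z ≤ s) : ∀ {l : ℕ}, lev s ≤ l →
    l ≤ lev z → ∃ w, z ≤ w ∧ w ≤ s ∧ lev w = l := by
  have key : ∀ d : ℕ, lev s + d ≤ lev z → ∃ w, z ≤ w ∧ w ≤ s ∧ lev w = lev s + d := by
    intro d
    induction d with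
    | zero => intro _; exact ⟨s, hzs, le_rfl, rfl⟩
    | succ d ih =>
      intro hd
      obtain ⟨w, h1, h2, h3⟩ := ih (by omega)
      have hne : z ≠ w := by rintro rfl; omega
      obtain ⟨w', h4, h5, h6⟩ := hgr z w (lt_of_le_of_ne h1 hne)
      exact ⟨w', h4, h5.le.trans h2, by omega⟩
  intro l h1 h2
  obtain ⟨w, h3, h4, h5⟩ := key (l - lev s) (by omega)
  exact ⟨w, h3, h4, by omega⟩

section Join

variable {N : Tops P → Finset P}

/-- below two tops: one more element than above the natural cover, on every level -/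
theorem nab_join (HN : NatSys N) (hgr : GradedBelow P) {t : Tops P} {x z s : P} (hx : x ∈ N t)
    (hzx : z ≤ x) (hs : lev s = 0) (hst : s ≠ t) (hzs : z ≤ s) {l : ℕ} (hl : l ≤ lev z) :
    nab l x + 1 ≤ nab l z := by
  classical
  obtain ⟨w, hzw, hws, hlw⟩ := exists_between hgr hzs (by omega) hl
  have hxw : ¬ x ≤ w := by
    intro hxw
    have h1 := HN.up t x hx w hxw
    exact hst (HN.top_eq h1 hs hws)
  have h1 : insert w ((lv P l).filter (fun y => x ≤ y)) ⊆ (lv P l).filter (fun y => z ≤ y) := by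
    intro y hy
    rw [mem_insert] at hy
    rw [mem_filter, mem_lv]
    rcases hy with rfl | hy
    · exact ⟨hlw, hzw⟩
    · rw [mem_filter, mem_lv] at hy
      exact ⟨hy.1, hzx.trans hy.2⟩
  have h2 := Finset.card_le_card h1
  rw [Finset.card_insert_of_notMem (by
    rw [mem_filter]
    exact fun h => hxw h.2)] at h2
  exact h2

/-- in particular at least two elements on every level -/
theorem two_le_nab_join (HN : NatSys N) (hgr : GradedBelow P) {t : Tops P} {x z s : P}
    (hx : x ∈ N t) (hzx : z ≤ x) (hs : lev s = 0) (hst : s ≠ t) (hzs : z ≤ s) {l : ℕ}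
    (hl : l ≤ lev x) : 2 ≤ nab l z := by
  have h1 : lev x ≤ lev z := by
    rcases eq_or_lt_of_le hzx with h | h
    · rw [h]
    · exact (lev_strictAnti h).le
  have h2 := nab_join HN hgr hx hzx hs hst hzs (l := l) (by omega)
  have h3 := one_le_nab (z := x) hl
  omega

/-- exact number of elements above a join of two natural elements of different tops -/
theorem nab_join_eq (HN : NatSys N) (H : Gr P r) {t t' : Tops P} {x x' z : P} (hx : x ∈ N t)
    (hx' : x' ∈ N t') (htt : t ≠ t') (hzx : z ⋖ x) (hzx' : z ⋖ x') {l : ℕ} (hl : l < lev z) :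
    nab l z = nab l x + nab l x' := by
  classical
  unfold nab
  rw [← Finset.card_union_of_disjoint]
  · congr 1
    ext y
    rw [mem_union, mem_filter, mem_filter, mem_filter, mem_lv]
    constructor
    · rintro ⟨h1, h2⟩
      have hne : z ≠ y := by rintro rfl; omega
      obtain ⟨v, hv, hvy⟩ := Hul.exists_cov (lt_of_le_of_ne h2 hne)
      have hxx' : x ≠ x' := by
        rintro rfl
        exact htt (((HN.topOf_eq hx).symm.trans (HN.topOf_eq hx')))
      by_cases h3 : v = x
      · exact Or.inl ⟨h1, h3 ▸ hvy⟩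
      · by_cases h4 : v = x'
        · exact Or.inr ⟨h1, h4 ▸ hvy⟩
        · exact (Win.uc_three H hv hzx hzx' h3 h4 hxx').elim
    · rintro (⟨h1, h2⟩ | ⟨h1, h2⟩)
      · exact ⟨h1, hzx.le.trans h2⟩
      · exact ⟨h1, hzx'.le.trans h2⟩
  · rw [Finset.disjoint_left]
    intro y hy hy'
    rw [mem_filter] at hy hy'
    have h1 := HN.topOf_eq (HN.up t x hx y hy.2)
    have h2 := HN.topOf_eq (HN.up t' x' hx' y hy'.2)
    exact htt (h1.symm.trans h2)

end Join

section Chart

variable {t : P} {S : ℕ × ℕ → Prop} {N : Finset P} {co : P → ℕ × ℕ}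

open Classical in
/-- the cells of level `l` above the cell `p` -/
noncomputable def cellsAt (S : ℕ × ℕ → Prop) (l : ℕ) (p : ℕ × ℕ) : Finset ℕ :=
  (range (p.1 + 1)).filter (fun a => a ≤ l ∧ l - a ≤ p.2 ∧ S (a, l - a))

lemma mem_cellsAt {l a : ℕ} {p : ℕ × ℕ} :
    a ∈ cellsAt S l p ↔ a ≤ p.1 ∧ a ≤ l ∧ l - a ≤ p.2 ∧ S (a, l - a) := by
  classical
  unfold cellsAt
  rw [mem_filter, mem_range, Nat.lt_succ_iff]

/-- the elements above an element of a chart are the cells above its cell -/
theorem nab_chart (C : Chart t S N co) {x : P} (hx : x ∈ N) (l : ℕ) :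
    nab l x = (cellsAt S l (co x)).card := by
  classical
  unfold nab
  refine Finset.card_bij (fun y _ => (co y).1) ?_ ?_ ?_
  · intro y hy
    rw [mem_filter, mem_lv] at hy
    have hyN := C.up x hx y hy.2
    have h1 := (C.le_iff x hx y hyN).mp hy.2
    have h2 := C.lev y hyN
    have h3 : (co y).1 ≤ (co x).1 := h1.1
    have h4 : (co y).2 ≤ (co x).2 := h1.2
    rw [mem_cellsAt]
    have h5 : l - (co y).1 = (co y).2 := by omega
    rw [h5]
    exact ⟨h3, by omega, h4, C.mem y hyN⟩
  · intro y hy y' hy' h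
    rw [mem_filter, mem_lv] at hy hy'
    have hyN := C.up x hx y hy.2
    have hyN' := C.up x hx y' hy'.2
    have h2 := C.lev y hyN
    have h3 := C.lev y' hyN'
    exact C.inj y hyN y' hyN' (Prod.ext h (by omega))
  · intro a ha
    rw [mem_cellsAt] at ha
    obtain ⟨y, hy, hcy⟩ := C.low x hx (a, l - a) ⟨ha.1, ha.2.2.1⟩ ha.2.2.2
    refine ⟨y, ?_, by rw [hcy]⟩
    rw [mem_filter, mem_lv]
    refine ⟨?_, ?_⟩
    · rw [C.lev y hy, hcy]
      simp only
      omega
    · rw [C.le_iff x hx y hy, hcy]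
      exact ⟨ha.1, ha.2.2.1⟩

/-- covers inside a chart -/
theorem chart_cov (C : Chart t S N co) (H : Gr P r) {x y : P} (hx : x ∈ N) (hy : y ∈ N) :
    x ⋖ y ↔ Prd (co x) (co y) := by
  have h1 := C.lev x hx
  have h2 := C.lev y hy
  rw [H.covBy_iff]
  constructor
  · rintro ⟨h3, h4⟩
    have h5 := (C.le_iff x hx y hy).mp h3.le
    have h6 : (co y).1 ≤ (co x).1 := h5.1
    have h7 : (co y).2 ≤ (co x).2 := h5.2
    unfold Prd
    omega
  · intro h3
    refine ⟨lt_of_le_of_ne ?_ ?_, ?_⟩
    · rw [C.le_iff x hx y hy]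
      exact h3.le
    · intro h4
      rw [h4] at h3
      exact h3.ne rfl
    · rcases h3 with h3 | h3 <;> omega

end Chart

end Pool.Agent.GaussPoset
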