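import Pool.Agent.W_448fw_h5.FwQ

/-!
Natural sets of rectangle-like and stair-like components.
-/

namespace Pool.Agent.GaussPoset

set_option linter.unusedSectionVars false

open Polynomial Finset

universe u

variable {P : Type u} [Fintype P] [PartialOrder P] [DecidableEq P]

section Rect

variable {t : Tops P} {N : Finset P} {co : P → ℕ × ℕ} {i b : ℕ}

/-- the two junk parts of a rectangle-like component are independent -/
lemma junk_cross (C : Chart (t : P) (fun _ => True) N co) (h1 : ∃ y ∈ N, 1 ≤ (co y).1)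
    (h2 : ∃ y ∈ N, 1 ≤ (co y).2) {x1 x2 x : P} (H1 : IsEnd (fun _ => True) N co x1)
    (H2 : IsEnd (fun _ => True) N (swp co) x2) (hx : x ∈ jset x2) : ¬ x < x1 := by
  intro hlt
  obtain ⟨y, hy, hcy⟩ := h1
  obtain ⟨y', hy', hcy'⟩ := h2
  have e1 := H1.lt y hy hcy
  have e2 := H2.lt y' hy' hcy'
  have e3 := H1.fst
  have e4 := H2.fst
  simp only [swp_fst, swp_snd] at e2 e4
  rcases (mem_jset.mp hx).2 x1 hlt.le with h | h
  · have := (C.le_iff x1 H1.mem x2 H2.mem).mp h
    have h5 : (co x2).1 ≤ (co x1).1 := this.1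
    omega
  · have := (C.le_iff x2 H2.mem x1 H1.mem).mp h
    have h5 : (co x1).2 ≤ (co x2).2 := this.2
    omega

lemma junk_swp_fst (C : Chart (t : P) (fun _ => True) N co) (h2 : ∃ y ∈ N, 1 ≤ (co y).2)
    {x : P} (hx : x ∈ junk (fun _ => True) N (swp co)) (hxN : x ∈ N) :
    1 ≤ (co x).1 ∧ (co x).2 = 0 := by
  obtain ⟨x2, H2, hx⟩ := mem_junk.mp hx
  obtain ⟨y', hy', hcy'⟩ := h2
  have e2 := H2.lt y' hy' hcy'
  have h3 := H2.tail C.swap hxN (mem_jset.mp hx).1
  have h4 := (C.le_iff x hxN x2 H2.mem).mp (mem_jset.mp hx).1.le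
  have h5 : (co x2).1 ≤ (co x).1 := h4.1
  simp only [swp_fst, swp_snd] at e2 h3
  exact ⟨by omega, h3.1⟩

lemma junk_fst (C : Chart (t : P) (fun _ => True) N co) (h1 : ∃ y ∈ N, 1 ≤ (co y).1)
    {x : P} (hx : x ∈ junk (fun _ => True) N co) (hxN : x ∈ N) :
    1 ≤ (co x).2 ∧ (co x).1 = 0 :=
  junk_swp_fst C.swap h1 hx hxN

lemma top_not_junk (C : Chart (t : P) (fun _ => True) N co) :
    (t : P) ∉ junk (fun _ => True) N (swp co) := by
  intro h
  obtain ⟨x2, H2, hx⟩ := mem_junk.mp h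
  exact absurd (C.le_t x2 H2.mem) (not_le_of_gt (mem_jset.mp hx).1)

/-- natural set of a rectangle-like component at window `i` -/
theorem natTop_rect (hgr : GradedBelow P) (C : Chart (t : P) (fun _ => True) N co) (hb : 2 ≤ b)
    (hbi : b ≤ i + 1) (hcell : ∃ x ∈ N, co x = (b - 1, i))
    (hrows : b = i + 1 ∨ ∀ x ∈ N, (co x).1 ≤ b - 1)
    (hlow : ∀ x, x ≤ (t : P) → lev x ≤ i → x ∈ N) :
    NatTop i t b (natR N co) (thR i b N co) (fun x => x ∈ N ∧ co x = (b - 1, i)) where
  up := natR_up C.up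
  le_t := natR_le C.le_t
  low := fun x hx hxi => mem_natR.mpr (Or.inl (hlow x hx hxi))
  data := by
    intro M HM hM θ' B' hθ hB
    obtain ⟨x0, hx0, hcx0⟩ := hcell
    have h1 : ∃ y ∈ N, 1 ≤ (co y).1 := ⟨x0, hx0, by rw [hcx0]; simp only; omega⟩
    have h2 : ∃ y ∈ N, 1 ≤ (co y).2 := ⟨x0, hx0, by rw [hcx0]; simp only; omega⟩
    have hmem : ∀ x, x ∉ unnat M → topOf x = t → x ∈ natR N co := fun x h1 h2 => by
      rw [← hM]; exact HM.mem_iff.mpr ⟨h1, h2⟩
    have hmem' : ∀ x, x ∈ natR N co → x ∉ unnat M ∧ topOf x = t := fun x h => by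
      rw [← hM] at h; exact HM.mem_iff.mp h
    -- the two junk parts
    obtain ⟨x1, J1, hx1, hr1⟩ := junk_data (S := fun _ => True) (fun _ _ => trivial) C h1 HM
      (J' := fun x => x ∈ junk (fun _ => True) N (swp co))
      (fun x => by rw [hM, mem_natR])
      (fun x1 H1 x hx hlt => by
        obtain ⟨x2, H2, hx'⟩ := mem_junk.mp hx
        exact absurd hlt (junk_cross C h1 h2 H1 H2 hx'))
      (fun x hx hxN => (junk_swp_fst C h2 hx hxN).1) (top_not_junk C)
    obtain ⟨x2, J2, hx2, hr2⟩ := junk_data (S := fun _ => True) (fun _ _ => trivial) C.swap h2 HM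
      (J' := fun x => x ∈ junk (fun _ => True) N co)
      (fun x => by rw [hM, mem_natR]; exact or_congr_right or_comm)
      (fun x1 H1 x hx hlt => by
        obtain ⟨x2, H2, hx'⟩ := mem_junk.mp hx
        exact absurd hlt (junk_cross C.swap h2 h1 H1 H2 hx'))
      (fun x hx hxN => (junk_swp_fst C.swap h1 hx hxN).1) (top_not_junk C.swap)
    have hnJ : ∀ x, x ∉ unnat M → topOf x = t → ¬ (x ∈ junk (fun _ => True) N co ∨
        x ∈ junk (fun _ => True) N (swp co)) → x ∈ N := by
      intro x hx hk hJ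
      rcases mem_natR.mp (hmem x hx hk) with h | h | h
      · exact h
      · exact absurd (Or.inl h) hJ
      · exact absurd (Or.inr h) hJ
    have hNM : ∀ x ∈ N, x ∉ unnat M ∧ topOf x = t := fun x hx =>
      hmem' x (mem_natR.mpr (Or.inl hx))
    have hbase : ∀ x ∈ N, co x = (b - 1, i) → ¬ (x ∈ junk (fun _ => True) N co ∨
        x ∈ junk (fun _ => True) N (swp co)) := by
      rintro x hx hc (h | h)
      · have := (junk_fst C h1 h hx).2
        rw [hc] at this
        simp only at this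
        omega
      · have := (junk_swp_fst C h2 h hx).2
        rw [hc] at this
        simp only at this
        omega
    have H : CoordJ (unnat M) topOf t (fun x => x ∈ junk (fun _ => True) N co ∨
        x ∈ junk (fun _ => True) N (swp co)) (fun _ => True) co := by
      constructor
      · intro x y hx hy hkx hky hJx hJy h
        exact C.inj x (hnJ x hx hkx hJx) y (hnJ y hy hky hJy) h
      · intro x y hx hy hkx hky hJx hJy
        exact C.le_iff x (hnJ x hx hkx hJx) y (hnJ y hy hky hJy)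
      · intro _ _ _ _
        trivial
      · intro x hx hk hJx c hc _
        have hxN := hnJ x hx hk hJx
        obtain ⟨y, hy, hcy⟩ := C.low x hxN c hc trivial
        refine ⟨y, (hNM y hy).1, (hNM y hy).2, ?_, hcy⟩
        have hxy : x ≤ y := by
          rw [C.le_iff x hxN y hy, hcy]
          exact hc
        rintro (h | h)
        · obtain ⟨w, Hw, hyw⟩ := mem_junk.mp h
          exact hJx (Or.inl (mem_junk.mpr ⟨w, Hw, (Hw.tail C hxN
            (hxy.trans_lt (mem_jset.mp hyw).1)).2⟩))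
        · obtain ⟨w, Hw, hyw⟩ := mem_junk.mp h
          exact hJx (Or.inr (mem_junk.mpr ⟨w, Hw, (Hw.tail C.swap hxN
            (hxy.trans_lt (mem_jset.mp hyw).1)).2⟩))
      · intro x hx hk hJx
        exact C.lev x (hnJ x hx hk hJx)
    refine compDataJ_straight hgr HM.cp J1 J2 hx1 hx2 H hr1 hr2 (by omega) hbi ?_ ?_ ?_ ?_ ?_
    · intro x hx hk
      rw [hB x (hmem x hx hk)]
      constructor
      · rintro ⟨h3, h4⟩
        exact ⟨hbase x h3 h4, h4⟩
      · rintro ⟨h3, h4⟩
        exact ⟨hnJ x hx hk h3, h4⟩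
    · exact ⟨x0, (hNM x0 hx0).1, (hNM x0 hx0).2, hbase x0 hx0 hcx0, hcx0⟩
    · intro x hx hk hJ
      rw [hθ x (hmem x hx hk)]
      unfold thR
      rw [if_neg hJ]
    · intro x hJ
      rw [hθ x (mem_natR.mpr (Or.inr hJ))]
      unfold thR
      rw [if_pos hJ]
    · rcases hrows with h | h
      · exact Or.inl h
      · exact Or.inr fun x hx hk hJ => h x (hnJ x hx hk hJ)

end Rect

section Stair

variable {t : Tops P} {N : Finset P} {co : P → ℕ × ℕ} {i : ℕ}

/-- natural set of a stair-like component at window `i` -/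
theorem natTop_stair (hgr : GradedBelow P) (C : Chart (t : P) (fun c => c.1 ≤ c.2) N co)
    (hi : 2 ≤ i) (hcell : ∃ x ∈ N, co x = (2 * (i / 2), i))
    (hlow : ∀ x, x ≤ (t : P) → lev x ≤ i → x ∈ N) :
    NatTop i t (i / 2 + 1) (natS N co) (thS i N co)
      (fun x => x ∈ N ∧ co x = (2 * (i / 2), i)) where
  up := natS_up C.up
  le_t := natS_le C.le_t
  low := fun x hx hxi => mem_natS.mpr (Or.inl (hlow x hx hxi))
  data := by
    intro M HM hM θ' B' hθ hB
    obtain ⟨x0, hx0, hcx0⟩ := hcell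
    have h1 : ∃ y ∈ N, 1 ≤ (co y).1 := ⟨x0, hx0, by rw [hcx0]; simp only; omega⟩
    have hmem : ∀ x, x ∉ unnat M → topOf x = t → x ∈ natS N co := fun x h1 h2 => by
      rw [← hM]; exact HM.mem_iff.mpr ⟨h1, h2⟩
    have hmem' : ∀ x, x ∈ natS N co → x ∉ unnat M ∧ topOf x = t := fun x h => by
      rw [← hM] at h; exact HM.mem_iff.mp h
    obtain ⟨x1, J1, hx1, hr1⟩ := junk_data (S := fun c : ℕ × ℕ => c.1 ≤ c.2) (fun c hc => hc) C h1
      HM (J' := fun _ => False) (fun x => by rw [hM, mem_natS, or_false])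
      (fun _ _ _ h => h.elim) (fun _ h => h.elim) (fun h => h)
    have hnJ : ∀ x, x ∉ unnat M → topOf x = t → x ∉ junk (fun c => c.1 ≤ c.2) N co → x ∈ N := by
      intro x hx hk hJ
      rcases mem_natS.mp (hmem x hx hk) with h | h
      · exact h
      · exact absurd h hJ
    have hNM : ∀ x ∈ N, x ∉ unnat M ∧ topOf x = t := fun x hx =>
      hmem' x (mem_natS.mpr (Or.inl hx))
    have hbase : ∀ x ∈ N, co x = (2 * (i / 2), i) → x ∉ junk (fun c => c.1 ≤ c.2) N co := by
      intro x hx hc h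
      obtain ⟨w, Hw, hxw⟩ := mem_junk.mp h
      have := (Hw.tail C hx (mem_jset.mp hxw).1).1
      rw [hc] at this
      simp only at this
      omega
    have H : CoordJ (unnat M) topOf t (fun x => x ∈ junk (fun c => c.1 ≤ c.2) N co)
        (fun c => c.1 ≤ c.2) co := by
      constructor
      · intro x y hx hy hkx hky hJx hJy h
        exact C.inj x (hnJ x hx hkx hJx) y (hnJ y hy hky hJy) h
      · intro x y hx hy hkx hky hJx hJy
        exact C.le_iff x (hnJ x hx hkx hJx) y (hnJ y hy hky hJy)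
      · intro x hx hk hJx
        exact C.mem x (hnJ x hx hk hJx)
      · intro x hx hk hJx c hc hS
        have hxN := hnJ x hx hk hJx
        obtain ⟨y, hy, hcy⟩ := C.low x hxN c hc hS
        refine ⟨y, (hNM y hy).1, (hNM y hy).2, ?_, hcy⟩
        have hxy : x ≤ y := by
          rw [C.le_iff x hxN y hy, hcy]
          exact hc
        intro h
        obtain ⟨w, Hw, hyw⟩ := mem_junk.mp h
        exact hJx (mem_junk.mpr ⟨w, Hw, (Hw.tail C hxN (hxy.trans_lt (mem_jset.mp hyw).1)).2⟩)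
      · intro x hx hk hJx
        exact C.lev x (hnJ x hx hk hJx)
    refine compDataJ_shifted hgr HM.cp J1 ⟨hx1.1, hx1.2.1, hx1.2.2.1⟩ H ?_ ?_ ?_ ?_ ?_
    · intro hex
      obtain ⟨h3, h4⟩ := hr1 hex
      exact ⟨h3, fun y hy hk hJ hne => h4 y hy hk hJ (fun h => h) hne⟩
    · intro x hx hk
      rw [hB x (hmem x hx hk)]
      constructor
      · rintro ⟨h3, h4⟩
        exact ⟨hbase x h3 h4, h4⟩
      · rintro ⟨h3, h4⟩
        exact ⟨hnJ x hx hk h3, h4⟩
    · exact ⟨x0, (hNM x0 hx0).1, (hNM x0 hx0).2, hbase x0 hx0 hcx0, hcx0⟩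
    · intro x hx hk hJ
      rw [hθ x (hmem x hx hk)]
      unfold thS
      rw [if_neg hJ]
    · intro x hJ
      rw [hθ x (mem_natS.mpr (Or.inr hJ))]
      unfold thS
      rw [if_pos hJ]

end Stair

end Pool.Agent.GaussPoset
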