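import Pool.Agent.W_448fw_h5.FwV

/-!
Doubles, diagonal pendants, cells above a cell.
-/

namespace Pool.Agent.GaussPoset

set_option linter.unusedSectionVars false

open Polynomial Finset

universe u

variable {P : Type u} [Fintype P] [PartialOrder P] [DecidableEq P] {r : ℕ}

section Max

variable {t : P} {S : ℕ × ℕ → Prop} {N : Finset P} {co : P → ℕ × ℕ}

/-- an element outside a maximal chart below two neighbours: the cell is occupied -/
theorem max_pair (C : Chart t S N co) (Mx : MaxChart S N co) (H : Gr P r) {z x x' : P}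
    (hzN : z ∉ N) (hx : x ∈ N) (hx' : x' ∈ N) (hzx : z ⋖ x) (hzx' : z ⋖ x') {s c : ℕ}
    (hcx : co x = (s + 1, c)) (hcx' : co x' = (s, c + 1)) (hS : S (s + 1, c + 1)) :
    ∃ y ∈ N, co y = (s + 1, c + 1) ∧ y ⋖ x ∧ y ⋖ x' ∧ y ≠ z := by
  have hxx' : x ≠ x' := by
    rintro rfl
    rw [hcx] at hcx'
    simp at hcx'
  by_cases hy : ∃ y ∈ N, co y = (s + 1, c + 1)
  · obtain ⟨y, hy, hcy⟩ := hy
    refine ⟨y, hy, hcy, ?_, ?_, fun h => hzN (h ▸ hy)⟩
    · rw [chart_cov C H hy hx, hcy, hcx]
      exact Or.inr ⟨rfl, rfl⟩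
    · rw [chart_cov C H hy hx', hcy, hcx']
      exact Or.inl ⟨rfl, rfl⟩
  · exfalso
    push Not at hy
    refine Mx z hzN (s + 1, c + 1) hS hy ⟨x, hzx⟩ ?_ ?_
    · intro p' _ hp'
      rcases hp' with h | h
      · refine ⟨x', hx', ?_⟩
        have e1 := h.1
        have e2 := h.2
        simp only at e1 e2
        rw [hcx']
        exact Prod.ext (by simp only; omega) (by simp only; omega)
      · refine ⟨x, hx, ?_⟩
        have e1 := h.1
        have e2 := h.2
        simp only at e1 e2
        rw [hcx]
        exact Prod.ext (by simp only; omega) (by simp only; omega)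
    · intro y
      constructor
      · intro h
        by_cases h1 : y = x
        · rw [h1]
          exact ⟨hx, by rw [hcx]; exact Or.inr ⟨rfl, rfl⟩⟩
        · by_cases h2 : y = x'
          · rw [h2]
            exact ⟨hx', by rw [hcx']; exact Or.inl ⟨rfl, rfl⟩⟩
          · exact (Win.uc_three H h hzx hzx' h1 h2 hxx').elim
      · rintro ⟨hyN, hyp⟩
        rcases hyp with h | h
        · have e1 := h.1
          have e2 := h.2
          simp only at e1 e2
          have : y = x' := C.inj y hyN x' hx' (by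
            rw [hcx']
            exact Prod.ext (by simp only; omega) (by simp only; omega))
          rw [this]
          exact hzx'
        · have e1 := h.1
          have e2 := h.2
          simp only at e1 e2
          have : y = x := C.inj y hyN x hx (by
            rw [hcx]
            exact Prod.ext (by simp only; omega) (by simp only; omega))
          rw [this]
          exact hzx

/-- the same for pendants: if `x` is the only predecessor of the allowed cell `p`, a pendant below
`x` outside a maximal chart forces `p` to be occupied -/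
theorem max_single (C : Chart t S N co) (Mx : MaxChart S N co) {z x : P} (hzN : z ∉ N)
    (hx : x ∈ N) (hzx : z ⋖ x) (honly : ∀ y, z ⋖ y → y = x) {p : ℕ × ℕ} (hS : S p)
    (hp : Prd p (co x)) (hpu : ∀ p', S p' → Prd p p' → p' = co x) : ∃ y ∈ N, co y = p := by
  by_contra hcon
  push Not at hcon
  refine Mx z hzN p hS hcon ⟨x, hzx⟩ (fun p' hp' hpp' => ⟨x, hx, (hpu p' hp' hpp').symm⟩) ?_
  intro y
  constructor
  · intro h
    rw [honly y h]
    exact ⟨hx, hp⟩
  · rintro ⟨hy, hyp⟩
    have : y = x := C.inj y hy x hx (hpu _ (C.mem y hy) hyp)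
    rw [this]
    exact hzx

/-- a pendant below the element `(s, s + 1)` of a stair: the diagonal cell is occupied -/
theorem max_diag {co : P → ℕ × ℕ} (C : Chart t (fun c => c.1 ≤ c.2) N co)
    (Mx : MaxChart (fun c => c.1 ≤ c.2) N co) (H : Gr P r) {z x : P} (hzN : z ∉ N) (hx : x ∈ N)
    (hzx : z ⋖ x) (honly : ∀ y, z ⋖ y → y = x) {s : ℕ} (hcx : co x = (s, s + 1)) :
    ∃ y ∈ N, co y = (s + 1, s + 1) ∧ y ⋖ x ∧ y ≠ z := by
  obtain ⟨y, hy, hcy⟩ := max_single C Mx hzN hx hzx honly (p := (s + 1, s + 1)) le_rfl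
    (by rw [hcx]; exact Or.inl ⟨rfl, rfl⟩) (by
      intro p' hp' hpp'
      rw [hcx]
      rcases hpp' with h | h
      · have e1 := h.1
        have e2 := h.2
        simp only at e1 e2
        exact Prod.ext (by simp only; omega) (by simp only; omega)
      · have e1 := h.1
        have e2 := h.2
        have e3 : p'.1 ≤ p'.2 := hp'
        simp only at e1 e2
        omega)
  refine ⟨y, hy, hcy, ?_, fun h => hzN (h ▸ hy)⟩
  rw [chart_cov C H hy hx, hcy, hcx]
  exact Or.inl ⟨rfl, rfl⟩

end Max

section Cells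

/-- cells above `(s, c)` in the plane -/
theorem card_cellsAt_true {l : ℕ} {p : ℕ × ℕ} (hl : l ≤ p.1 + p.2) :
    (cellsAt (fun _ => True) l p).card + (l - p.2) = min l p.1 + 1 := by
  classical
  have h1 : cellsAt (fun _ => True) l p = Icc (l - p.2) (min l p.1) := by
    ext a
    rw [mem_cellsAt, mem_Icc, and_true]
    omega
  rw [h1, Nat.card_Icc]
  omega

/-- cells above `(s, c)` in the shifted plane -/
theorem card_cellsAt_shift {l : ℕ} {p : ℕ × ℕ} (hp : p.1 ≤ p.2) (hl : l ≤ p.1 + p.2) :
    (cellsAt (fun c => c.1 ≤ c.2) l p).card + (l - p.2) = min (l / 2) p.1 + 1 := by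
  classical
  have h1 : cellsAt (fun c => c.1 ≤ c.2) l p = Icc (l - p.2) (min (l / 2) p.1) := by
    ext a
    rw [mem_cellsAt, mem_Icc]
    simp only
    omega
  rw [h1, Nat.card_Icc]
  omega

/-- closed form of the cost: label one less than the maximum, two elements above -/
theorem cst_ge_sq_sub {i : ℕ} {h : P → ℕ} {z : P} (hi : i + 1 < lev z) (hh : h z = lev z - i - 1)
    (h2 : ∀ k, i < k → k + 1 < lev z → 2 ≤ nab k z) :
    (lev z - i) * (lev z - i - 1) ≤ cst i h z := by
  obtain ⟨L, hL⟩ : ∃ L, lev z = i + L + 2 := ⟨lev z - i - 2, by omega⟩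
  have h3 := cst_ge (h := h) (z := z) (i := i) (fun k => if k + 1 < lev z then 2 else 1) (by
    intro k hk hk2
    split_ifs with hc
    · exact h2 k hk hc
    · exact one_le_nab hk2)
  refine le_trans (le_of_eq ?_) h3
  rw [Finset.sum_range_succ, hL, Finset.sum_range_succ, if_neg (by omega), if_neg (by omega), hh,
    hL]
  have h4 : ∑ k ∈ range (i + L + 1), min (i + L + 2 - i - 1) (k - i) *
      (if k + 1 < i + L + 2 then 2 else 1) = ∑ k ∈ range (i + L + 1), (k - i) * 2 := by
    refine Finset.sum_congr rfl fun k hk => ?_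
    rw [mem_range] at hk
    rw [if_pos (by omega), Nat.min_eq_right (by omega)]
  rw [h4, sum_two, show i + L + 2 - i - 1 = L + 1 by omega, show i + L + 2 - i = L + 2 by omega,
    show i + L + 1 - i = L + 1 by omega, Nat.min_self, Nat.min_eq_left (by omega)]
  ring

end Cells

end Pool.Agent.GaussPoset
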