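import Pool.Agent.W_448fw_h5.FwD

/-!
Window polynomials of disjoint unions.
-/

namespace Pool.Agent.GaussPoset

set_option linter.unusedSectionVars false

open Polynomial Finset

universe u

section Prod

variable {Q : Type u} [Fintype Q] [PartialOrder Q] [DecidableEq Q]
variable {ι : Type*} [Fintype ι] [DecidableEq ι] (c : Q → ι) (hc : ∀ x y, x ≤ y → c x = c y)

include hc in
/-- generating functions of disjoint unions are products -/
theorem U_prod (m : ℕ) : U Q m = ∏ k, U {x : Q // c x = k} m := by
  classical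
  unfold U
  rw [Finset.prod_univ_sum]
  refine Finset.sum_bij' (fun σ _ k x => σ (x : Q)) (fun τ _ x => τ (c x) ⟨x, rfl⟩) ?_ ?_ ?_ ?_ ?_
  · intro σ hσ
    rw [Fintype.mem_piFinset]
    intro k
    simp only [mem_filter, mem_univ, true_and] at hσ ⊢
    intro x y hxy
    exact hσ hxy
  · intro τ hτ
    rw [Fintype.mem_piFinset] at hτ
    simp only [mem_filter, mem_univ, true_and] at hτ ⊢
    intro x y hxy
    have h1 := hτ (c y)
    have h2 : (⟨x, hc x y hxy⟩ : {x : Q // c x = c y}) ≤ ⟨y, rfl⟩ := hxy
    have h3 : τ (c x) ⟨x, rfl⟩ = τ (c y) ⟨x, hc x y hxy⟩ := by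
      have : ∀ k (h : c x = k), τ (c x) ⟨x, rfl⟩ = τ k ⟨x, h⟩ := by
        rintro k rfl; rfl
      exact this _ _
    change τ (c x) ⟨x, rfl⟩ ≤ τ (c y) ⟨y, rfl⟩
    rw [h3]
    exact h1 h2
  · intro σ _
    rfl
  · intro τ _
    funext k x
    obtain ⟨x, rfl⟩ := x
    rfl
  · intro σ _
    rw [Finset.prod_pow_eq_pow_sum]
    congr 1
    rw [← Finset.sum_fiberwise (s := univ) (g := c)]
    refine Finset.sum_congr rfl fun k _ => ?_
    rw [Finset.sum_subtype (univ.filter (fun x => c x = k)) (p := fun x => c x = k) (by simp)]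

include hc in
theorem W_prod (i : ℕ) : W Q i = ∏ k, W {x : Q // c x = k} i := by
  classical
  apply Polynomial.eq_of_infinite_eval_eq
  have hinj : Function.Injective (fun m : ℕ => -(PowerSeries.X : PowerSeries ℤ) ^ (i + m + 1)) := by
    intro a b hab
    simp only [neg_inj] at hab
    have := congrArg PowerSeries.order hab
    rw [PowerSeries.order_X_pow, PowerSeries.order_X_pow] at this
    have h2 : i + a + 1 = i + b + 1 := by exact_mod_cast this
    omega
  refine Set.infinite_of_injective_forall_mem hinj fun m => ?_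
  simp only [Set.mem_ofPred_eq]
  rw [W_eval, eval_prod]
  simp only [W_eval]
  rw [Finset.prod_mul_distrib, Finset.prod_pow_eq_pow_sum, ← Finset.mul_sum]
  congr 1
  · congr 2
    rw [Fintype.card_eq_sum_ones, ← Finset.sum_fiberwise (s := univ) (g := c)]
    refine Finset.sum_congr rfl fun k _ => ?_
    rw [Finset.sum_const, smul_eq_mul, mul_one, ← Fintype.card_subtype]
  · rw [U_prod c hc m]
    have := map_prod (Polynomial.coeToPowerSeries.ringHom (R := ℤ))
      (fun k => U {x : Q // c x = k} m) univ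
    rw [Polynomial.coeToPowerSeries.ringHom_apply] at this
    rw [this]
    exact Finset.prod_congr rfl fun k _ => by simp

include hc in
/-- orders add up over the components -/
theorem dvd_W_prod (i : ℕ) (b : ι → ℕ)
    (h : ∀ k, (1 + X : Polynomial (PowerSeries ℤ)) ^ (b k) ∣ W {x : Q // c x = k} i) :
    (1 + X : Polynomial (PowerSeries ℤ)) ^ (∑ k, b k) ∣ W Q i := by
  rw [W_prod c hc i, ← Finset.prod_pow_eq_pow_sum]
  exact Finset.prod_dvd_prod_of_dvd _ _ fun k _ => h k

end Prod

end Pool.Agent.GaussPoset
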