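import Pool.Agent.W_MP_448cb3_h96.Excess

/-!
Window sums with frozen labels on a lower set and with lower bounds for the labels.
-/

namespace Pool.Agent.GaussPoset

set_option linter.unusedSectionVars false

open Polynomial Finset

universe u

variable {P : Type u} [Fintype P] [PartialOrder P] [DecidableEq P]

/-- constrained configurations: `e = g` on `D`, no element of `D` in the filter, and
`rho ≥ β` off `D ∪ F` -/
def Cst (i : ℕ) (D : Finset P) (g β e : P → ℕ) (F : Finset P) : Prop :=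
  Vd i e F ∧ (∀ x ∈ D, x ∉ F ∧ e x = g x) ∧ (∀ x, x ∉ D → x ∉ F → (β x : ℤ) ≤ rho i e x)

open Classical in
/-- constrained window sums -/
noncomputable def ZB (i : ℕ) (D : Finset P) (g β : P → ℕ) (n : ℕ) : ℤ[X] :=
  ∑ F : Finset P, ∑ _e ∈ ((univ : Finset P).piAntidiag n).filter (fun e => Cst i D g β e F),
    (X : ℤ[X]) ^ F.card

/-- the bounds produced by frozen labels -/
noncomputable def bg (D : Finset P) (g β : P → ℕ) (x : P) : ℕ := by
  classical exact max (β x) ((D.filter (fun y => y ⋖ x)).sup g)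

omit [Fintype P] [DecidableEq P] in
lemma le_bg (D : Finset P) (g β : P → ℕ) (x : P) : β x ≤ bg D g β x := le_max_left _ _

omit [Fintype P] [DecidableEq P] in
lemma le_bg' {D : Finset P} {g : P → ℕ} (β : P → ℕ) {x y : P} (hy : y ∈ D) (hxy : y ⋖ x) :
    g y ≤ bg D g β x := by
  classical
  refine le_trans ?_ (le_max_right _ _)
  exact Finset.le_sup (f := g) (mem_filter.mpr ⟨hy, hxy⟩)

omit [Fintype P] [DecidableEq P] in
lemma bg_le {D : Finset P} {g β : P → ℕ} {x : P} {t : ℕ} (h1 : β x ≤ t)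
    (h2 : ∀ y ∈ D, y ⋖ x → g y ≤ t) : bg D g β x ≤ t := by
  classical
  refine max_le h1 (Finset.sup_le fun y hy => ?_)
  rw [mem_filter] at hy
  exact h2 y hy.1 hy.2

omit [DecidableEq P] in
/-- a last element of a lower set below `x`, and the next element of a chain up to `x` -/
lemma exists_exit {D : Finset P} {x y : P} (hy : y ∈ D) (hx : x ∉ D) (hyx : y ≤ x) :
    ∃ y' x', y ≤ y' ∧ y' ∈ D ∧ y' ⋖ x' ∧ x' ∉ D ∧ x' ≤ x := by
  classical
  let S : Finset P := univ.filter (fun z => z ∈ D ∧ y ≤ z ∧ z ≤ x)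
  have hS : S.Nonempty := ⟨y, by simp [S, hy, hyx]⟩
  obtain ⟨z, hz⟩ := S.exists_maximal hS
  have hz1 : z ∈ D ∧ y ≤ z ∧ z ≤ x := by simpa [S] using hz.1
  have hne : z ≠ x := fun h => hx (h ▸ hz1.1)
  have hlt : z < x := lt_of_le_of_ne hz1.2.2 hne
  let T : Finset P := univ.filter (fun w => z < w ∧ w ≤ x)
  have hT : T.Nonempty := ⟨x, by simp [T, hlt]⟩
  obtain ⟨w, hw⟩ := T.exists_minimal hT
  have hw1 : z < w ∧ w ≤ x := by simpa [T] using hw.1
  refine ⟨z, w, hz1.2.1, hz1.1, ⟨hw1.1, fun v hv1 hv2 => ?_⟩, ?_, hw1.2⟩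
  · have hvT : v ∈ T := by simp [T, hv1, hv2.le.trans hw1.2]
    exact absurd (hw.2 hvT hv2.le) (not_le_of_gt hv2)
  · intro hwD
    have hwS : w ∈ S := by simp [S, hwD, hz1.2.1.trans hw1.1.le, hw1.2]
    exact absurd (hz.2 hwS hw1.1.le) (not_le_of_gt hw1.1)

omit [DecidableEq P] in
lemma rho_of_lt {i : ℕ} {e : P → ℕ} {x : P} (h : i < lev x) : rho i e x = e x := by
  unfold rho
  have : i - lev x = 0 := by omega
  rw [this]; simp

section LemmaA

variable {i : ℕ} {D : Finset P} {g : P → ℕ} (β : P → ℕ)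

lemma cst_iff (hD : ∀ x y, x ≤ y → y ∈ D → x ∈ D) (hlev : ∀ x ∈ D, i < lev x)
    (hg : ∀ x, x ∉ D → g x = 0) (hc : ∀ x ∈ D, ∀ y ∈ D, x ≤ y → g x ≤ g y)
    (e : P → ℕ) (F : Finset P) :
    Cst i D g β (fun x => e x + g x) F ↔ Cst i D 0 (bg D g β) e F := by
  have hr : ∀ x, rho i (fun x => e x + g x) x = rho i e x + g x := by
    intro x; unfold rho; push_cast; ring
  constructor
  · rintro ⟨⟨h1, h2, h3, h4⟩, h5, h6⟩
    have he : ∀ x ∈ D, e x = 0 := fun x hx => by
      have := (h5 x hx).2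
      simp only at this
      omega
    have hDF : ∀ x ∈ D, x ∉ F := fun x hx => (h5 x hx).1
    have hre : ∀ x ∈ D, rho i e x = 0 := fun x hx => by
      rw [rho_of_lt (hlev x hx), he x hx]; rfl
    have hoff : ∀ x, x ∉ D → x ∉ F → 0 ≤ rho i e x := by
      intro x hx hxF
      have := h2 x hxF
      rw [hr, hg x hx] at this
      simpa using this
    refine ⟨⟨h1, ?_, ?_, ?_⟩, ?_, ?_⟩
    · intro x hxF
      by_cases hx : x ∈ D
      · rw [hre x hx]
      · exact hoff x hx hxF
    · intro x y hxy hxF hyF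
      by_cases hx : x ∈ D
      · rw [hre x hx]
        by_cases hy : y ∈ D
        · rw [hre y hy]
        · exact hoff y hy hyF
      · have hy : y ∉ D := fun h => hx (hD x y hxy h)
        have := h3 x y hxy hxF hyF
        rw [hr, hr, hg x hx, hg y hy] at this
        simpa using this
    · intro x y hxy hxF hyF
      have := h4 x y hxy hxF hyF
      rw [hr, hr, hg x (fun h => hDF x h hxF), hg y (fun h => hDF y h hyF)] at this
      simpa using this
    · intro x hx
      exact ⟨hDF x hx, by simpa using he x hx⟩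
    · intro x hx hxF
      have h7 : (bg D g β x : ℤ) ≤ rho i e x := by
        have h8 : bg D g β x ≤ (rho i e x).toNat := by
          refine bg_le ?_ ?_
          · have := h6 x hx hxF
            rw [hr, hg x hx] at this
            have := hoff x hx hxF
            omega
          · intro y hy hyx
            have := h3 y x hyx.le (hDF y hy) hxF
            rw [hr, hr, hre y hy, hg x hx] at this
            omega
        have := hoff x hx hxF
        omega
      exact h7
  · rintro ⟨⟨h1, h2, h3, h4⟩, h5, h6⟩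
    have he : ∀ x ∈ D, e x = 0 := fun x hx => by simpa using (h5 x hx).2
    have hDF : ∀ x ∈ D, x ∉ F := fun x hx => (h5 x hx).1
    have hre : ∀ x ∈ D, rho i e x = 0 := fun x hx => by
      rw [rho_of_lt (hlev x hx), he x hx]; rfl
    refine ⟨⟨h1, ?_, ?_, ?_⟩, ?_, ?_⟩
    · intro x hxF
      rw [hr]
      have := h2 x hxF
      omega
    · intro x y hxy hxF hyF
      rw [hr, hr]
      by_cases hx : x ∈ D
      · by_cases hy : y ∈ D
        · rw [hre x hx, hre y hy]
          have := hc x hx y hy hxy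
          omega
        · rw [hre x hx, hg y hy]
          obtain ⟨y', x', h7, h8, h9, h10, h11⟩ := exists_exit hx hy hxy
          have hx'F : x' ∉ F := fun h => hyF (h1 x' y h11 h)
          have h12 := h3 x' y h11 hx'F hyF
          have h13 := h6 x' h10 hx'F
          have h14 := le_bg' (D := D) (g := g) β h8 h9
          have h15 := hc x hx y' h8 h7
          have h16 : (g y' : ℤ) ≤ bg D g β x' := by exact_mod_cast h14
          have h17 : (g x : ℤ) ≤ g y' := by exact_mod_cast h15
          simp only [Nat.cast_zero, zero_add, add_zero]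
          omega
      · have hy : y ∉ D := fun h => hx (hD x y hxy h)
        rw [hg x hx, hg y hy]
        have := h3 x y hxy hxF hyF
        simpa using this
    · intro x y hxy hxF hyF
      rw [hr, hr, hg x (fun h => hDF x h hxF), hg y (fun h => hDF y h hyF)]
      simpa using h4 x y hxy hxF hyF
    · intro x hx
      refine ⟨hDF x hx, ?_⟩
      simp only [he x hx, zero_add]
    · intro x hx hxF
      rw [hr, hg x hx]
      have h7 := h6 x hx hxF
      have h8 : (β x : ℤ) ≤ bg D g β x := by exact_mod_cast le_bg D g β x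
      simp only [Nat.cast_zero, add_zero]
      omega

lemma ZB_zero_of_not_compat (hlev : ∀ x ∈ D, i < lev x)
    (hc : ¬ ∀ x ∈ D, ∀ y ∈ D, x ≤ y → g x ≤ g y) (n : ℕ) : ZB i D g β n = 0 := by
  classical
  unfold ZB
  refine Finset.sum_eq_zero fun F _ => ?_
  rw [Finset.filter_eq_empty_iff.mpr, Finset.sum_empty]
  intro e _ hC
  apply hc
  intro x hx y hy hxy
  have h1 := hC.1.2.2.1 x y hxy (hC.2.1 x hx).1 (hC.2.1 y hy).1
  rw [rho_of_lt (hlev x hx), rho_of_lt (hlev y hy), (hC.2.1 x hx).2, (hC.2.1 y hy).2] at h1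
  exact_mod_cast h1

lemma ZB_zero_of_lt (n : ℕ) (hn : n < ∑ x ∈ D, g x) : ZB i D g β n = 0 := by
  classical
  unfold ZB
  refine Finset.sum_eq_zero fun F _ => ?_
  rw [Finset.filter_eq_empty_iff.mpr, Finset.sum_empty]
  intro e he hC
  rw [mem_piAntidiag] at he
  have h1 : ∑ x ∈ D, g x ≤ ∑ x, e x := by
    rw [Finset.sum_congr rfl (fun x hx => ((hC.2.1 x hx).2).symm)]
    exact Finset.sum_le_sum_of_subset (subset_univ D)
  have h2 : ∑ x, e x = n := he.1
  omega

lemma ZB_shift (hD : ∀ x y, x ≤ y → y ∈ D → x ∈ D) (hlev : ∀ x ∈ D, i < lev x)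
    (hg : ∀ x, x ∉ D → g x = 0) (hc : ∀ x ∈ D, ∀ y ∈ D, x ≤ y → g x ≤ g y) (n : ℕ) :
    ZB i D g β (n + ∑ x, g x) = ZB i D 0 (bg D g β) n := by
  classical
  unfold ZB
  refine Finset.sum_congr rfl fun F _ => ?_
  symm
  refine Finset.sum_bij (fun e _ x => e x + g x) ?_ ?_ ?_ (fun _ _ => rfl)
  · intro e he
    rw [mem_filter, mem_piAntidiag] at he ⊢
    refine ⟨⟨?_, fun _ _ => mem_univ _⟩, (cst_iff β hD hlev hg hc e F).mpr he.2⟩
    have h1 : ∑ x, e x = n := he.1.1
    change ∑ x, (e x + g x) = _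
    rw [Finset.sum_add_distrib, h1]
  · intro e _ e' _ h
    funext x
    have h3 : e x + g x = e' x + g x := congrFun h x
    omega
  · intro e he
    rw [mem_filter, mem_piAntidiag] at he
    have hle : ∀ x, g x ≤ e x := by
      intro x
      by_cases hx : x ∈ D
      · exact ((he.2.2.1 x hx).2).ge
      · rw [hg x hx]; exact Nat.zero_le _
    have h2 : (fun x => (e x - g x) + g x) = e := by
      funext x
      have := hle x
      omega
    refine ⟨fun x => e x - g x, ?_, h2⟩
    rw [mem_filter, mem_piAntidiag]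
    refine ⟨⟨?_, fun _ _ => mem_univ _⟩, ?_⟩
    · have h1 : ∑ x, e x = n + ∑ x, g x := he.1.1
      have h3 : ∑ x, ((e x - g x) + g x) = ∑ x, e x :=
        Finset.sum_congr rfl fun x _ => congrFun h2 x
      rw [Finset.sum_add_distrib, h1] at h3
      change ∑ x, (e x - g x) = n
      omega
    · rw [← cst_iff β hD hlev hg hc, h2]
      exact he.2

/-- Lemma A in the form in which it is used -/
lemma dvd_ZB_shift (hD : ∀ x y, x ≤ y → y ∈ D → x ∈ D) (hlev : ∀ x ∈ D, i < lev x)
    (hg : ∀ x, x ∉ D → g x = 0) (p : ℤ[X]) (h : ∀ n, p ∣ ZB i D 0 (bg D g β) n) (n : ℕ) :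
    p ∣ ZB i D g β n := by
  by_cases hc : ∀ x ∈ D, ∀ y ∈ D, x ≤ y → g x ≤ g y
  · by_cases hn : n < ∑ x ∈ D, g x
    · rw [ZB_zero_of_lt β n hn]; exact dvd_zero p
    · have hs : ∑ x ∈ D, g x = ∑ x, g x :=
        Finset.sum_subset (subset_univ D) fun x _ hx => hg x hx
      obtain ⟨m, rfl⟩ : ∃ m, n = m + ∑ x, g x := ⟨n - ∑ x, g x, by omega⟩
      rw [ZB_shift β hD hlev hg hc]
      exact h m
  · rw [ZB_zero_of_not_compat β hlev hc]; exact dvd_zero p

end LemmaA

lemma ZB_congr {i : ℕ} {D : Finset P} {g g' β β' : P → ℕ} (hg : ∀ x ∈ D, g x = g' x)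
    (hb : ∀ x, x ∉ D → β x = β' x) (n : ℕ) : ZB i D g β n = ZB i D g' β' n := by
  classical
  unfold ZB
  refine Finset.sum_congr rfl fun F _ => ?_
  have h : ∀ e : P → ℕ, Cst i D g β e F ↔ Cst i D g' β' e F := by
    intro e
    unfold Cst
    refine and_congr Iff.rfl (and_congr ?_ ?_)
    · refine forall_congr' fun x => ⟨fun h hx => ?_, fun h hx => ?_⟩
      · rw [← hg x hx]; exact h hx
      · rw [hg x hx]; exact h hx
    · refine forall_congr' fun x => ⟨fun h hx => ?_, fun h hx => ?_⟩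
      · rw [← hb x hx]; exact h hx
      · rw [hb x hx]; exact h hx
  simp only [h]

end Pool.Agent.GaussPoset
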