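import Pool.Agent.W_448fw_h5.FwA

/-!
Bounded cleanness from unbounded cleanness.
-/

namespace Pool.Agent.GaussPoset

set_option linter.unusedSectionVars false

open Polynomial Finset

universe u

variable {P : Type u} [Fintype P] [PartialOrder P] [DecidableEq P]

open Classical in
/-- the principal lower set of `x` -/
noncomputable def dnf (x : P) : Finset P := univ.filter (fun y => y ≤ x)

omit [DecidableEq P] in
lemma mem_dnf {x y : P} : y ∈ dnf x ↔ y ≤ x := by
  classical
  unfold dnf; simp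

section LemmaB

variable {i : ℕ} {D : Finset P} {g : P → ℕ} (β : P → ℕ) (x0 : P)

/-- the part which is lost when the bound at `x0` is raised by one, with given labels below -/
def Fib (i : ℕ) (D : Finset P) (g β : P → ℕ) (x0 : P) (g' e : P → ℕ) (F : Finset P) : Prop :=
  Cst i D g β e F ∧ x0 ∉ F ∧ e x0 = β x0 ∧
    (∀ x, g' x = if x ∈ D ∪ dnf x0 then e x else 0)

lemma cst_update_iff (hx0 : x0 ∉ D) (hlx : i < lev x0) (e : P → ℕ) (F : Finset P) :
    Cst i D g (Function.update β x0 (β x0 + 1)) e F ↔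
      Cst i D g β e F ∧ ¬ (x0 ∉ F ∧ e x0 = β x0) := by
  have hr : rho i e x0 = e x0 := rho_of_lt hlx
  constructor
  · rintro ⟨h1, h2, h3⟩
    refine ⟨⟨h1, h2, ?_⟩, ?_⟩
    · intro x hx hxF
      have h4 := h3 x hx hxF
      by_cases hxx : x = x0
      · subst hxx
        rw [Function.update_self] at h4
        push_cast at h4
        omega
      · rwa [Function.update_of_ne hxx] at h4
    · rintro ⟨h4, h5⟩
      have h6 := h3 x0 hx0 h4
      rw [Function.update_self, hr, h5] at h6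
      push_cast at h6
      omega
  · rintro ⟨⟨h1, h2, h3⟩, h4⟩
    refine ⟨h1, h2, ?_⟩
    intro x hx hxF
    have h5 := h3 x hx hxF
    by_cases hxx : x = x0
    · subst hxx
      rw [Function.update_self]
      rw [hr] at h5 ⊢
      have h6 : e x ≠ β x := fun h => h4 ⟨hxF, h⟩
      push_cast
      omega
    · rwa [Function.update_of_ne hxx]

/-- the labels below `x0` which occur -/
def Gd (D : Finset P) (g β : P → ℕ) (x0 : P) (g' : P → ℕ) : Prop :=
  (∀ x ∈ D, g' x = g x) ∧ g' x0 = β x0 ∧ (∀ x ≤ x0, g' x ≤ β x0) ∧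
    (∀ x ≤ x0, x ∉ D → β x ≤ g' x) ∧ (∀ x, x ∉ D ∪ dnf x0 → g' x = 0)

lemma fib_iff
    (hlx : i < lev x0) (g' e : P → ℕ) (F : Finset P) :
    Fib i D g β x0 g' e F ↔ Gd D g β x0 g' ∧ Cst i (D ∪ dnf x0) g' β e F := by
  have hlx' : ∀ x ≤ x0, i < lev x := by
    intro x hx
    rcases eq_or_lt_of_le hx with h | h
    · rw [h]; exact hlx
    · have := lev_strictAnti h; omega
  constructor
  · rintro ⟨⟨h1, h2, h3⟩, h4, h5, h6⟩
    have h7 : ∀ x ∈ D ∪ dnf x0, g' x = e x := fun x hx => by rw [h6 x, if_pos hx]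
    have hx0F : ∀ x ≤ x0, x ∉ F := fun x hx hxF => h4 (h1.1 x x0 hx hxF)
    have hm : ∀ x ≤ x0, x ∈ D ∪ dnf x0 := fun x hx => mem_union_right _ (mem_dnf.mpr hx)
    refine ⟨⟨?_, ?_, ?_, ?_, ?_⟩, h1, ?_, ?_⟩
    · intro x hx
      rw [h7 x (mem_union_left _ hx)]
      exact (h2 x hx).2
    · rw [h7 x0 (hm x0 le_rfl), h5]
    · intro x hx
      rw [h7 x (hm x hx), ← h5]
      have h8 := h1.2.2.1 x x0 hx (hx0F x hx) h4
      rw [rho_of_lt hlx, rho_of_lt (hlx' x hx)] at h8
      exact_mod_cast h8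
    · intro x hx hxD
      rw [h7 x (hm x hx)]
      have h8 := h3 x hxD (hx0F x hx)
      rw [rho_of_lt (hlx' x hx)] at h8
      exact_mod_cast h8
    · intro x hx
      rw [h6 x, if_neg hx]
    · intro x hx
      refine ⟨?_, (h7 x hx).symm⟩
      rcases mem_union.mp hx with h | h
      · exact (h2 x h).1
      · exact hx0F x (mem_dnf.mp h)
    · intro x hx hxF
      exact h3 x (fun h => hx (mem_union_left _ h)) hxF
  · rintro ⟨⟨g1, g2, g3, g4, g5⟩, h1, h2, h3⟩
    have hm : ∀ x ≤ x0, x ∈ D ∪ dnf x0 := fun x hx => mem_union_right _ (mem_dnf.mpr hx)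
    refine ⟨⟨h1, ?_, ?_⟩, ?_, ?_, ?_⟩
    · intro x hx
      have h4 := h2 x (mem_union_left _ hx)
      exact ⟨h4.1, h4.2.trans (g1 x hx)⟩
    · intro x hx hxF
      by_cases hxx : x ≤ x0
      · rw [rho_of_lt (hlx' x hxx), (h2 x (hm x hxx)).2]
        exact_mod_cast g4 x hxx hx
      · refine h3 x ?_ hxF
        rw [mem_union, mem_dnf]
        rintro (h | h)
        · exact hx h
        · exact hxx h
    · exact (h2 x0 (hm x0 le_rfl)).1
    · rw [(h2 x0 (hm x0 le_rfl)).2, g2]
    · intro x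
      by_cases hx : x ∈ D ∪ dnf x0
      · rw [if_pos hx]; exact ((h2 x hx).2).symm
      · rw [if_neg hx]; exact g5 x hx

/-- Lemma B in the form in which it is used -/
lemma dvd_ZB_step (hx0 : x0 ∉ D) (hlx : i < lev x0) (p : ℤ[X]) (h1 : ∀ n, p ∣ ZB i D g β n)
    (h2 : ∀ g', Gd D g β x0 g' → ∀ n, p ∣ ZB i (D ∪ dnf x0) g' β n) (n : ℕ) :
    p ∣ ZB i D g (Function.update β x0 (β x0 + 1)) n := by
  classical
  let Gs : Finset (P → ℕ) := Fintype.piFinset (fun _ => range (n + 1))
  have key : ZB i D g β n = ZB i D g (Function.update β x0 (β x0 + 1)) n +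
      ∑ g' ∈ Gs, if Gd D g β x0 g' then ZB i (D ∪ dnf x0) g' β n else 0 := by
    have h3 : ∀ g' ∈ Gs, (if Gd D g β x0 g' then ZB i (D ∪ dnf x0) g' β n else 0) =
        ∑ F : Finset P, ∑ _e ∈ ((univ : Finset P).piAntidiag n).filter
          (fun e => Fib i D g β x0 g' e F), (X : ℤ[X]) ^ F.card := by
      intro g' _
      by_cases hG : Gd D g β x0 g'
      · rw [if_pos hG]
        unfold ZB
        refine Finset.sum_congr rfl fun F _ => ?_
        have : ∀ e : P → ℕ, Fib i D g β x0 g' e F ↔ Cst i (D ∪ dnf x0) g' β e F := by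
          intro e
          rw [fib_iff β x0 hlx]
          exact ⟨fun h => h.2, fun h => ⟨hG, h⟩⟩
        simp only [this]
      · rw [if_neg hG]
        symm
        refine Finset.sum_eq_zero fun F _ => ?_
        rw [Finset.filter_eq_empty_iff.mpr, Finset.sum_empty]
        intro e _ hC
        rw [fib_iff β x0 hlx] at hC
        exact hG hC.1
    rw [Finset.sum_congr rfl h3, Finset.sum_comm]
    unfold ZB
    rw [← Finset.sum_add_distrib]
    refine Finset.sum_congr rfl fun F _ => ?_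
    have h4 : ∑ g' ∈ Gs, ∑ _e ∈ ((univ : Finset P).piAntidiag n).filter
          (fun e => Fib i D g β x0 g' e F), (X : ℤ[X]) ^ F.card =
        ∑ _e ∈ ((univ : Finset P).piAntidiag n).filter
          (fun e => Cst i D g β e F ∧ (x0 ∉ F ∧ e x0 = β x0)), (X : ℤ[X]) ^ F.card := by
      have hmaps : ∀ e ∈ ((univ : Finset P).piAntidiag n).filter
          (fun e => Cst i D g β e F ∧ (x0 ∉ F ∧ e x0 = β x0)),
          (fun x => if x ∈ D ∪ dnf x0 then e x else 0) ∈ Gs := by
        intro e he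
        rw [mem_filter, mem_piAntidiag] at he
        rw [Fintype.mem_piFinset]
        intro x
        rw [mem_range]
        have h5 : e x ≤ ∑ y, e y := Finset.single_le_sum (fun y _ => Nat.zero_le _) (mem_univ x)
        have h6 : ∑ y, e y = n := he.1.1
        split_ifs <;> omega
      refine Eq.trans ?_ (Finset.sum_fiberwise_of_maps_to hmaps (fun _ => (X : ℤ[X]) ^ F.card))
      refine Finset.sum_congr rfl fun g' _ => ?_
      refine Finset.sum_congr ?_ (fun _ _ => rfl)
      ext e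
      simp only [mem_filter, Fib]
      constructor
      · rintro ⟨h5, h6, h7, h8, h9⟩
        exact ⟨⟨h5, h6, h7, h8⟩, funext fun x => (h9 x).symm⟩
      · rintro ⟨⟨h5, h6, h7, h8⟩, h9⟩
        exact ⟨h5, h6, h7, h8, fun x => (congrFun h9 x).symm⟩
    rw [h4]
    have h5 : ((univ : Finset P).piAntidiag n).filter
        (fun e => Cst i D g (Function.update β x0 (β x0 + 1)) e F) =
        ((univ : Finset P).piAntidiag n).filter
        (fun e => Cst i D g β e F ∧ ¬ (x0 ∉ F ∧ e x0 = β x0)) := by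
      refine Finset.filter_congr fun e _ => ?_
      rw [cst_update_iff β x0 hx0 hlx]
    rw [h5, ← Finset.filter_filter, ← Finset.filter_filter]
    have h6 := Finset.sum_filter_add_sum_filter_not
      (((univ : Finset P).piAntidiag n).filter (fun e => Cst i D g β e F))
      (fun e : P → ℕ => (x0 ∉ F ∧ e x0 = β x0)) (fun _ => (X : ℤ[X]) ^ F.card)
    rw [← h6, add_comm]
  have h7 : ZB i D g (Function.update β x0 (β x0 + 1)) n = ZB i D g β n -
      ∑ g' ∈ Gs, if Gd D g β x0 g' then ZB i (D ∪ dnf x0) g' β n else 0 := by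
    rw [key]; ring
  rw [h7]
  refine dvd_sub (h1 n) (Finset.dvd_sum fun g' _ => ?_)
  split_ifs with hG
  · exact h2 g' hG n
  · exact dvd_zero p

end LemmaB

/-- bounded cleanness from unbounded cleanness -/
theorem dvd_ZB_bounds (i : ℕ) (p : ℤ[X]) (DD : Set (Finset P)) (θ : P → ℕ)
    (hlow : ∀ D ∈ DD, ∀ x y, x ≤ y → y ∈ D → x ∈ D) (hlev : ∀ D ∈ DD, ∀ x ∈ D, i < lev x)
    (hθ : ∀ x, 1 ≤ θ x → i < lev x) (c0 : ∀ D ∈ DD, ∀ n, p ∣ ZB i D 0 0 n)
    (c1 : ∀ D ∈ DD, ∀ x, x ∉ D → 1 ≤ θ x → D ∪ dnf x ∈ DD)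
    (c2 : ∀ D ∈ DD, ∀ x, x ∉ D → 1 ≤ θ x → ∀ y ≤ x, y ∉ D → ∀ x', y ⋖ x' → ¬ x' ≤ x →
      θ x ≤ θ x' + 1) :
    ∀ D ∈ DD, ∀ β : P → ℕ, (∀ x, x ∉ D → β x ≤ θ x) → ∀ n, p ∣ ZB i D 0 β n := by
  classical
  have outer : ∀ N : ℕ, ∀ D ∈ DD, (Dᶜ).card = N → ∀ β : P → ℕ, (∀ x, x ∉ D → β x ≤ θ x) →
      ∀ n, p ∣ ZB i D 0 β n := by
    intro N
    induction N using Nat.strong_induction_on with
    | _ N ihN =>
    intro D hDD hN
    have inner : ∀ s : ℕ, ∀ β : P → ℕ, (∑ x ∈ Dᶜ, β x = s) → (∀ x, x ∉ D → β x ≤ θ x) →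
        ∀ n, p ∣ ZB i D 0 β n := by
      intro s
      induction s with
      | zero =>
        intro β hβ _ n
        have h0 : ∀ x, x ∉ D → β x = 0 := by
          intro x hx
          rw [Finset.sum_eq_zero_iff] at hβ
          exact hβ x (by simpa using hx)
        rw [ZB_congr (g' := 0) (β' := 0) (fun _ _ => rfl) (fun x hx => by simpa using h0 x hx)]
        exact c0 D hDD n
      | succ s ihs =>
        intro β hβ hbd n
        obtain ⟨x0, hx0, hx0b⟩ : ∃ x0, x0 ∉ D ∧ 1 ≤ β x0 := by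
          by_contra hcon
          push Not at hcon
          have : ∑ x ∈ Dᶜ, β x = 0 := Finset.sum_eq_zero fun x hx => by
            have := hcon x (by simpa using hx)
            omega
          omega
        let β' : P → ℕ := Function.update β x0 (β x0 - 1)
        have hβ'x : β' x0 = β x0 - 1 := Function.update_self _ _ _
        have hβ'n : ∀ x, x ≠ x0 → β' x = β x := fun x hx => Function.update_of_ne hx _ _
        have hββ : β = Function.update β' x0 (β' x0 + 1) := by
          funext x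
          by_cases hx : x = x0
          · subst hx
            rw [Function.update_self, hβ'x]; omega
          · rw [Function.update_of_ne hx, hβ'n x hx]
        have hle : ∀ x, β' x ≤ β x := by
          intro x
          by_cases hx : x = x0
          · subst hx; rw [hβ'x]; omega
          · rw [hβ'n x hx]
        have hθx0 : 1 ≤ θ x0 := hx0b.trans (hbd x0 hx0)
        have hsum : ∑ x ∈ Dᶜ, β' x = s := by
          have h1 : ∑ x ∈ Dᶜ, β x = ∑ x ∈ Dᶜ, β' x + 1 := by
            rw [← Finset.add_sum_erase Dᶜ β (by simpa using hx0 : x0 ∈ Dᶜ),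
              ← Finset.add_sum_erase Dᶜ β' (by simpa using hx0 : x0 ∈ Dᶜ), hβ'x]
            have h2 : ∑ x ∈ Dᶜ.erase x0, β x = ∑ x ∈ Dᶜ.erase x0, β' x :=
              Finset.sum_congr rfl fun x hx => (hβ'n x (ne_of_mem_erase hx)).symm
            omega
          omega
        rw [hββ]
        refine dvd_ZB_step β' x0 hx0 (hθ x0 hθx0) p
          (fun n => ihs β' hsum (fun x hx => (hle x).trans (hbd x hx)) n) ?_ n
        intro g' hG n
        obtain ⟨g1, g2, g3, g4, g5⟩ := hG
        have hD' := c1 D hDD x0 hx0 hθx0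
        refine dvd_ZB_shift β' (hlow _ hD') (hlev _ hD') g5 p (fun n => ?_) n
        refine ihN _ ?_ _ hD' rfl _ ?_ n
        · rw [← hN]
          apply Finset.card_lt_card
          rw [Finset.compl_ssubset_compl]
          rw [Finset.ssubset_iff_of_subset subset_union_left]
          exact ⟨x0, mem_union_right _ (mem_dnf.mpr le_rfl), hx0⟩
        · intro x hx
          rw [mem_union, mem_dnf, not_or] at hx
          refine bg_le ((hle x).trans (hbd x hx.1)) ?_
          intro y hy hyx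
          by_cases hyD : y ∈ D
          · rw [g1 y hyD]; exact Nat.zero_le _
          · have hyx0 : y ≤ x0 := by
              rcases mem_union.mp hy with h | h
              · exact absurd h hyD
              · exact mem_dnf.mp h
            have h1 := g3 y hyx0
            rw [hβ'x] at h1
            have h2 := c2 D hDD x0 hx0 hθx0 y hyx0 hyD x hyx hx.2
            have h3 := hbd x0 hx0
            omega
    intro β hbd n
    exact inner _ β rfl hbd n
  intro D hDD β hbd n
  exact outer _ D hDD rfl β hbd n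

/-- the same with frozen labels on `D` -/
theorem dvd_ZB_labels (i : ℕ) (p : ℤ[X]) (DD : Set (Finset P)) (θ : P → ℕ)
    (hlow : ∀ D ∈ DD, ∀ x y, x ≤ y → y ∈ D → x ∈ D) (hlev : ∀ D ∈ DD, ∀ x ∈ D, i < lev x)
    (hθ : ∀ x, 1 ≤ θ x → i < lev x) (c0 : ∀ D ∈ DD, ∀ n, p ∣ ZB i D 0 0 n)
    (c1 : ∀ D ∈ DD, ∀ x, x ∉ D → 1 ≤ θ x → D ∪ dnf x ∈ DD)
    (c2 : ∀ D ∈ DD, ∀ x, x ∉ D → 1 ≤ θ x → ∀ y ≤ x, y ∉ D → ∀ x', y ⋖ x' → ¬ x' ≤ x →
      θ x ≤ θ x' + 1) {D : Finset P} (hD : D ∈ DD) (g : P → ℕ) (hg0 : ∀ x, x ∉ D → g x = 0)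
    (hg : ∀ y ∈ D, ∀ x, x ∉ D → y ⋖ x → g y ≤ θ x) (n : ℕ) : p ∣ ZB i D g 0 n := by
  refine dvd_ZB_shift 0 (hlow D hD) (hlev D hD) hg0 p (fun n => ?_) n
  refine dvd_ZB_bounds i p DD θ hlow hlev hθ c0 c1 c2 D hD _ ?_ n
  intro x hx
  exact bg_le (Nat.zero_le _) fun y hy hyx => hg y hy x hx hyx

end Pool.Agent.GaussPoset
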