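import Pool.Agent.W_448fw_h5.FwB

/-!
The far window theorem: lower bound for the poles and exact leading term.
-/

namespace Pool.Agent.GaussPoset

set_option linter.unusedSectionVars false

open Polynomial Finset

universe u

variable {P : Type u} [Fintype P] [PartialOrder P] [DecidableEq P]

open Classical in
/-- the elements of `R` which have an upper cover outside `R` -/
noncomputable def bdR (R : Finset P) : Finset P := R.filter (fun z => ∃ x, x ∉ R ∧ z ⋖ x)

open Classical in
/-- the cheapest excess function in which `z` is dangerous -/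
noncomputable def ez (i : ℕ) (h : P → ℕ) (z x : P) : ℕ := if z ≤ x then min (h z) (lev x - i) else 0

/-- cost of `z` at window `i` -/
noncomputable def cst (i : ℕ) (h : P → ℕ) (z : P) : ℕ := ∑ x, ez i h z x

/-- dangerous elements -/
def Dgz (h e : P → ℕ) (F : Finset P) (z : P) : Prop := z ∈ F ∨ h z ≤ e z

lemma sub_le_of_mem {i : ℕ} {e : P → ℕ} {F : Finset P} (hV : Vd i e F) {x : P} (hx : x ∈ F) :
    lev x - i ≤ e x := by
  have h1 := conf_toL hV
  have h2 := lev_le_of_upper h1.1 h1.2.2 x hx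
  have h3 := toL_add hV x
  rw [if_pos hx] at h3
  omega

lemma rho_le (i : ℕ) (e : P → ℕ) (x : P) : rho i e x ≤ e x := by
  unfold rho; omega

/-- a dangerous element costs -/
lemma ez_le {i : ℕ} {h e : P → ℕ} {F : Finset P} (hV : Vd i e F) {z : P} (hz : i < lev z)
    (hd : Dgz h e F z) (x : P) : ez i h z x ≤ e x := by
  classical
  unfold ez
  split_ifs with hzx
  · by_cases hx : x ∈ F
    · exact (min_le_right _ _).trans (sub_le_of_mem hV hx)
    · refine (min_le_left _ _).trans ?_
      have hzF : z ∉ F := fun h' => hx (hV.1 z x hzx h')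
      have h1 : h z ≤ e z := hd.resolve_left hzF
      have h2 := hV.2.2.1 z x hzx hzF hx
      rw [rho_of_lt hz] at h2
      have h3 := rho_le i e x
      omega
  · exact Nat.zero_le _

section Split

variable (i : ℕ) (R : Finset P) (h : P → ℕ)

open Classical in
/-- the part of the window sum without dangerous elements -/
noncomputable def ND (n : ℕ) : ℤ[X] :=
  ∑ F : Finset P, ∑ _e ∈ ((univ : Finset P).piAntidiag n).filter
    (fun e => Vd i e F ∧ ∀ z ∈ bdR R, ¬ Dgz h e F z), (X : ℤ[X]) ^ F.card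

open Classical in
/-- the part of the window sum with dangerous elements -/
noncomputable def DG (n : ℕ) : ℤ[X] :=
  ∑ F : Finset P, ∑ _e ∈ ((univ : Finset P).piAntidiag n).filter
    (fun e => Vd i e F ∧ ∃ z ∈ bdR R, Dgz h e F z), (X : ℤ[X]) ^ F.card

lemma Z_eq_sum (n : ℕ) : Z P i n = ∑ e ∈ (univ : Finset P).piAntidiag n, ∑ F : Finset P,
    (by classical exact if Vd i e F then (X : ℤ[X]) ^ F.card else 0) := by
  classical
  unfold Z
  refine Finset.sum_congr rfl fun e _ => ?_
  rw [← sum_vd]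

lemma Z_split (n : ℕ) : Z P i n = ND i R h n + DG i R h n := by
  classical
  rw [Z_eq_sum, Finset.sum_comm]
  unfold ND DG
  rw [← Finset.sum_add_distrib]
  refine Finset.sum_congr rfl fun F _ => ?_
  rw [← Finset.sum_filter]
  have h1 : ((univ : Finset P).piAntidiag n).filter
      (fun e => Vd i e F ∧ ∀ z ∈ bdR R, ¬ Dgz h e F z) =
      (((univ : Finset P).piAntidiag n).filter (fun e => Vd i e F)).filter
        (fun e => ¬ ∃ z ∈ bdR R, Dgz h e F z) := by
    rw [Finset.filter_filter]
    refine Finset.filter_congr fun e _ => ?_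
    push Not
    rfl
  have h2 : ((univ : Finset P).piAntidiag n).filter
      (fun e => Vd i e F ∧ ∃ z ∈ bdR R, Dgz h e F z) =
      (((univ : Finset P).piAntidiag n).filter (fun e => Vd i e F)).filter
        (fun e => ∃ z ∈ bdR R, Dgz h e F z) := by
    rw [Finset.filter_filter]
  rw [h1, h2, add_comm]
  exact (Finset.sum_filter_add_sum_filter_not _ _ _).symm

variable {i R h}

/-- without dangerous elements the filter does not meet `R` -/
lemma not_mem_of_not_dg {e : P → ℕ} {F : Finset P} (hlev : ∀ x ∈ R, i < lev x)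
    (hV : Vd i e F) (hnd : ∀ z ∈ bdR R, ¬ Dgz h e F z) : ∀ x ∈ R, x ∉ F := by
  classical
  by_contra hcon
  push Not at hcon
  obtain ⟨x, hxR, hxF⟩ := hcon
  have hne : (R ∩ F).Nonempty := ⟨x, mem_inter.mpr ⟨hxR, hxF⟩⟩
  obtain ⟨z, hz⟩ := (R ∩ F).exists_maximal hne
  have hz1 := mem_inter.mp hz.1
  have hlz := hlev z hz1.1
  obtain ⟨y, hy, -⟩ := exists_lev_succ (x := z) (k := lev z - 1) (by omega)
  let T : Finset P := univ.filter (fun w => z < w)
  obtain ⟨w, hw⟩ := T.exists_minimal ⟨y, by simp [T, hy]⟩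
  have hw1 : z < w := by simpa [T] using hw.1
  have hcov : z ⋖ w := ⟨hw1, fun v hv1 hv2 => by
    have hvT : v ∈ T := by simp [T, hv1]
    exact absurd (hw.2 hvT hv2.le) (not_le_of_gt hv2)⟩
  have hwF : w ∈ F := hV.1 z w hw1.le hz1.2
  have hwR : w ∉ R := by
    intro hwR
    exact absurd (hz.2 (mem_inter.mpr ⟨hwR, hwF⟩) hw1.le) (not_le_of_gt hw1)
  exact hnd z (mem_filter.mpr ⟨hz1.1, w, hwR, hcov⟩) (Or.inl hz1.2)

/-- the part without dangerous elements is a sum over frozen labels -/
lemma dvd_ND (hlev : ∀ x ∈ R, i < lev x) (p : ℤ[X]) (n : ℕ)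
    (hcl : ∀ g : P → ℕ, (∀ x, x ∉ R → g x = 0) → (∀ z ∈ bdR R, g z < h z) → p ∣ ZB i R g 0 n) :
    p ∣ ND i R h n := by
  classical
  let Gs : Finset (P → ℕ) := Fintype.piFinset (fun _ => range (n + 1))
  let Gg : (P → ℕ) → Prop := fun g => (∀ x, x ∉ R → g x = 0) ∧ ∀ z ∈ bdR R, g z < h z
  have key : ND i R h n = ∑ g ∈ Gs, if Gg g then ZB i R g 0 n else 0 := by
    have h1 : ∀ g ∈ Gs, (if Gg g then ZB i R g 0 n else 0) = ∑ F : Finset P,
        ∑ _e ∈ ((univ : Finset P).piAntidiag n).filter (fun e => Gg g ∧ Cst i R g 0 e F),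
          (X : ℤ[X]) ^ F.card := by
      intro g _
      split_ifs with hg
      · unfold ZB
        refine Finset.sum_congr rfl fun F _ => ?_
        refine Finset.sum_congr (Finset.filter_congr fun e _ => ?_) (fun _ _ => rfl)
        exact ⟨fun h => ⟨hg, h⟩, fun h => h.2⟩
      · symm
        refine Finset.sum_eq_zero fun F _ => ?_
        rw [Finset.filter_eq_empty_iff.mpr (fun e _ h => hg h.1), Finset.sum_empty]
    rw [Finset.sum_congr rfl h1, Finset.sum_comm]
    unfold ND
    refine Finset.sum_congr rfl fun F _ => ?_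
    have hmaps : ∀ e ∈ ((univ : Finset P).piAntidiag n).filter
        (fun e => Vd i e F ∧ ∀ z ∈ bdR R, ¬ Dgz h e F z),
        (fun x => if x ∈ R then e x else 0) ∈ Gs := by
      intro e he
      rw [mem_filter, mem_piAntidiag] at he
      rw [Fintype.mem_piFinset]
      intro x
      rw [mem_range]
      have h5 : e x ≤ ∑ y, e y := Finset.single_le_sum (fun y _ => Nat.zero_le _) (mem_univ x)
      have h6 : ∑ y, e y = n := he.1.1
      split_ifs <;> omega
    refine Eq.trans (Finset.sum_fiberwise_of_maps_to hmaps (fun _ => (X : ℤ[X]) ^ F.card)).symm ?_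
    refine Finset.sum_congr rfl fun g _ => ?_
    refine Finset.sum_congr ?_ (fun _ _ => rfl)
    ext e
    simp only [mem_filter]
    constructor
    · rintro ⟨⟨h5, h6, h7⟩, h8⟩
      have hRF := not_mem_of_not_dg hlev h6 h7
      have h9 : ∀ x, g x = if x ∈ R then e x else 0 := fun x => (congrFun h8 x).symm
      refine ⟨h5, ⟨?_, ?_⟩, h6, ?_, ?_⟩
      · intro x hx
        rw [h9 x, if_neg hx]
      · intro z hz
        have hzR : z ∈ R := (mem_filter.mp hz).1
        rw [h9 z, if_pos hzR]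
        by_contra hcon
        exact h7 z hz (Or.inr (not_lt.mp hcon))
      · intro x hx
        exact ⟨hRF x hx, by rw [h9 x, if_pos hx]⟩
      · intro x _ hxF
        simpa using h6.2.1 x hxF
    · rintro ⟨h5, ⟨h6, h7⟩, h8, h9, -⟩
      refine ⟨⟨h5, h8, ?_⟩, ?_⟩
      · intro z hz hd
        have hzR : z ∈ R := (mem_filter.mp hz).1
        rcases hd with hd | hd
        · exact (h9 z hzR).1 hd
        · rw [(h9 z hzR).2] at hd
          exact absurd (h7 z hz) (not_lt.mpr hd)
      · funext x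
        split_ifs with hx
        · exact (h9 x hx).2
        · exact (h6 x hx).symm
  rw [key]
  refine Finset.dvd_sum fun g _ => ?_
  split_ifs with hg
  · exact hcl g hg.1 hg.2
  · exact dvd_zero p

lemma DG_eq_zero {n : ℕ} (hlev : ∀ x ∈ R, i < lev x) (hn : ∀ z ∈ bdR R, n < cst i h z) :
    DG i R h n = 0 := by
  classical
  unfold DG
  refine Finset.sum_eq_zero fun F _ => ?_
  rw [Finset.filter_eq_empty_iff.mpr, Finset.sum_empty]
  rintro e he ⟨hV, z, hz, hd⟩
  rw [mem_piAntidiag] at he
  have h1 : cst i h z ≤ ∑ x, e x :=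
    Finset.sum_le_sum fun x _ => ez_le hV (hlev z (mem_filter.mp hz).1) hd x
  have h2 : ∑ x, e x = n := he.1
  have := hn z hz
  omega

lemma ez_self {z : P} (h2 : h z ≤ lev z - i) : ez i h z z = h z := by
  unfold ez
  rw [if_pos le_rfl]
  exact min_eq_left h2

lemma ez_inj {z z' : P} (h1 : 1 ≤ h z) (h2 : h z ≤ lev z - i) (h1' : 1 ≤ h z')
    (h2' : h z' ≤ lev z' - i) (he : ez i h z = ez i h z') : z = z' := by
  have h3 : z' ≤ z := by
    by_contra hcon
    have := congrFun he z
    rw [ez_self h2] at this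
    unfold ez at this
    rw [if_neg hcon] at this
    omega
  have h4 : z ≤ z' := by
    by_contra hcon
    have := congrFun he z'
    rw [ez_self h2'] at this
    unfold ez at this
    rw [if_neg hcon] at this
    omega
  exact le_antisymm h4 h3

lemma DG_eq {n : ℕ} (hlev : ∀ x ∈ R, i < lev x) (h1 : ∀ z ∈ bdR R, 1 ≤ h z)
    (h2 : ∀ z ∈ bdR R, h z ≤ lev z - i) (hn : ∀ z ∈ bdR R, n ≤ cst i h z) :
    DG i R h n = ∑ z ∈ (bdR R).filter (fun z => cst i h z = n),
      (by classical exact if Adm i (ez i h z) then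
        (X : ℤ[X]) ^ (nf i (ez i h z)) * (1 + X) ^ (Pk i (ez i h z)).card else 0) := by
  classical
  have h3 : ∀ z ∈ (bdR R).filter (fun z => cst i h z = n), (if Adm i (ez i h z) then
        (X : ℤ[X]) ^ (nf i (ez i h z)) * (1 + X) ^ (Pk i (ez i h z)).card else 0) =
        ∑ F : Finset P, if Vd i (ez i h z) F then (X : ℤ[X]) ^ F.card else 0 := by
    intro z _
    rw [sum_vd]
  rw [Finset.sum_congr rfl h3, Finset.sum_comm]
  unfold DG
  refine Finset.sum_congr rfl fun F _ => ?_
  rw [← Finset.sum_filter]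
  symm
  refine Finset.sum_bij (fun z _ => ez i h z) ?_ ?_ ?_ (fun _ _ => rfl)
  · intro z hz
    rw [mem_filter, mem_filter] at hz
    rw [mem_filter, mem_piAntidiag]
    refine ⟨⟨hz.1.2, fun _ _ => mem_univ _⟩, hz.2, z, hz.1.1, Or.inr ?_⟩
    exact (ez_self (h2 z hz.1.1)).ge
  · intro z hz z' hz' he
    rw [mem_filter, mem_filter] at hz hz'
    exact ez_inj (h1 z hz.1.1) (h2 z hz.1.1) (h1 z' hz'.1.1) (h2 z' hz'.1.1) he
  · intro e he
    rw [mem_filter, mem_piAntidiag] at he
    obtain ⟨⟨he1, -⟩, hV, z, hz, hd⟩ := he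
    have h4 : ∀ x, ez i h z x ≤ e x := ez_le hV (hlev z (mem_filter.mp hz).1) hd
    have h5 : ∑ x, e x = n := he1
    have h6 : cst i h z ≤ n := by
      rw [← h5]; exact Finset.sum_le_sum fun x _ => h4 x
    have h7 : cst i h z = n := le_antisymm h6 (hn z hz)
    have h8 : ez i h z = e := by
      funext x
      have h9 : ∑ x, ez i h z x = ∑ x, e x := by
        rw [h5]; exact h7
      exact (Finset.sum_eq_sum_iff_of_le (fun x _ => h4 x)).mp h9 x (mem_univ x)
    refine ⟨z, ?_, h8⟩
    rw [mem_filter, mem_filter]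
    refine ⟨⟨hz, h7⟩, ?_⟩
    rw [h8]; exact hV

end Split

end Pool.Agent.GaussPoset
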