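import Pool.Agent.W_448fw_h5.FwC
import Pool.Agent.W_MP_448cb3_h96.Energy1

/-!
The leading term of the far window theorem, computed.
-/

namespace Pool.Agent.GaussPoset

set_option linter.unusedSectionVars false

open Polynomial Finset

universe u

variable {P : Type u} [Fintype P] [PartialOrder P] [DecidableEq P]

open Classical in
/-- number of elements of level `l` above `z` -/
noncomputable def nab (l : ℕ) (z : P) : ℕ := ((lv P l).filter (fun x => z ≤ x)).card

open Classical in
/-- number of elements above `z` on the levels `i, …, i + h z - 1` -/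
noncomputable def nst (i : ℕ) (h : P → ℕ) (z : P) : ℕ :=
  (univ.filter (fun x => z ≤ x ∧ i ≤ lev x ∧ lev x < i + h z)).card

/-- the poset is graded: between comparable elements there is one on every level -/
def GradedBelow (P : Type u) [Fintype P] [PartialOrder P] : Prop :=
  ∀ z x : P, z < x → ∃ w, z ≤ w ∧ w < x ∧ lev w = lev x + 1

section Exact

variable {i : ℕ} {h : P → ℕ} {z : P}

lemma rho_ez_of_le {x : P} (hzx : z ≤ x) (hx : lev x ≤ i + h z) :
    rho i (ez i h z) x = (lev x : ℤ) - i := by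
  unfold rho ez
  rw [if_pos hzx]
  rcases le_total (lev x) i with h1 | h1
  · have : lev x - i = 0 := by omega
    rw [this, Nat.min_zero]
    push_cast [Nat.cast_sub h1]
    ring
  · have h2 : min (h z) (lev x - i) = lev x - i := min_eq_right (by omega)
    have h3 : i - lev x = 0 := by omega
    rw [h2, h3, Nat.cast_sub h1]
    simp

lemma rho_ez_of_ge {x : P} (hzx : z ≤ x) (hx : i + h z ≤ lev x) :
    rho i (ez i h z) x = h z := by
  unfold rho ez
  rw [if_pos hzx]
  have h2 : min (h z) (lev x - i) = h z := min_eq_left (by omega)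
  have h3 : i - lev x = 0 := by omega
  rw [h2, h3]
  simp

lemma rho_ez_of_not {x : P} (hzx : ¬ z ≤ x) :
    rho i (ez i h z) x = -((i - lev x : ℕ) : ℤ) := by
  unfold rho ez
  rw [if_neg hzx]
  simp

lemma rho_ez_le (x : P) : rho i (ez i h z) x ≤ h z := by
  by_cases hzx : z ≤ x
  · rcases le_total (lev x) (i + h z) with h1 | h1
    · rw [rho_ez_of_le hzx h1]; omega
    · rw [rho_ez_of_ge hzx h1]
  · rw [rho_ez_of_not hzx]; omega

lemma FI_ez (hgr : GradedBelow P) (hz : h z ≤ lev z - i) (hz1 : 1 ≤ h z) (x : P) :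
    FI i (ez i h z) x ↔ lev x < i ∨ (z ≤ x ∧ lev x < i + h z) := by
  unfold FI
  constructor
  · rintro (h1 | ⟨w, hw, h1⟩)
    · left
      by_cases hzx : z ≤ x
      · rcases le_total (lev x) (i + h z) with h2 | h2
        · rw [rho_ez_of_le hzx h2] at h1; omega
        · rw [rho_ez_of_ge hzx h2] at h1; omega
      · rw [rho_ez_of_not hzx] at h1; omega
    · have hlw := lev_strictAnti hw
      by_cases hzx : z ≤ x
      · right
        refine ⟨hzx, ?_⟩
        by_contra hcon
        rw [rho_ez_of_ge hzx (not_lt.mp hcon)] at h1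
        exact absurd (rho_ez_le (i := i) (h := h) (z := z) w) (not_le.mpr h1)
      · left
        have hzw : ¬ z ≤ w := fun h' => hzx (h'.trans hw.le)
        rw [rho_ez_of_not hzx, rho_ez_of_not hzw] at h1
        omega
  · intro h1
    by_cases h2 : lev x < i
    · left
      by_cases hzx : z ≤ x
      · rw [rho_ez_of_le hzx (by omega)]; omega
      · rw [rho_ez_of_not hzx]; omega
    · obtain ⟨hzx, h3⟩ := h1.resolve_left h2
      right
      have hlt : z < x := by
        refine lt_of_le_of_ne hzx ?_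
        rintro rfl
        omega
      obtain ⟨w, hw1, hw2, hw3⟩ := hgr z x hlt
      refine ⟨w, hw2, ?_⟩
      rw [rho_ez_of_le hzx (by omega), rho_ez_of_le hw1 (by omega)]
      omega

lemma FA_ez (x : P) :
    FA i (ez i h z) x ↔ (i < lev x ∧ ¬ z ≤ x) ∨ (z ≤ x ∧ i + h z < lev x) := by
  unfold FA
  constructor
  · rintro ⟨y, hy, h1⟩
    have hly := lev_strictAnti hy
    by_cases hzx : z ≤ x
    · right
      refine ⟨hzx, ?_⟩
      by_contra hcon
      rw [rho_ez_of_le hzx (not_lt.mp hcon), rho_ez_of_le (hzx.trans hy.le) (by omega)] at h1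
      omega
    · left
      refine ⟨?_, hzx⟩
      by_contra hcon
      rw [rho_ez_of_not hzx] at h1
      by_cases hzy : z ≤ y
      · rw [rho_ez_of_le hzy (by omega)] at h1
        omega
      · rw [rho_ez_of_not hzy] at h1
        omega
  · rintro (⟨h1, h2⟩ | ⟨h1, h2⟩)
    · obtain ⟨y, hy, hy2⟩ := exists_above' (x := x) (j := i) h1.le
      have hne : x ≠ y := by rintro rfl; omega
      refine ⟨y, lt_of_le_of_ne hy hne, ?_⟩
      rw [rho_ez_of_not h2]
      by_cases hzy : z ≤ y
      · rw [rho_ez_of_le hzy (by omega)]; omega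
      · rw [rho_ez_of_not hzy]; omega
    · obtain ⟨y, hy, hy2⟩ := exists_above' (x := x) (j := i + h z) h2.le
      have hne : x ≠ y := by rintro rfl; omega
      refine ⟨y, lt_of_le_of_ne hy hne, ?_⟩
      rw [rho_ez_of_ge h1 h2.le, rho_ez_of_ge (h1.trans hy) hy2.ge]

lemma adm_ez (hgr : GradedBelow P) (hz : h z ≤ lev z - i) (hz1 : 1 ≤ h z) :
    Adm i (ez i h z) := by
  intro x
  rw [FI_ez hgr hz hz1, FA_ez]
  rintro ⟨h1 | ⟨h1, h2⟩, ⟨h3, h4⟩ | ⟨h3, h4⟩⟩
  · omega
  · omega
  · exact h4 h1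
  · omega

lemma nf_ez (hgr : GradedBelow P) (hz : h z ≤ lev z - i) (hz1 : 1 ≤ h z) :
    nf i (ez i h z) = below P i + nst i h z := by
  classical
  unfold nf below nst
  rw [← Finset.card_union_of_disjoint]
  · congr 1
    ext x
    simp only [mem_filter, mem_univ, true_and, mem_union, FI_ez hgr hz hz1]
    constructor
    · rintro (h1 | ⟨h1, h2⟩)
      · exact Or.inl h1
      · by_cases h3 : lev x < i
        · exact Or.inl h3
        · exact Or.inr ⟨h1, not_lt.mp h3, h2⟩
    · rintro (h1 | ⟨h1, h2, h3⟩)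
      · exact Or.inl h1
      · exact Or.inr ⟨h1, h3⟩
  · rw [Finset.disjoint_left]
    intro x hx hx2
    simp only [mem_filter, mem_univ, true_and] at hx hx2
    omega

lemma pk_ez (hgr : GradedBelow P) (hz : h z ≤ lev z - i) (hz1 : 1 ≤ h z) :
    (Pk i (ez i h z)).card + nab i z = (lv P i).card + nab (i + h z) z := by
  classical
  have h1 : Pk i (ez i h z) = ((lv P i).filter (fun x => ¬ z ≤ x)) ∪
      ((lv P (i + h z)).filter (fun x => z ≤ x)) := by
    ext x
    simp only [Pk, mem_filter, mem_univ, true_and, mem_union, mem_lv, FI_ez hgr hz hz1, FA_ez]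
    by_cases hzx : z ≤ x
    · simp only [hzx, not_true_eq_false, and_false, true_and, false_or, and_true]
      omega
    · simp only [hzx, not_false_eq_true, and_true, false_and, or_false, and_false]
      omega
  rw [h1, Finset.card_union_of_disjoint]
  · unfold nab
    have h2 := Finset.card_filter_add_card_filter_not (s := lv P i) (fun x => z ≤ x)
    omega
  · rw [Finset.disjoint_left]
    intro x hx hx2
    simp only [mem_filter, mem_lv] at hx hx2
    exact hx.2 hx2.2

lemma nab_le (z : P) (l : ℕ) : nab l z ≤ (lv P l).card := by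
  classical
  exact Finset.card_filter_le _ _

end Exact

/-- the data of the far window theorem at window `i` for the set `R` of unnatural elements:
order of cleanness `b`, thresholds `θ`, labels `h` -/
structure FarData (P : Type u) [Fintype P] [PartialOrder P] [DecidableEq P] (i : ℕ)
    (R : Finset P) (b : ℕ) (h : P → ℕ) : Prop where
  graded : GradedBelow P
  hlev : ∀ x ∈ R, i < lev x
  clean : ∀ g : P → ℕ, (∀ x, x ∉ R → g x = 0) → (∀ z ∈ bdR R, g z < h z) →
    ∀ n, (1 + X : ℤ[X]) ^ b ∣ ZB i R g 0 n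
  one_le : ∀ z ∈ bdR R, 1 ≤ h z
  le_lev : ∀ z ∈ bdR R, h z ≤ lev z - i

/-- the standard way to obtain the data -/
theorem farData_of_thresholds {i : ℕ} {R : Finset P} {b : ℕ} {h : P → ℕ} (hgr : GradedBelow P)
    (DD : Set (Finset P)) (θ : P → ℕ)
    (hlow : ∀ D ∈ DD, ∀ x y, x ≤ y → y ∈ D → x ∈ D) (hlev : ∀ D ∈ DD, ∀ x ∈ D, i < lev x)
    (hθ : ∀ x, 1 ≤ θ x → i < lev x) (c0 : ∀ D ∈ DD, ∀ n, (1 + X : ℤ[X]) ^ b ∣ ZB i D 0 0 n)
    (c1 : ∀ D ∈ DD, ∀ x, x ∉ D → 1 ≤ θ x → D ∪ dnf x ∈ DD)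
    (c2 : ∀ D ∈ DD, ∀ x, x ∉ D → 1 ≤ θ x → ∀ y ≤ x, y ∉ D → ∀ x', y ⋖ x' → ¬ x' ≤ x →
      θ x ≤ θ x' + 1)
    (hR : R ∈ DD) (h1 : ∀ z ∈ bdR R, 1 ≤ h z) (h2 : ∀ z ∈ bdR R, h z ≤ lev z - i)
    (h3 : ∀ z ∈ R, ∀ x, x ∉ R → z ⋖ x → h z ≤ θ x + 1) : FarData P i R b h where
  graded := hgr
  hlev := hlev R hR
  clean := by
    intro g hg0 hg n
    refine dvd_ZB_labels i _ DD θ hlow hlev hθ c0 c1 c2 hR g hg0 ?_ n
    intro y hy x hx hyx
    have h4 : y ∈ bdR R := by
      classical
      exact mem_filter.mpr ⟨hy, x, hx, hyx⟩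
    have h5 := hg y h4
    have h6 := h3 y hy x hx hyx
    omega
  one_le := h1
  le_lev := h2

/-- the far window theorem, lower bound: no pole below the minimal cost -/
theorem FarData.dvd_of_lt {i : ℕ} {R : Finset P} {b : ℕ} {h : P → ℕ} (H : FarData P i R b h)
    {n : ℕ} (hn : ∀ z ∈ bdR R, n < cst i h z) : (1 + X : ℤ[X]) ^ b ∣ Z P i n := by
  rw [Z_split i R h n, DG_eq_zero H.hlev hn, add_zero]
  exact dvd_ND H.hlev _ n fun g h1 h2 => H.clean g h1 h2 n

/-- the far window theorem, leading term -/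
theorem FarData.dvd_lead {i : ℕ} {R : Finset P} {b : ℕ} {h : P → ℕ} (H : FarData P i R b h)
    {n : ℕ} (hn : ∀ z ∈ bdR R, n ≤ cst i h z) : (1 + X : ℤ[X]) ^ b ∣ Z P i n -
      ∑ z ∈ (bdR R).filter (fun z => cst i h z = n), (X : ℤ[X]) ^ (below P i + nst i h z) *
        (1 + X) ^ ((lv P i).card + nab (i + h z) z - nab i z) := by
  classical
  rw [Z_split i R h n, DG_eq H.hlev H.one_le H.le_lev hn]
  have h1 : ∑ z ∈ (bdR R).filter (fun z => cst i h z = n), (if Adm i (ez i h z) then
        (X : ℤ[X]) ^ (nf i (ez i h z)) * (1 + X) ^ (Pk i (ez i h z)).card else 0) =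
      ∑ z ∈ (bdR R).filter (fun z => cst i h z = n), (X : ℤ[X]) ^ (below P i + nst i h z) *
        (1 + X) ^ ((lv P i).card + nab (i + h z) z - nab i z) := by
    refine Finset.sum_congr rfl fun z hz => ?_
    have hzR := (mem_filter.mp hz).1
    rw [if_pos (adm_ez H.graded (H.le_lev z hzR) (H.one_le z hzR)),
      nf_ez H.graded (H.le_lev z hzR) (H.one_le z hzR)]
    have h2 := pk_ez H.graded (H.le_lev z hzR) (H.one_le z hzR)
    have h3 : (Pk i (ez i h z)).card = (lv P i).card + nab (i + h z) z - nab i z := by omega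
    rw [h3]
  rw [h1, add_sub_cancel_right]
  exact dvd_ND H.hlev _ n fun g h1 h2 => H.clean g h1 h2 n

/-- leading coefficients of a sum divisible by a power of `1 + X` -/
lemma sum_sign_eq_zero {ι : Type*} (s : Finset ι) (a c : ι → ℕ) (b c0 : ℕ) (hc : c0 < b)
    (hle : ∀ z ∈ s, c0 ≤ c z) (hd : (1 + X : ℤ[X]) ^ b ∣ ∑ z ∈ s, X ^ (a z) * (1 + X) ^ (c z)) :
    ∑ z ∈ s.filter (fun z => c z = c0), (-1 : ℤ) ^ (a z) = 0 := by
  classical
  have h1 : ∑ z ∈ s, (X : ℤ[X]) ^ (a z) * (1 + X) ^ (c z) =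
      (1 + X) ^ c0 * ∑ z ∈ s, X ^ (a z) * (1 + X) ^ (c z - c0) := by
    rw [Finset.mul_sum]
    refine Finset.sum_congr rfl fun z hz => ?_
    have h2 : (1 + X : ℤ[X]) ^ (c z) = (1 + X) ^ c0 * (1 + X) ^ (c z - c0) := by
      rw [← pow_add]; congr 1; have := hle z hz; omega
    rw [h2]; ring
  have h3 : (1 + X : ℤ[X]) ^ b = (1 + X) ^ c0 * (1 + X) ^ (b - c0) := by
    rw [← pow_add]; congr 1; omega
  have hm : (1 + X : ℤ[X]).Monic := by
    have := monic_X_add_C (1 : ℤ)
    rwa [map_one, add_comm] at this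
  rw [h1, h3] at hd
  have h4 := (mul_dvd_mul_iff_left (pow_ne_zero c0 hm.ne_zero)).mp hd
  obtain ⟨q, hq⟩ := (dvd_pow_self (1 + X : ℤ[X]) (by omega : b - c0 ≠ 0)).trans h4
  have h5 := congrArg (Polynomial.eval (-1)) hq
  rw [eval_mul, eval_add, eval_one, eval_X] at h5
  rw [Polynomial.eval_finsetSum] at h5
  simp only [eval_mul, eval_pow, eval_add, eval_one, eval_X] at h5
  norm_num at h5
  rw [Finset.sum_filter]
  refine Eq.trans ?_ h5
  refine Finset.sum_congr rfl fun z hz => ?_
  by_cases hz2 : c z = c0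
  · simp [hz2]
  · have h6 : c z - c0 ≠ 0 := by have := hle z hz; omega
    rw [if_neg hz2, zero_pow h6, mul_zero]

/-- the form used for Gaussian posets: if the whole window sum is divisible, the signs of the
cheapest unnatural elements of maximal drop cancel -/
theorem FarData.sign_sum {i : ℕ} {R : Finset P} {b : ℕ} {h : P → ℕ} (H : FarData P i R b h)
    {n : ℕ} (hn : ∀ z ∈ bdR R, n ≤ cst i h z) (hZ : (1 + X : ℤ[X]) ^ b ∣ Z P i n)
    {c0 : ℕ} (hc : c0 < b)
    (hle : ∀ z ∈ bdR R, cst i h z = n → c0 + nab i z ≤ (lv P i).card + nab (i + h z) z) :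
    ∑ z ∈ (bdR R).filter (fun z => cst i h z = n ∧
      c0 + nab i z = (lv P i).card + nab (i + h z) z), (-1 : ℤ) ^ (nst i h z) = 0 := by
  classical
  have h1 := dvd_sub hZ (H.dvd_lead hn)
  rw [sub_sub_cancel] at h1
  have h2 := sum_sign_eq_zero _ _ _ b c0 hc (fun z hz => by
    rw [mem_filter] at hz
    have := hle z hz.1 hz.2
    omega) h1
  rw [Finset.filter_filter] at h2
  have h3 : (bdR R).filter (fun z => cst i h z = n ∧
      (lv P i).card + nab (i + h z) z - nab i z = c0) =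
      (bdR R).filter (fun z => cst i h z = n ∧
      c0 + nab i z = (lv P i).card + nab (i + h z) z) := by
    refine Finset.filter_congr fun z _ => ?_
    have := nab_le z i
    omega
  rw [h3] at h2
  simp only [pow_add] at h2
  rw [← Finset.mul_sum] at h2
  exact (mul_eq_zero.mp h2).resolve_left (pow_ne_zero _ (by norm_num))

end Pool.Agent.GaussPoset
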