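import Pool.Agent.W_448fw_h5.FwE
import Pool.Agent.W_448fw_h5.FwF
import Pool.Agent.W_448fy_h63.YE

/-!
From component data to the data of the far window theorem.
-/

namespace Pool.Agent.GaussPoset

set_option linter.unusedSectionVars false

open Polynomial Finset

universe u

variable {P : Type u} [Fintype P] [PartialOrder P] [DecidableEq P]

lemma GradedBelow.lev_covBy (hgr : GradedBelow P) {z x : P} (h : z ⋖ x) : lev z = lev x + 1 := by
  obtain ⟨w, h1, h2, h3⟩ := hgr z x h.1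
  rcases eq_or_lt_of_le h1 with h4 | h4
  · rw [h4]; exact h3
  · exact absurd h2 (h.2 h4)

/-- lower sets which contain `R`, live on levels `> i` and avoid the base cells `B` -/
def Good (i : ℕ) (R : Finset P) (B : P → Prop) (D : Finset P) : Prop :=
  (∀ x y, x ≤ y → y ∈ D → x ∈ D) ∧ R ⊆ D ∧ (∀ x ∈ D, i < lev x) ∧ ∀ x ∈ D, ¬ B x

variable {ι : Type*}

/-- data of the component `k` at window `i`: order `b`, thresholds `θ`, base cells `B` -/
structure CompData (R : Finset P) (cp : P → ι) (k : ι) (i b : ℕ) (θ : P → ℕ) (B : P → Prop) :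
    Prop where
  clean : ∀ D, Good i R B D → ∀ _ : DecidableEq ι,
    (1 + X : Polynomial (PowerSeries ℤ)) ^ b ∣ W {x : {x : P // x ∉ D} // cp (x : P) = k} i
  lev : ∀ x, x ∉ R → cp x = k → 1 ≤ θ x → i < lev x
  base : ∀ x, x ∉ R → cp x = k → 1 ≤ θ x → ∀ y ≤ x, y ∉ R → ¬ B y
  step : ∀ x, x ∉ R → cp x = k → 1 ≤ θ x → ∀ y ≤ x, y ∉ R → ∀ x', x' ∉ R → y ⋖ x' →
    ¬ x' ≤ x → θ x ≤ θ x' + 1
  le : ∀ x, x ∉ R → cp x = k → θ x ≤ Pool.Agent.GaussPoset.lev x - i

open Classical in
/-- the canonical labels -/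
noncomputable def hcan (R : Finset P) (θ : P → ℕ) (z : P) : ℕ :=
  sInf {t | ∃ x, x ∉ R ∧ z ⋖ x ∧ t = θ x + 1}

lemma hcan_spec {R : Finset P} {θ : P → ℕ} {z : P} (hz : z ∈ bdR R) :
    ∃ x, x ∉ R ∧ z ⋖ x ∧ hcan R θ z = θ x + 1 := by
  classical
  obtain ⟨x, hx, hzx⟩ := (mem_filter.mp hz).2
  exact Nat.sInf_mem (⟨θ x + 1, x, hx, hzx, rfl⟩ : {t | ∃ x, x ∉ R ∧ z ⋖ x ∧ t = θ x + 1}.Nonempty)

lemma hcan_le {R : Finset P} {θ : P → ℕ} {z x : P} (hx : x ∉ R) (hzx : z ⋖ x) :
    hcan R θ z ≤ θ x + 1 :=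
  Nat.sInf_le ⟨x, hx, hzx, rfl⟩

/-- the far window theorem applies to components with component data -/
theorem farData_of_comp [Fintype ι] [DecidableEq ι] {i : ℕ} {R : Finset P}
    (hgr : GradedBelow P) (hR : ∀ x y, x ≤ y → y ∈ R → x ∈ R) (hRlev : ∀ x ∈ R, i < lev x)
    (cp : P → ι) (hcp : ∀ x y, x ≤ y → x ∉ R → cp x = cp y) (b : ι → ℕ) (θ : P → ℕ)
    (B : P → Prop) (hBR : ∀ x ∈ R, ¬ B x) (H : ∀ k, CompData R cp k i (b k) θ B) :
    FarData P i R (∑ k, b k) (hcan R θ) := by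
  classical
  let θ' : P → ℕ := fun x => if x ∈ R then 0 else θ x
  have hθ' : ∀ x, x ∉ R → θ' x = θ x := fun x hx => if_neg hx
  have hθ0 : ∀ x, 1 ≤ θ' x → x ∉ R := by
    intro x hx hxR
    have : θ' x = 0 := if_pos hxR
    omega
  refine farData_of_thresholds hgr {D | Good i R B D} θ' (fun D hD => hD.1)
    (fun D hD => hD.2.2.1) ?_ ?_ ?_ ?_ ⟨hR, Subset.refl R, hRlev, hBR⟩ ?_ ?_ ?_
  · intro x hx
    have hxR := hθ0 x hx
    rw [hθ' x hxR] at hx
    exact (H (cp x)).lev x hxR rfl hx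
  · intro D hD n
    rw [ZB_off hD.1 hD.2.2.1]
    refine dvd_Z_of_dvd_W ?_ n
    refine dvd_W_prod (fun x : {x : P // x ∉ D} => cp (x : P)) ?_ i b fun k => ?_
    · intro x y hxy
      exact hcp x y hxy fun h => x.2 (hD.2.1 h)
    · exact (H k).clean D hD inferInstance
  · intro D hD x hx hθx
    have hxR := hθ0 x hθx
    rw [hθ' x hxR] at hθx
    have hlx := (H (cp x)).lev x hxR rfl hθx
    refine ⟨?_, hD.2.1.trans subset_union_left, ?_, ?_⟩
    · intro a c hac hc
      rw [mem_union, mem_dnf] at hc ⊢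
      rcases hc with hc | hc
      · exact Or.inl (hD.1 a c hac hc)
      · exact Or.inr (hac.trans hc)
    · intro a ha
      rw [mem_union, mem_dnf] at ha
      rcases ha with ha | ha
      · exact hD.2.2.1 a ha
      · rcases eq_or_lt_of_le ha with h | h
        · rw [h]; exact hlx
        · have := lev_strictAnti h; omega
    · intro a ha
      rw [mem_union, mem_dnf] at ha
      rcases ha with ha | ha
      · exact hD.2.2.2 a ha
      · by_cases haR : a ∈ R
        · exact hBR a haR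
        · exact (H (cp x)).base x hxR rfl hθx a ha haR
  · intro D hD x hx hθx y hyx hyD x' hyx' hx'x
    have hxR := hθ0 x hθx
    have hyR : y ∉ R := fun h => hyD (hD.2.1 h)
    have hx'R : x' ∉ R := fun h => hyR (hR y x' hyx'.1.le h)
    rw [hθ' x hxR] at hθx ⊢
    rw [hθ' x' hx'R]
    exact (H (cp x)).step x hxR rfl hθx y hyx hyR x' hx'R hyx' hx'x
  · intro z hz
    obtain ⟨x, -, -, hx⟩ := hcan_spec (θ := θ) hz
    omega
  · intro z hz
    obtain ⟨x, hxR, hzx, hx⟩ := hcan_spec (θ := θ) hz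
    have h1 := hgr.lev_covBy hzx
    have h2 := (H (cp x)).le x hxR rfl
    have h3 := hRlev z (mem_filter.mp hz).1
    omega
  · intro z _ x hx hzx
    rw [hθ' x hx]
    exact hcan_le hx hzx

section Light

variable {R : Finset P} {cp : P → ι} {k : ι} {i : ℕ}

/-- levels in a component of the complement of a lower set -/
lemma lev_comp [DecidableEq ι] {D : Finset P} (hD : ∀ x y, x ≤ y → y ∈ D → x ∈ D)
    (hcp : ∀ x y, x ≤ y → x ∉ D → cp x = cp y)
    (x : {x : {x : P // x ∉ D} // cp (x : P) = k}) : lev x = lev ((x : {x : P // x ∉ D}) : P) := by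
  rw [← lev_off hD]
  exact lev_subtype (p := fun x : {x : P // x ∉ D} => cp (x : P) = k)
    (fun a c hac ha => by rw [← hcp a c hac a.2]; exact ha) x

/-- light components: one element on level `i` is enough, thresholds `lev x - i` -/
theorem compData_light (hgr : GradedBelow P) (hcp : ∀ x y, x ≤ y → x ∉ R → cp x = cp y)
    {θ : P → ℕ} {B : P → Prop}
    (hB : ∀ x, x ∉ R → cp x = k → ¬ B x) (hθ : ∀ x, x ∉ R → cp x = k → θ x = lev x - i)
    (hex : ∃ x, x ∉ R ∧ cp x = k ∧ lev x = i) : CompData R cp k i 1 θ B where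
  clean := by
    intro D hD _
    rw [pow_one]
    obtain ⟨x, hx, hk, hl⟩ := hex
    have hxD : x ∉ D := fun h => by have := hD.2.2.1 x h; omega
    refine dvd_W_one ⟨⟨⟨x, hxD⟩, hk⟩, ?_⟩
    rw [lev_comp hD.1 (fun a c hac ha => hcp a c hac (fun h => ha (hD.2.1 h)))]
    exact hl.ge
  lev := by
    intro x hx hk h1
    rw [hθ x hx hk] at h1
    omega
  base := by
    intro x hx hk _ y hyx hy
    exact hB y hy (by rw [hcp y x hyx hy]; exact hk)
  step := by
    intro x hx hk _ y hyx hy x' hx'R hyx' _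
    have hx'k : cp x' = k := by rw [← hcp y x' hyx'.1.le hy, hcp y x hyx hy]; exact hk
    have h1 := hgr.lev_covBy hyx'
    have h2 : lev x ≤ lev y := by
      rcases eq_or_lt_of_le hyx with h | h
      · rw [h]
      · exact (lev_strictAnti h).le
    rw [hθ x hx hk, hθ x' hx'R hx'k]
    omega
  le := by
    intro x hx hk
    rw [hθ x hx hk]

end Light

end Pool.Agent.GaussPoset
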