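import Pool.Agent.W_448fw_h5.FwE

/-!
Charts of natural elements and maximal charts.
-/

namespace Pool.Agent.GaussPoset

set_option linter.unusedSectionVars false

open Finset

universe u

variable {P : Type u} [Fintype P] [PartialOrder P] [DecidableEq P]

/-- `p'` is one of the (at most two) predecessors of the cell `p` -/
def Prd (p p' : ℕ × ℕ) : Prop :=
  (p.1 = p'.1 + 1 ∧ p.2 = p'.2) ∨ (p.1 = p'.1 ∧ p.2 = p'.2 + 1)

lemma Prd.le {p p' : ℕ × ℕ} (h : Prd p p') : p' ≤ p := by
  rcases h with h | h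
  · exact ⟨by omega, by omega⟩
  · exact ⟨by omega, by omega⟩

lemma Prd.ne {p p' : ℕ × ℕ} (h : Prd p p') : p' ≠ p := by
  rintro rfl
  rcases h with h | h <;> omega

/-- the set of allowed cells is connected by predecessors -/
def Conn (S : ℕ × ℕ → Prop) : Prop :=
  ∀ c p, S c → S p → c ≤ p → c ≠ p → ∃ p', S p' ∧ c ≤ p' ∧ Prd p p'

lemma conn_true : Conn (fun _ => True) := by
  rintro ⟨a, b⟩ ⟨s, c⟩ - - hle hne
  have h1 : a ≤ s := hle.1
  have h2 : b ≤ c := hle.2
  by_cases h3 : a < s
  · exact ⟨(s - 1, c), trivial, ⟨by simp only; omega, h2⟩, Or.inl ⟨by simp only; omega, rfl⟩⟩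
  · have h4 : b < c := by
      rcases Nat.lt_or_ge b c with h | h
      · exact h
      · exact absurd (Prod.ext (by simp only; omega) (by simp only; omega)) hne
    exact ⟨(s, c - 1), trivial, ⟨h1, by simp only; omega⟩, Or.inr ⟨rfl, by simp only; omega⟩⟩

lemma conn_shift : Conn (fun c => c.1 ≤ c.2) := by
  rintro ⟨a, b⟩ ⟨s, c⟩ hS hS' hle hne
  simp only at hS hS'
  have h1 : a ≤ s := hle.1
  have h2 : b ≤ c := hle.2
  by_cases h3 : a < s
  · exact ⟨(s - 1, c), by simp only; omega, ⟨by simp only; omega, h2⟩,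
      Or.inl ⟨by simp only; omega, rfl⟩⟩
  · have h4 : b < c := by
      rcases Nat.lt_or_ge b c with h | h
      · exact h
      · exact absurd (Prod.ext (by simp only; omega) (by simp only; omega)) hne
    exact ⟨(s, c - 1), by simp only; omega, ⟨h1, by simp only; omega⟩,
      Or.inr ⟨rfl, by simp only; omega⟩⟩

/-- a chart: an up-closed set `N` below the top `t` with coordinates in the cells `S` -/
structure Chart (t : P) (S : ℕ × ℕ → Prop) (N : Finset P) (co : P → ℕ × ℕ) : Prop where
  up : ∀ x ∈ N, ∀ y, x ≤ y → y ∈ N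
  le_t : ∀ x ∈ N, x ≤ t
  inj : ∀ x ∈ N, ∀ y ∈ N, co x = co y → x = y
  le_iff : ∀ x ∈ N, ∀ y ∈ N, (x ≤ y ↔ co y ≤ co x)
  mem : ∀ x ∈ N, S (co x)
  low : ∀ x ∈ N, ∀ c ≤ co x, S c → ∃ y ∈ N, co y = c
  lev : ∀ x ∈ N, Pool.Agent.GaussPoset.lev x = (co x).1 + (co x).2

section Ext

variable {t : P} {S : ℕ × ℕ → Prop} {N : Finset P} {co : P → ℕ × ℕ}

lemma exists_covBy_le {z y : P} (h : z < y) : ∃ w, z ⋖ w ∧ w ≤ y := by
  classical
  let T : Finset P := univ.filter (fun w => z < w ∧ w ≤ y)
  obtain ⟨w, hw⟩ := T.exists_minimal ⟨y, by simp [T, h]⟩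
  have hw1 : z < w ∧ w ≤ y := by simpa [T] using hw.1
  refine ⟨w, ⟨hw1.1, fun v hv1 hv2 => ?_⟩, hw1.2⟩
  have hvT : v ∈ T := by simp [T, hv1, hv2.le.trans hw1.2]
  exact absurd (hw.2 hvT hv2.le) (not_le_of_gt hv2)

/-- adding an element in the position of a free cell all of whose predecessors are occupied -/
theorem Chart.addCell (hS : Conn S) (hgr : GradedBelow P) (H : Chart t S N co) {z : P}
    {p : ℕ × ℕ} (hz : z ∉ N) (hp : S p) (hfree : ∀ y ∈ N, co y ≠ p)
    (huc : ∀ y, z ⋖ y ↔ y ∈ N ∧ Prd p (co y)) (hall : ∀ p', S p' → Prd p p' → ∃ y ∈ N, co y = p')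
    (hex : ∃ y, z ⋖ y) : Chart t S (insert z N) (Function.update co z p) := by
  have hne : ∀ y ∈ N, y ≠ z := fun y hy h => hz (h ▸ hy)
  have hco : ∀ y ∈ N, Function.update co z p y = co y := fun y hy =>
    Function.update_of_ne (hne y hy) _ _
  have hcz : Function.update co z p z = p := Function.update_self _ _ _
  have hup : ∀ y, z < y → y ∈ N ∧ co y ≤ p := by
    intro y hy
    obtain ⟨w, hw, hwy⟩ := exists_covBy_le hy
    have h1 := (huc w).mp hw
    have h2 := H.up w h1.1 y hwy
    exact ⟨h2, ((H.le_iff w h1.1 y h2).mp hwy).trans h1.2.le⟩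
  have hlow : ∀ c, c ≤ p → S c → c ≠ p → ∃ y ∈ N, z < y ∧ co y = c := by
    intro c hc hSc hcp
    obtain ⟨p', hp', hcp', hpr⟩ := hS c p hSc hp hc hcp
    obtain ⟨y', hy', hcy'⟩ := hall p' hp' hpr
    have hzy' : z ⋖ y' := (huc y').mpr ⟨hy', by rw [hcy']; exact hpr⟩
    obtain ⟨y, hy, hcy⟩ := H.low y' hy' c (by rw [hcy']; exact hcp') hSc
    have h1 : y' ≤ y := (H.le_iff y' hy' y hy).mpr (by rw [hcy, hcy']; exact hcp')
    exact ⟨y, hy, hzy'.1.trans_le h1, hcy⟩
  constructor
  · intro x hx y hxy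
    rw [mem_insert] at hx ⊢
    rcases hx with rfl | hx
    · rcases eq_or_lt_of_le hxy with h | h
      · exact Or.inl h.symm
      · exact Or.inr (hup y h).1
    · exact Or.inr (H.up x hx y hxy)
  · intro x hx
    rw [mem_insert] at hx
    rcases hx with rfl | hx
    · obtain ⟨y, hy⟩ := hex
      exact hy.le.trans (H.le_t y ((huc y).mp hy).1)
    · exact H.le_t x hx
  · intro x hx y hy h
    rw [mem_insert] at hx hy
    rcases hx with rfl | hx <;> rcases hy with rfl | hy
    · rfl
    · rw [hcz, hco y hy] at h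
      exact absurd h.symm (hfree y hy)
    · rw [hcz, hco x hx] at h
      exact absurd h (hfree x hx)
    · rw [hco x hx, hco y hy] at h
      exact H.inj x hx y hy h
  · intro x hx y hy
    rw [mem_insert] at hx hy
    rcases hx with rfl | hx <;> rcases hy with rfl | hy
    · simp
    · rw [hcz, hco y hy]
      constructor
      · intro h
        exact (hup y (lt_of_le_of_ne h (hne y hy).symm)).2
      · intro h
        obtain ⟨y', hy', hlt, hcy'⟩ := hlow (co y) h (H.mem y hy) (hfree y hy)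
        rw [← H.inj y' hy' y hy hcy']
        exact hlt.le
    · rw [hcz, hco x hx]
      constructor
      · intro h
        exact absurd (H.up x hx y h) hz
      · intro h
        obtain ⟨y', hy', hcy'⟩ := H.low x hx p h hp
        exact absurd hcy' (hfree y' hy')
    · rw [hco x hx, hco y hy]
      exact H.le_iff x hx y hy
  · intro x hx
    rw [mem_insert] at hx
    rcases hx with rfl | hx
    · rw [hcz]; exact hp
    · rw [hco x hx]; exact H.mem x hx
  · intro x hx c hc hSc
    rw [mem_insert] at hx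
    rcases hx with rfl | hx
    · rw [hcz] at hc
      by_cases hcp : c = p
      · exact ⟨x, mem_insert_self _ _, by rw [hcz, hcp]⟩
      · obtain ⟨y, hy, -, hcy⟩ := hlow c hc hSc hcp
        exact ⟨y, mem_insert_of_mem hy, by rw [hco y hy, hcy]⟩
    · rw [hco x hx] at hc
      obtain ⟨y, hy, hcy⟩ := H.low x hx c hc hSc
      exact ⟨y, mem_insert_of_mem hy, by rw [hco y hy, hcy]⟩
  · intro x hx
    rw [mem_insert] at hx
    rcases hx with rfl | hx
    · rw [hcz]
      obtain ⟨y, hy⟩ := hex
      have h1 := (huc y).mp hy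
      have h2 : Pool.Agent.GaussPoset.lev x = Pool.Agent.GaussPoset.lev y + 1 := by
        obtain ⟨w, h3, h4, h5⟩ := hgr x y hy.1
        rcases eq_or_lt_of_le h3 with h6 | h6
        · rw [h6]; exact h5
        · exact absurd h4 (hy.2 h6)
      have h3 := H.lev y h1.1
      rcases h1.2 with h4 | h4 <;> omega
    · rw [hco x hx]; exact H.lev x hx

/-- `N` cannot be extended -/
def MaxChart (S : ℕ × ℕ → Prop) (N : Finset P) (co : P → ℕ × ℕ) : Prop :=
  ∀ z, z ∉ N → ∀ p, S p → (∀ y ∈ N, co y ≠ p) → (∃ y, z ⋖ y) →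
    (∀ p', S p' → Prd p p' → ∃ y ∈ N, co y = p') → ¬ ∀ y, z ⋖ y ↔ y ∈ N ∧ Prd p (co y)

/-- every chart extends to a maximal chart -/
theorem Chart.exists_max (hS : Conn S) (hgr : GradedBelow P) (H : Chart t S N co) :
    ∃ N' co', Chart t S N' co' ∧ N ⊆ N' ∧ (∀ x ∈ N, co' x = co x) ∧ MaxChart S N' co' := by
  classical
  have key : ∀ m : ℕ, ∀ (N : Finset P) (co : P → ℕ × ℕ), Chart t S N co → (Nᶜ).card = m →
      ∃ N' co', Chart t S N' co' ∧ N ⊆ N' ∧ (∀ x ∈ N, co' x = co x) ∧ MaxChart S N' co' := by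
    intro m
    induction m with
    | zero =>
      intro N co H hm
      refine ⟨N, co, H, Subset.refl N, fun _ _ => rfl, ?_⟩
      intro z hz
      rw [Finset.card_eq_zero, Finset.compl_eq_empty_iff] at hm
      exact absurd (by rw [hm]; exact mem_univ z) hz
    | succ m ih =>
      intro N co H hm
      by_cases hmax : MaxChart S N co
      · exact ⟨N, co, H, Subset.refl N, fun _ _ => rfl, hmax⟩
      · unfold MaxChart at hmax
        push Not at hmax
        obtain ⟨z, hz, p, hp, hfree, hex, hall, huc⟩ := hmax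
        have H' := H.addCell hS hgr hz hp hfree huc hall hex
        have hcard : ((insert z N)ᶜ).card = m := by
          have h1 : ((insert z N)ᶜ).card = Fintype.card P - (insert z N).card :=
            Finset.card_compl _
          have h2 : (Nᶜ).card = Fintype.card P - N.card := Finset.card_compl _
          rw [Finset.card_insert_of_notMem hz] at h1
          omega
        obtain ⟨N', co', h1, h2, h3, h4⟩ := ih _ _ H' hcard
        refine ⟨N', co', h1, (subset_insert z N).trans h2, ?_, h4⟩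
        intro x hx
        rw [h3 x (mem_insert_of_mem hx)]
        exact Function.update_of_ne (fun h : x = z => hz (h ▸ hx)) _ _
  exact key _ N co H rfl

end Ext

end Pool.Agent.GaussPoset
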