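import Pool.Agent.W_448fw_h5.FwN
import Pool.Agent.W_448fw_h5.FwH
import Pool.Agent.W_448cp_h96.CC

/-!
Systems of natural sets, charts of the components.
-/

namespace Pool.Agent.GaussPoset

set_option linter.unusedSectionVars false

open Finset

universe u

variable {P : Type u} [Fintype P] [PartialOrder P] [DecidableEq P]

/-- the maximal elements -/
abbrev Tops (P : Type u) [Fintype P] [PartialOrder P] := {t : P // lev t = 0}

noncomputable instance : DecidableEq (Tops P) := Classical.decEq _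

noncomputable instance : Fintype (Tops P) := by
  classical exact inferInstanceAs (Fintype {t : P // lev t = 0})

/-- a maximal element above `x` -/
noncomputable def topOf (x : P) : Tops P :=
  ⟨(Cp.exists_top x).choose, (Cp.exists_top x).choose_spec.1⟩

lemma le_topOf (x : P) : x ≤ (topOf x : P) := (Cp.exists_top x).choose_spec.2

/-- a system of natural sets -/
structure NatSys (N : Tops P → Finset P) : Prop where
  up : ∀ t, ∀ x ∈ N t, ∀ y, x ≤ y → y ∈ N t
  le_t : ∀ t, ∀ x ∈ N t, x ≤ (t : P)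

open Classical in
/-- the unnatural elements -/
noncomputable def unnat (N : Tops P → Finset P) : Finset P := univ.filter (fun x => ∀ t, x ∉ N t)

section Sys

variable {N : Tops P → Finset P}

lemma mem_unnat {x : P} : x ∈ unnat N ↔ ∀ t, x ∉ N t := by
  classical
  unfold unnat; simp

lemma NatSys.top_eq (H : NatSys N) {t : Tops P} {x : P} (hx : x ∈ N t) {s : P}
    (hs : lev s = 0) (hxs : x ≤ s) : s = t := by
  have h1 := H.le_t t s (H.up t x hx s hxs)
  by_contra hne
  have h2 := lev_strictAnti (lt_of_le_of_ne h1 hne)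
  omega

lemma NatSys.topOf_eq (H : NatSys N) {t : Tops P} {x : P} (hx : x ∈ N t) : topOf x = t :=
  Subtype.ext (H.top_eq hx (topOf x).2 (le_topOf x))

lemma NatSys.mem_iff (H : NatSys N) {t : Tops P} {x : P} :
    x ∈ N t ↔ x ∉ unnat N ∧ topOf x = t := by
  constructor
  · intro hx
    exact ⟨fun h => mem_unnat.mp h t hx, H.topOf_eq hx⟩
  · rintro ⟨h1, h2⟩
    rw [mem_unnat] at h1
    push Not at h1
    obtain ⟨s, hs⟩ := h1
    rw [← h2, H.topOf_eq hs]
    exact hs

lemma NatSys.lower (H : NatSys N) : ∀ x y, x ≤ y → y ∈ unnat N → x ∈ unnat N := by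
  intro x y hxy hy
  rw [mem_unnat] at hy ⊢
  intro t hx
  exact hy t (H.up t x hx y hxy)

lemma NatSys.cp (H : NatSys N) : ∀ x y, x ≤ y → x ∉ unnat N → topOf x = topOf y := by
  intro x y hxy hx
  have h1 : x ∈ N (topOf x) := H.mem_iff.mpr ⟨hx, rfl⟩
  exact (H.topOf_eq (H.up _ x h1 y hxy)).symm

/-- a chart gives coordinates -/
theorem NatSys.coord (H : NatSys N) {t : Tops P} {S : ℕ × ℕ → Prop} {co : P → ℕ × ℕ}
    (C : Chart (t : P) S (N t) co) : Coord (unnat N) topOf t S co where
  inj := fun x y hx hy hkx hky h =>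
    C.inj x (H.mem_iff.mpr ⟨hx, hkx⟩) y (H.mem_iff.mpr ⟨hy, hky⟩) h
  le_iff := fun x y hx hy hkx hky =>
    C.le_iff x (H.mem_iff.mpr ⟨hx, hkx⟩) y (H.mem_iff.mpr ⟨hy, hky⟩)
  mem := fun x hx hk => C.mem x (H.mem_iff.mpr ⟨hx, hk⟩)
  low := fun x hx hk c hc hS => by
    obtain ⟨y, hy, hcy⟩ := C.low x (H.mem_iff.mpr ⟨hx, hk⟩) c hc hS
    exact ⟨y, (H.mem_iff.mp hy).1, (H.mem_iff.mp hy).2, hcy⟩
  lev := fun x hx hk => C.lev x (H.mem_iff.mpr ⟨hx, hk⟩)

end Sys

open Classical in
/-- the elements below the top `t` only -/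
noncomputable def onlyB (t : Tops P) : Finset P :=
  univ.filter (fun x => ∀ s : P, lev s = 0 → x ≤ s → s = t)

lemma mem_onlyB {t : Tops P} {x : P} : x ∈ onlyB t ↔ ∀ s : P, lev s = 0 → x ≤ s → s = t := by
  classical
  unfold onlyB; simp

lemma onlyB_up {t : Tops P} {x y : P} (hx : x ∈ onlyB t) (hxy : x ≤ y) : y ∈ onlyB t := by
  rw [mem_onlyB] at hx ⊢
  exact fun s hs hys => hx s hs (hxy.trans hys)

lemma onlyB_le {t : Tops P} {x : P} (hx : x ∈ onlyB t) : x ≤ (t : P) := by
  rw [mem_onlyB] at hx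
  have := hx (topOf x) (topOf x).2 (le_topOf x)
  rw [← this]; exact le_topOf x

section FromComp

open Cp

variable {r j : ℕ} {t : P} {lo hi : ℕ → ℕ} {e : ℕ → ℕ → P}

open Classical in
/-- the coordinate `s` of an element of a component -/
noncomputable def scoord (lo hi : ℕ → ℕ) (e : ℕ → ℕ → P) (z : P) : ℕ :=
  if h : ∃ s, lo (lev z) ≤ s ∧ s ≤ hi (lev z) ∧ e (lev z) s = z then h.choose else 0

/-- the coordinates of an element of a component -/
noncomputable def ccoord (lo hi : ℕ → ℕ) (e : ℕ → ℕ → P) (z : P) : ℕ × ℕ :=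
  (scoord lo hi e z, lev z - scoord lo hi e z)

lemma scoord_spec (C : Comp j t lo hi e) {z : P} (hz : z ≤ t) (hl : lev z ≤ j) :
    lo (lev z) ≤ scoord lo hi e z ∧ scoord lo hi e z ≤ hi (lev z) ∧
      e (lev z) (scoord lo hi e z) = z := by
  have h := C.surj z hz hl
  unfold scoord
  rw [dif_pos h]
  exact h.choose_spec

lemma scoord_e (C : Comp j t lo hi e) {k s : ℕ} (hk : k ≤ j) (h1 : lo k ≤ s) (h2 : s ≤ hi k) :
    scoord lo hi e (e k s) = s := by
  have hlev := C.lev_e k s hk h1 h2
  obtain ⟨h3, h4, h5⟩ := scoord_spec C (C.le_t k s hk h1 h2) (by rw [hlev]; exact hk)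
  rw [hlev] at h3 h4 h5
  exact C.inj k _ s hk h3 h4 h1 h2 h5

open Classical in
/-- the elements of level at most `j` below `t` -/
noncomputable def lowPart (j : ℕ) (t : P) : Finset P := univ.filter (fun z => z ≤ t ∧ lev z ≤ j)

lemma mem_lowPart {z : P} : z ∈ lowPart j t ↔ z ≤ t ∧ lev z ≤ j := by
  classical
  unfold lowPart; simp

/-- the strip of a component is a chart if its ends fit to the shape `S` -/
theorem chart_of_comp (C : Comp j t lo hi e) (H : Gr P r) (hg : ∀ l, l < j → Win.Good P l)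
    (ht : lev t = 0) {S : ℕ × ℕ → Prop} (hconn : Conn S)
    (hS : ∀ k s, k ≤ j → lo k ≤ s → s ≤ hi k → S (s, k - s))
    (hlow1 : ∀ k s, k < j → lo (k + 1) ≤ s → s ≤ hi (k + 1) → 1 ≤ s → S (s - 1, k + 1 - s) →
      lo k ≤ s - 1)
    (hlow2 : ∀ k s, k < j → lo (k + 1) ≤ s → s ≤ hi (k + 1) → s ≤ k → S (s, k - s) → s ≤ hi k) :
    Chart t S (lowPart j t) (ccoord lo hi e) := by
  have hle : ∀ x, x ∈ lowPart j t → scoord lo hi e x ≤ lev x := by
    intro x hx
    rw [mem_lowPart] at hx
    have h1 := scoord_spec C hx.1 hx.2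
    exact h1.2.1.trans (C.hi_le hx.2)
  have hcov : ∀ x ∈ lowPart j t, ∀ p', S p' → Prd (ccoord lo hi e x) p' →
      ∃ y ∈ lowPart j t, x ≤ y ∧ ccoord lo hi e y = p' := by
    intro x hx p' hp' hpr
    have hxs := hle x hx
    rw [mem_lowPart] at hx
    obtain ⟨h1, h2, h3⟩ := scoord_spec C hx.1 hx.2
    obtain ⟨a, b⟩ := p'
    unfold ccoord Prd at hpr
    simp only at hpr
    have hx1 : 1 ≤ lev x := by omega
    obtain ⟨k, hk⟩ : ∃ k, lev x = k + 1 := ⟨lev x - 1, by omega⟩
    rw [hk] at h1 h2 h3 hxs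
    have hkj : k < j := by omega
    have h0 := C.lo_le k (by omega)
    have e1 := C.lo_step k hkj
    have e2 := C.hi_step k hkj
    have ha : lo k ≤ a ∧ a ≤ hi k ∧ (a = scoord lo hi e x ∨ a + 1 = scoord lo hi e x) ∧
        b = k - a ∧ a ≤ k := by
      rcases hpr with h | h
      · have h4 := hlow1 k (scoord lo hi e x) hkj h1 h2 (by omega) (by
          have : (scoord lo hi e x - 1, k + 1 - scoord lo hi e x) = (a, b) :=
            Prod.ext (by simp only; omega) (by simp only; omega)
          rw [this]; exact hp')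
        exact ⟨by omega, by omega, Or.inr (by omega), by omega, by omega⟩
      · have h4 := hlow2 k (scoord lo hi e x) hkj h1 h2 (by omega) (by
          have : (scoord lo hi e x, k - scoord lo hi e x) = (a, b) :=
            Prod.ext (by simp only; omega) (by simp only; omega)
          rw [this]; exact hp')
        exact ⟨by omega, by omega, Or.inl (by omega), by omega, by omega⟩
    obtain ⟨ha1, ha2, ha3, ha4, ha5⟩ := ha
    refine ⟨e k a, ?_, ?_, ?_⟩
    · rw [mem_lowPart]
      exact ⟨C.le_t k a (by omega) ha1 ha2, by rw [C.lev_e k a (by omega) ha1 ha2]; omega⟩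
    · rw [← h3]
      exact ((C.cov k _ a hkj h1 h2 ha1 ha2).mpr ha3).le
    · unfold ccoord
      rw [scoord_e C (by omega) ha1 ha2, C.lev_e k a (by omega) ha1 ha2]
      exact Prod.ext rfl ha4.symm
  constructor
  · intro x hx y hxy
    rw [mem_lowPart] at hx ⊢
    refine ⟨Cp.up_le H hg ht hx.1 hx.2 hxy, ?_⟩
    rcases eq_or_lt_of_le hxy with h | h
    · rw [← h]; exact hx.2
    · have := lev_strictAnti h; omega
  · intro x hx
    exact (mem_lowPart.mp hx).1
  · intro x hx y hy h
    have hxl := hle x hx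
    have hyl := hle y hy
    rw [mem_lowPart] at hx hy
    obtain ⟨-, -, h3⟩ := scoord_spec C hx.1 hx.2
    obtain ⟨-, -, h6⟩ := scoord_spec C hy.1 hy.2
    unfold ccoord at h
    simp only [Prod.mk.injEq] at h
    have h7 : lev x = lev y := by omega
    rw [← h3, ← h6, h.1, h7]
  · intro x hx y hy
    have hxl := hle x hx
    have hyl := hle y hy
    rw [mem_lowPart] at hx hy
    obtain ⟨h1, h2, h3⟩ := scoord_spec C hx.1 hx.2
    obtain ⟨h4, h5, h6⟩ := scoord_spec C hy.1 hy.2
    have hcy : ccoord lo hi e y ≤ ccoord lo hi e x ↔ (scoord lo hi e y ≤ scoord lo hi e x ∧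
        lev y - scoord lo hi e y ≤ lev x - scoord lo hi e x) := Iff.rfl
    rw [hcy]
    by_cases hl : lev y ≤ lev x
    · obtain ⟨d, hd⟩ : ∃ d, lev x = lev y + d := ⟨lev x - lev y, by omega⟩
      rw [hd] at h1 h2 h3 hxl
      have h7 := C.le_iff H hg ht h4 h5 (d := d) (by omega) h1 h2
      rw [h3, h6] at h7
      rw [h7]
      omega
    · constructor
      · intro h
        rcases eq_or_lt_of_le h with h8 | h8
        · rw [h8] at hl; omega
        · have := lev_strictAnti h8; omega
      · intro h; omega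
  · intro x hx
    rw [mem_lowPart] at hx
    obtain ⟨h1, h2, -⟩ := scoord_spec C hx.1 hx.2
    exact hS _ _ hx.2 h1 h2
  · -- induction along predecessors
    have key : ∀ m : ℕ, ∀ x ∈ lowPart j t, ∀ c ≤ ccoord lo hi e x, S c →
        (ccoord lo hi e x).1 + (ccoord lo hi e x).2 = m + (c.1 + c.2) →
        ∃ y ∈ lowPart j t, ccoord lo hi e y = c := by
      intro m
      induction m with
      | zero =>
        intro x hx c hc _ hm
        refine ⟨x, hx, ?_⟩
        have h1 : c.1 ≤ (ccoord lo hi e x).1 := hc.1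
        have h2 : c.2 ≤ (ccoord lo hi e x).2 := hc.2
        exact Prod.ext (by omega) (by omega)
      | succ m ih =>
        intro x hx c hc hSc hm
        have hne : c ≠ ccoord lo hi e x := by
          intro h
          rw [← h] at hm
          omega
        have hSx : S (ccoord lo hi e x) := by
          have hx' := mem_lowPart.mp hx
          obtain ⟨h1, h2, -⟩ := scoord_spec C hx'.1 hx'.2
          exact hS _ _ hx'.2 h1 h2
        obtain ⟨p', hp', hcp', hpr⟩ := hconn c _ hSc hSx hc hne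
        obtain ⟨y, hy, -, hcy⟩ := hcov x hx p' hp' hpr
        refine ih y hy c (by rw [hcy]; exact hcp') hSc ?_
        rw [hcy]
        rcases hpr with h | h <;> omega
    intro x hx c hc hSc
    have h1 : c.1 ≤ (ccoord lo hi e x).1 := hc.1
    have h2 : c.2 ≤ (ccoord lo hi e x).2 := hc.2
    exact key ((ccoord lo hi e x).1 + (ccoord lo hi e x).2 - (c.1 + c.2)) x hx c hc hSc (by omega)
  · intro x hx
    have := hle x hx
    unfold ccoord
    simp only
    omega

end FromComp

end Pool.Agent.GaussPoset
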