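import Pool.Agent.W_448fw_h5.FwP

/-!
Junk below the straight ends of a chart.
-/

namespace Pool.Agent.GaussPoset

set_option linter.unusedSectionVars false

open Polynomial Finset

universe u

variable {P : Type u} [Fintype P] [PartialOrder P] [DecidableEq P]

open Classical in
/-- the elements hung below `x1` -/
noncomputable def jset (x1 : P) : Finset P :=
  univ.filter (fun z => z < x1 ∧ ∀ y, z ≤ y → y ≤ x1 ∨ x1 ≤ y)

lemma mem_jset {x1 z : P} : z ∈ jset x1 ↔ z < x1 ∧ ∀ y, z ≤ y → y ≤ x1 ∨ x1 ≤ y := by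
  classical
  unfold jset; simp

lemma jset_anc {x1 z y : P} (hz : z ∈ jset x1) (hzy : z ≤ y) : y ∈ jset x1 ∨ x1 ≤ y := by
  rw [mem_jset] at hz
  rcases hz.2 y hzy with h | h
  · rcases eq_or_lt_of_le h with h' | h'
    · exact Or.inr h'.ge
    · exact Or.inl (mem_jset.mpr ⟨h', fun w hw => hz.2 w (hzy.trans hw)⟩)
  · exact Or.inr h

/-- `x1` is the first element of row 0 beyond row 1 -/
structure IsEnd (S : ℕ × ℕ → Prop) (N : Finset P) (co : P → ℕ × ℕ) (x1 : P) : Prop where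
  mem : x1 ∈ N
  fst : (co x1).1 = 0
  lt : ∀ y ∈ N, 1 ≤ (co y).1 → (co y).2 < (co x1).2
  ex : ∀ c < (co x1).2, S (1, c) → ∃ y ∈ N, co y = (1, c)

open Classical in
/-- the junk below the end of row 0 -/
noncomputable def junk (S : ℕ × ℕ → Prop) (N : Finset P) (co : P → ℕ × ℕ) : Finset P :=
  univ.filter (fun z => ∃ x1, IsEnd S N co x1 ∧ z ∈ jset x1)

lemma mem_junk {S : ℕ × ℕ → Prop} {N : Finset P} {co : P → ℕ × ℕ} {z : P} :
    z ∈ junk S N co ↔ ∃ x1, IsEnd S N co x1 ∧ z ∈ jset x1 := by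
  classical
  unfold junk; simp

/-- the transposed coordinates -/
def swp (co : P → ℕ × ℕ) (x : P) : ℕ × ℕ := ((co x).2, (co x).1)

@[simp] lemma swp_fst (co : P → ℕ × ℕ) (x : P) : (swp co x).1 = (co x).2 := rfl
@[simp] lemma swp_snd (co : P → ℕ × ℕ) (x : P) : (swp co x).2 = (co x).1 := rfl
lemma swp_swp (co : P → ℕ × ℕ) : swp (swp co) = co := rfl

theorem Chart.swap {t : P} {N : Finset P} {co : P → ℕ × ℕ} (C : Chart t (fun _ => True) N co) :
    Chart t (fun _ => True) N (swp co) where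
  up := C.up
  le_t := C.le_t
  inj := by
    intro x hx y hy h
    unfold swp at h
    simp only [Prod.mk.injEq] at h
    exact C.inj x hx y hy (Prod.ext h.2 h.1)
  le_iff := by
    intro x hx y hy
    rw [C.le_iff x hx y hy]
    exact ⟨fun h => ⟨h.2, h.1⟩, fun h => ⟨h.2, h.1⟩⟩
  mem := fun _ _ => trivial
  low := by
    intro x hx c hc _
    obtain ⟨y, hy, hcy⟩ := C.low x hx (c.2, c.1) ⟨hc.2, hc.1⟩ trivial
    exact ⟨y, hy, by unfold swp; rw [hcy]⟩
  lev := by
    intro x hx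
    rw [C.lev x hx]
    exact Nat.add_comm _ _

theorem MaxChart.swap {N : Finset P} {co : P → ℕ × ℕ} (C : MaxChart (fun _ => True) N co) :
    MaxChart (fun _ => True) N (swp co) := by
  intro z hz p _ hfree hex hall huc
  refine C z hz (p.2, p.1) trivial ?_ hex ?_ ?_
  · intro y hy h
    refine hfree y hy ?_
    unfold swp
    rw [h]
  · intro p' _ hp'
    obtain ⟨y, hy, hcy⟩ := hall (p'.2, p'.1) trivial (by
      rcases hp' with h | h
      · exact Or.inr ⟨h.2, h.1⟩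
      · exact Or.inl ⟨h.2, h.1⟩)
    refine ⟨y, hy, ?_⟩
    have h1 := congrArg Prod.fst hcy
    have h2 := congrArg Prod.snd hcy
    simp only [swp_fst, swp_snd] at h1 h2
    exact Prod.ext h2 h1
  · intro y
    rw [huc y]
    refine and_congr_right fun _ => ?_
    unfold Prd swp
    simp only
    constructor
    · rintro (h | h)
      · exact Or.inr ⟨h.2, h.1⟩
      · exact Or.inl ⟨h.2, h.1⟩
    · rintro (h | h)
      · exact Or.inr ⟨h.2, h.1⟩
      · exact Or.inl ⟨h.2, h.1⟩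

section Ends

variable {t : P} {S : ℕ × ℕ → Prop} {N : Finset P} {co : P → ℕ × ℕ}

lemma IsEnd.unique (C : Chart t S N co) (hS1 : ∀ c, 1 ≤ c → S (1, c))
    (h1 : ∃ y ∈ N, 1 ≤ (co y).1) {x1 x1' : P} (H : IsEnd S N co x1) (H' : IsEnd S N co x1') :
    x1 = x1' := by
  obtain ⟨y, hy, hcy⟩ := h1
  have e1 := H.lt y hy hcy
  have e2 := H'.lt y hy hcy
  have key : ∀ {a b : P}, IsEnd S N co a → IsEnd S N co b → (co b).2 ≤ (co a).2 := by
    intro a b Ha Hb
    by_contra hcon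
    have ea := Ha.lt y hy hcy
    obtain ⟨w, hw, hcw⟩ := Hb.ex (co a).2 (not_le.mp hcon) (hS1 _ (by omega))
    have := Ha.lt w hw (by rw [hcw])
    rw [hcw] at this
    simp only at this
    omega
  exact C.inj _ H.mem _ H'.mem (Prod.ext (by rw [H.fst, H'.fst])
    (le_antisymm (key H' H) (key H H')))

/-- natural elements below the end -/
lemma IsEnd.tail (C : Chart t S N co) {x1 x : P} (H : IsEnd S N co x1) (hx : x ∈ N)
    (hlt : x < x1) : (co x).1 = 0 ∧ x ∈ jset x1 := by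
  have h1 := (C.le_iff x hx x1 H.mem).mp hlt.le
  have h2 : (co x1).2 ≤ (co x).2 := h1.2
  have h3 : (co x).1 = 0 := by
    by_contra hcon
    have := H.lt x hx (by omega)
    omega
  refine ⟨h3, mem_jset.mpr ⟨hlt, fun y hxy => ?_⟩⟩
  have hy := C.up x hx y hxy
  have h4 := (C.le_iff x hx y hy).mp hxy
  have h5 : (co y).1 ≤ (co x).1 := h4.1
  rcases le_total (co x1).2 (co y).2 with h6 | h6
  · left
    rw [C.le_iff y hy x1 H.mem]
    exact ⟨by rw [H.fst]; exact Nat.zero_le _, h6⟩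
  · right
    rw [C.le_iff x1 H.mem y hy]
    exact ⟨by rw [H.fst]; omega, h6⟩

/-- existence of the end -/
lemma exists_isEnd (C : Chart t S N co) (hS0 : ∀ c, S (0, c)) {x : P} (hx : x ∈ N)
    (hx0 : (co x).1 = 0) (hS : S (1, (co x).2)) (hno : ∀ y ∈ N, co y ≠ (1, (co x).2)) :
    ∃ x1, IsEnd S N co x1 ∧ x ≤ x1 := by
  classical
  have hex : ∃ c, S (1, c) ∧ ∀ y ∈ N, co y ≠ (1, c) := ⟨(co x).2, hS, hno⟩
  obtain ⟨h1, h2⟩ := Nat.find_spec hex
  have h3 : Nat.find hex ≤ (co x).2 := Nat.find_min' hex ⟨hS, hno⟩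
  obtain ⟨x1, hx1, hcx1⟩ := C.low x hx (0, Nat.find hex) ⟨Nat.zero_le _, h3⟩ (hS0 _)
  refine ⟨x1, ⟨hx1, by rw [hcx1], ?_, ?_⟩, ?_⟩
  · intro y hy hy1
    rw [hcx1]
    by_contra hcon
    obtain ⟨w, hw, hcw⟩ := C.low y hy (1, Nat.find hex) ⟨hy1, not_lt.mp hcon⟩ h1
    exact h2 w hw hcw
  · intro c hc hSc
    rw [hcx1] at hc
    by_contra hcon
    push Not at hcon
    exact Nat.find_min hex hc ⟨hSc, hcon⟩
  · rw [C.le_iff x hx x1 hx1, hcx1]
    exact ⟨Nat.zero_le _, h3⟩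

end Ends

/-- natural set of a rectangle-like component -/
noncomputable def natR (N : Finset P) (co : P → ℕ × ℕ) : Finset P :=
  N ∪ (junk (fun _ => True) N co ∪ junk (fun _ => True) N (swp co))

/-- natural set of a stair-like component -/
noncomputable def natS (N : Finset P) (co : P → ℕ × ℕ) : Finset P :=
  N ∪ junk (fun c => c.1 ≤ c.2) N co

lemma mem_natR {N : Finset P} {co : P → ℕ × ℕ} {x : P} : x ∈ natR N co ↔
    x ∈ N ∨ x ∈ junk (fun _ => True) N co ∨ x ∈ junk (fun _ => True) N (swp co) := by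
  unfold natR; simp only [mem_union]

lemma mem_natS {N : Finset P} {co : P → ℕ × ℕ} {x : P} : x ∈ natS N co ↔
    x ∈ N ∨ x ∈ junk (fun c => c.1 ≤ c.2) N co := by
  unfold natS; simp only [mem_union]

lemma junk_up {S : ℕ × ℕ → Prop} {N : Finset P} {co : P → ℕ × ℕ}
    (hup : ∀ x ∈ N, ∀ y, x ≤ y → y ∈ N) {x y : P} (hx : x ∈ junk S N co) (hxy : x ≤ y) :
    y ∈ N ∨ y ∈ junk S N co := by
  obtain ⟨x1, H, hz⟩ := mem_junk.mp hx
  rcases jset_anc hz hxy with h | h
  · exact Or.inr (mem_junk.mpr ⟨x1, H, h⟩)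
  · exact Or.inl (hup x1 H.mem y h)

lemma junk_le {S : ℕ × ℕ → Prop} {N : Finset P} {co : P → ℕ × ℕ} {t : P}
    (hle : ∀ x ∈ N, x ≤ t) {x : P} (hx : x ∈ junk S N co) : x ≤ t := by
  obtain ⟨x1, H, hz⟩ := mem_junk.mp hx
  exact (mem_jset.mp hz).1.le.trans (hle x1 H.mem)

lemma natR_up {N : Finset P} {co : P → ℕ × ℕ} (hup : ∀ x ∈ N, ∀ y, x ≤ y → y ∈ N) :
    ∀ x ∈ natR N co, ∀ y, x ≤ y → y ∈ natR N co := by
  intro x hx y hxy
  rw [mem_natR] at hx ⊢
  rcases hx with h | h | h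
  · exact Or.inl (hup x h y hxy)
  · rcases junk_up hup h hxy with h' | h'
    · exact Or.inl h'
    · exact Or.inr (Or.inl h')
  · rcases junk_up hup h hxy with h' | h'
    · exact Or.inl h'
    · exact Or.inr (Or.inr h')

lemma natR_le {N : Finset P} {co : P → ℕ × ℕ} {t : P} (hle : ∀ x ∈ N, x ≤ t) :
    ∀ x ∈ natR N co, x ≤ t := by
  intro x hx
  rw [mem_natR] at hx
  rcases hx with h | h | h
  · exact hle x h
  · exact junk_le hle h
  · exact junk_le hle h

lemma natS_up {N : Finset P} {co : P → ℕ × ℕ} (hup : ∀ x ∈ N, ∀ y, x ≤ y → y ∈ N) :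
    ∀ x ∈ natS N co, ∀ y, x ≤ y → y ∈ natS N co := by
  intro x hx y hxy
  rw [mem_natS] at hx ⊢
  rcases hx with h | h
  · exact Or.inl (hup x h y hxy)
  · exact junk_up hup h hxy

lemma natS_le {N : Finset P} {co : P → ℕ × ℕ} {t : P} (hle : ∀ x ∈ N, x ≤ t) :
    ∀ x ∈ natS N co, x ≤ t := by
  intro x hx
  rw [mem_natS] at hx
  rcases hx with h | h
  · exact hle x h
  · exact junk_le hle h

section Data

variable {t : Tops P} {N : Finset P} {co : P → ℕ × ℕ} {i b : ℕ}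

/-- thresholds of a rectangle-like component -/
noncomputable def thR (i b : ℕ) (N : Finset P) (co : P → ℕ × ℕ) (x : P) : ℕ := by
  classical exact
  if x ∈ junk (fun _ => True) N co ∨ x ∈ junk (fun _ => True) N (swp co) then lev x - i
  else ((co x).1 - (b - 1)) + ((co x).2 - i)

/-- thresholds of a stair-like component -/
noncomputable def thS (i : ℕ) (N : Finset P) (co : P → ℕ × ℕ) (x : P) : ℕ := by
  classical exact
  if x ∈ junk (fun c => c.1 ≤ c.2) N co then lev x - i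
  else ((co x).1 - 2 * (i / 2)) + ((co x).2 - i)

/-- junk data for the row end -/
lemma junk_data {S : ℕ × ℕ → Prop} (hS1 : ∀ c, 1 ≤ c → S (1, c)) (C : Chart (t : P) S N co)
    (h1 : ∃ y ∈ N, 1 ≤ (co y).1) {M : Tops P → Finset P} (HM : NatSys M) {J' : P → Prop}
    (hM : ∀ x, x ∈ M t ↔ x ∈ N ∨ x ∈ junk S N co ∨ J' x)
    (hJ' : ∀ x1, IsEnd S N co x1 → ∀ x, J' x → x < x1 → x ∈ junk S N co)
    (hJN : ∀ x, J' x → x ∈ N → 1 ≤ (co x).1) (hJt : ¬ J' (t : P)) :
    ∃ x1 : P, Junk (unnat M) topOf t (fun x => x ∈ junk S N co) x1 ∧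
      (x1 ∉ unnat M ∧ topOf x1 = t ∧ x1 ∉ junk S N co ∧ ¬ J' x1) ∧
      ((∃ x, x ∈ junk S N co) → (co x1).1 = 0 ∧ ∀ y, y ∉ unnat M → topOf y = t →
        y ∉ junk S N co → ¬ J' y → y ≠ x1 → (co y).2 < (co x1).2) := by
  have hmem : ∀ x, x ∉ unnat M → topOf x = t → x ∈ M t := fun x h1 h2 => HM.mem_iff.mpr ⟨h1, h2⟩
  have htM : (t : P) ∈ M t := by
    obtain ⟨y, hy, -⟩ := h1
    rw [hM]
    exact Or.inl (C.up y hy t (C.le_t y hy))
  by_cases hend : ∃ x1, IsEnd S N co x1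
  · obtain ⟨x1, H⟩ := hend
    have hju : ∀ x, x ∈ junk S N co ↔ x ∈ jset x1 := by
      intro x
      rw [mem_junk]
      constructor
      · rintro ⟨x1', H', hx⟩
        rw [IsEnd.unique C hS1 h1 H H']
        exact hx
      · intro hx
        exact ⟨x1, H, hx⟩
    have hx1M : x1 ∈ M t := (hM x1).mpr (Or.inl H.mem)
    have hx1J : x1 ∉ junk S N co := by
      rw [hju, mem_jset]
      exact fun h => lt_irrefl _ h.1
    refine ⟨x1, ⟨?_, ?_, ?_⟩, ⟨(HM.mem_iff.mp hx1M).1, (HM.mem_iff.mp hx1M).2, hx1J, ?_⟩, ?_⟩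
    · intro x hx
      have hxM : x ∈ M t := (hM x).mpr (Or.inr (Or.inl hx))
      refine ⟨(HM.mem_iff.mp hxM).1, (HM.mem_iff.mp hxM).2, ?_⟩
      rw [hju, mem_jset] at hx
      exact hx.1
    · intro x y hxy hx hy
      have hyM : y ∈ M t := (hM y).mpr (Or.inr (Or.inl hy))
      have hxt : topOf x = t := by
        rw [HM.cp x y hxy hx]
        exact HM.topOf_eq hyM
      have hlt : x < x1 := by
        rw [hju, mem_jset] at hy
        exact hxy.trans_lt hy.1
      rcases (hM x).mp (hmem x hx hxt) with h | h | h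
      · rw [hju]
        exact (H.tail C h hlt).2
      · exact h
      · exact hJ' x1 H x h hlt
    · intro x y hx hxy
      rw [hju] at hx
      rcases jset_anc hx hxy with h | h
      · exact Or.inl ((hju y).mpr h)
      · exact Or.inr h
    · intro h
      have := hJN x1 h H.mem
      rw [H.fst] at this
      omega
    · intro _
      refine ⟨H.fst, fun y hy hyt hyJ hyJ' hne => ?_⟩
      have hyN : y ∈ N := by
        rcases (hM y).mp (hmem y hy hyt) with h | h | h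
        · exact h
        · exact absurd h hyJ
        · exact absurd h hyJ'
      rcases Nat.eq_zero_or_pos (co y).1 with h0 | h0
      · by_contra hcon
        have hle : y ≤ x1 := by
          rw [C.le_iff y hyN x1 H.mem]
          exact ⟨by rw [H.fst]; exact Nat.zero_le _, not_lt.mp hcon⟩
        exact hyJ ((hju y).mpr (H.tail C hyN (lt_of_le_of_ne hle hne)).2)
      · exact H.lt y hyN h0
  · have hemp : ∀ x, x ∉ junk S N co := by
      intro x hx
      obtain ⟨x1, H, -⟩ := mem_junk.mp hx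
      exact hend ⟨x1, H⟩
    refine ⟨t, ⟨fun x hx => absurd hx (hemp x), fun x y _ _ hy => absurd hy (hemp y),
      fun x y hx => absurd hx (hemp x)⟩, ⟨(HM.mem_iff.mp htM).1, (HM.mem_iff.mp htM).2, hemp _, hJt⟩,
      fun ⟨x, hx⟩ => absurd hx (hemp x)⟩

end Data

end Pool.Agent.GaussPoset
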