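import Pool.Agent.W_448fw_h5.FwT

/-!
Unnatural elements near the straight ends of a maximal chart.
-/

namespace Pool.Agent.GaussPoset

set_option linter.unusedSectionVars false

open Polynomial Finset

universe u

variable {P : Type u} [Fintype P] [PartialOrder P] [DecidableEq P] {r : ℕ}

/-- rows 0 and 1 of the set of allowed cells -/
structure RowS (S : ℕ × ℕ → Prop) : Prop where
  zero : ∀ c, S (0, c)
  one : ∀ c, 1 ≤ c → S (1, c)

lemma rowS_true : RowS (fun _ => True) := ⟨fun _ => trivial, fun _ _ => trivial⟩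

lemma rowS_shift : RowS (fun c => c.1 ≤ c.2) := ⟨fun c => Nat.zero_le c, fun _ h => h⟩

section Row

variable {t : P} {S : ℕ × ℕ → Prop} {N : Finset P} {co : P → ℕ × ℕ}

/-- everything above `z` is `z` or above its only cover -/
lemma anc_of_only {z x y : P} (honly : ∀ y, z ⋖ y → y = x) (hzy : z < y) : x ≤ y := by
  obtain ⟨v, hv, hvy⟩ := Hul.exists_cov hzy
  rw [← honly v hv]
  exact hvy

/-- no pendant below row 0 outside the chart and the junk -/
theorem row0_pendant (hS : RowS S) (C : Chart t S N co) (Mx : MaxChart S N co) (H : Gr P r)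
    {z x : P} (hzN : z ∉ N) (hzJ : z ∉ junk S N co) (hx : x ∈ N) (hzx : z ⋖ x)
    (honly : ∀ y, z ⋖ y → y = x) (h0 : (co x).1 = 0) (h1 : S (1, (co x).2)) : False := by
  by_cases hw : ∃ w ∈ N, co w = (1, (co x).2)
  · obtain ⟨w, hw, hcw⟩ := hw
    by_cases hy : ∃ y ∈ N, co y = (0, (co x).2 + 1)
    · obtain ⟨y, hy, hcy⟩ := hy
      have e1 : w ⋖ x := by
        rw [chart_cov C H hw hx, hcw]
        exact Or.inl ⟨by simp only; omega, rfl⟩
      have e2 : y ⋖ x := by
        rw [chart_cov C H hy hx, hcy]
        exact Or.inr ⟨by simp only; omega, rfl⟩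
      refine Win.dc_three H hzx e1 e2 (fun h => hzN (h ▸ hw)) (fun h => hzN (h ▸ hy)) ?_
      rintro rfl
      rw [hcw] at hcy
      simp at hcy
    · push Not at hy
      refine Mx z hzN (0, (co x).2 + 1) (hS.zero _) hy ⟨x, hzx⟩ ?_ ?_
      · intro p' _ hp'
        refine ⟨x, hx, ?_⟩
        rcases hp' with h | h
        · exfalso
          have := h.1
          simp only at this
          omega
        · have e1 := h.1
          have e2 := h.2
          simp only at e1 e2
          exact Prod.ext (by omega) (by omega)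
      · intro y
        constructor
        · intro h
          rw [honly y h]
          exact ⟨hx, Or.inr ⟨by simp only; omega, rfl⟩⟩
        · rintro ⟨hy1, hy2⟩
          have : y = x := by
            refine C.inj y hy1 x hx ?_
            rcases hy2 with h | h
            · exfalso
              have := h.1
              simp only at this
              omega
            · have e1 := h.1
              have e2 := h.2
              simp only at e1 e2
              exact Prod.ext (by omega) (by omega)
          rw [this]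
          exact hzx
  · push Not at hw
    obtain ⟨x1, H1, hxx1⟩ := exists_isEnd C hS.zero hx h0 h1 hw
    refine hzJ (mem_junk.mpr ⟨x1, H1, mem_jset.mpr ⟨hzx.1.trans_le hxx1, fun y hy => ?_⟩⟩)
    rcases eq_or_lt_of_le hy with h | h
    · left
      rw [← h]
      exact (hzx.1.trans_le hxx1).le
    · have h2 := anc_of_only honly h
      rcases eq_or_lt_of_le hxx1 with h3 | h3
      · right
        rw [← h3]
        exact h2
      · exact (mem_jset.mp (H1.tail C hx h3).2).2 y h2

/-- no element is hung below row 0 outside the chart and the junk -/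
theorem hung_row0 (hS : RowS S) (C : Chart t S N co) (Mx : MaxChart S N co) (H : Gr P r)
    {z : P} (hzN : z ∉ N) (hzJ : z ∉ junk S N co) : ∀ (d : ℕ) (y : P), y ∈ N → lev z = lev y + d →
    (co y).1 = 0 → 1 ≤ (co y).2 → S (1, (co y).2 - 1) → z < y →
    (∀ w, z ≤ w → w ≤ y ∨ y ≤ w) → False := by
  intro d
  induction d with
  | zero =>
    intro y _ hd _ _ _ hzy _
    have := lev_strictAnti hzy
    omega
  | succ d ih =>
    intro y hy hd h0 h1 h2 hzy hung
    by_cases hw : ∃ w ∈ N, co w = (1, (co y).2)
    · obtain ⟨w, hw, hcw⟩ := hw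
      have hwy : w ⋖ y := by
        rw [chart_cov C H hw hy, hcw]
        exact Or.inl ⟨by simp only; omega, rfl⟩
      -- `z` is not below `w`
      have hzw : ¬ z ≤ w := by
        intro hzw
        obtain ⟨u, hu, hcu⟩ := C.low w hw (1, (co y).2 - 1) (by
          rw [hcw]
          exact ⟨le_rfl, Nat.sub_le _ _⟩) h2
        have hwu : w ≤ u := by
          rw [C.le_iff w hw u hu, hcw, hcu]
          exact ⟨le_rfl, Nat.sub_le _ _⟩
        have hlu := C.lev u hu
        have hly := C.lev y hy
        rw [hcu] at hlu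
        simp only at hlu
        have hne : u ≠ y := by
          rintro rfl
          rw [hcu] at h0
          simp at h0
        rcases hung u (hzw.trans hwu) with h | h
        · have := lev_strictAnti (lt_of_le_of_ne h hne)
          omega
        · have := lev_strictAnti (lt_of_le_of_ne h (Ne.symm hne))
          omega
      have hcov : ∀ v, z ≤ v → v ⋖ y → v ≠ w := fun v hv _ h => hzw (h ▸ hv)
      have hbelow : ∀ w', z ≤ w' → w' < y → ∃ v, w' ≤ v ∧ v ⋖ y := by
        intro w' _ hw'
        obtain ⟨v, hv1, hv2, hv3⟩ := H.gradedBelow w' y hw'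
        exact ⟨v, hv1, H.covBy_iff.mpr ⟨hv2, hv3⟩⟩
      by_cases h4 : ∃ y' ∈ N, co y' = (0, (co y).2 + 1)
      · obtain ⟨y', hy', hcy'⟩ := h4
        have hy'y : y' ⋖ y := by
          rw [chart_cov C H hy' hy, hcy']
          exact Or.inr ⟨by simp only; omega, rfl⟩
        have hne : y' ≠ w := by
          rintro rfl
          rw [hcw] at hcy'
          simp at hcy'
        have huni : ∀ v, z ≤ v → v ⋖ y → v = y' := by
          intro v hv hvy
          by_contra hcon
          exact Win.dc_three H hvy hwy hy'y (hcov v hv hvy) hcon (Ne.symm hne)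
        obtain ⟨v, hv1, hv2⟩ := hbelow z le_rfl hzy
        have hzy' : z ≤ y' := by
          rw [← huni v hv1 hv2]
          exact hv1
        have hne2 : z ≠ y' := fun h => hzN (h ▸ hy')
        have hl := C.lev y hy
        have hl' := C.lev y' hy'
        rw [hcy'] at hl'
        simp only at hl'
        refine ih y' hy' (by omega) (by rw [hcy']) (by rw [hcy']; simp) (by
          rw [hcy']
          simp only [Nat.add_sub_cancel]
          exact hS.one _ h1) (lt_of_le_of_ne hzy' hne2) ?_
        intro w' hw'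
        rcases hung w' hw' with h | h
        · rcases eq_or_lt_of_le h with h5 | h5
          · right
            rw [h5]
            exact hy'y.1.le
          · left
            obtain ⟨v', hv1', hv2'⟩ := hbelow w' hw' h5
            rw [← huni v' (hw'.trans hv1') hv2']
            exact hv1'
        · right
          exact hy'y.1.le.trans h
      · -- a pendant below `y` outside the chart
        obtain ⟨v, hv1, hv2⟩ := hbelow z le_rfl hzy
        have hvN : v ∉ N := by
          intro hvN
          have h5 := (chart_cov C H hvN hy).mp hv2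
          rcases h5 with h5 | h5
          · refine hcov v hv1 hv2 (C.inj v hvN w hw ?_)
            rw [hcw]
            exact Prod.ext (by simp only; omega) h5.2
          · exact h4 ⟨v, hvN, Prod.ext (by simp only; omega) (by simp only; omega)⟩
        have hvJ : v ∉ junk S N co := by
          intro hvJ
          obtain ⟨x1, H1, hv⟩ := mem_junk.mp hvJ
          have h6 := H1.lt w hw (by rw [hcw])
          rw [hcw] at h6
          simp only at h6
          rcases jset_anc hv hv2.1.le with h5 | h5
          · have h7 := (C.le_iff y hy x1 H1.mem).mp (mem_jset.mp h5).1.le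
            have h8 : (co x1).2 ≤ (co y).2 := h7.2
            omega
          · have h7 : x1 = y := by
              rcases eq_or_lt_of_le h5 with h7 | h7
              · exact h7
              · exact absurd h7 (hv2.2 (mem_jset.mp hv).1)
            rw [h7] at h6
            omega
        refine row0_pendant hS C Mx H hvN hvJ hy hv2 ?_ h0 (hS.one _ h1)
        intro y'' hy''
        have hl := (H.covBy_iff.mp hy'').2
        have hl2 := (H.covBy_iff.mp hv2).2
        by_contra hne
        rcases hung y'' (hv1.trans hy''.1.le) with h | h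
        · have := lev_strictAnti (lt_of_le_of_ne h hne)
          omega
        · have := lev_strictAnti (lt_of_le_of_ne h (Ne.symm hne))
          omega
    · push Not at hw
      obtain ⟨x1, H1, hyx1⟩ := exists_isEnd C hS.zero hy h0 (hS.one _ h1) hw
      refine hzJ (mem_junk.mpr ⟨x1, H1, mem_jset.mpr ⟨hzy.trans_le hyx1, fun v hv => ?_⟩⟩)
      rcases hung v hv with h | h
      · exact Or.inl (h.trans hyx1)
      · rcases eq_or_lt_of_le hyx1 with h3 | h3
        · right
          rw [← h3]
          exact h
        · exact (mem_jset.mp (H1.tail C hy h3).2).2 v h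

/-- if only one element of level `k` is above `z`, then `z` is hung below it -/
lemma hung_of_nab (H : Gr P r) {z y : P} {k : ℕ} (hk : lev y = k) (hzy : z ≤ y)
    (h1 : nab k z ≤ 1) : ∀ w, z ≤ w → w ≤ y ∨ y ≤ w := by
  have huni : ∀ w, z ≤ w → lev w = k → w = y := by
    intro w hw hl
    by_contra hne
    have := two_le_nab hw hzy hl hk hne
    omega
  have hly : k ≤ lev z := by
    rcases eq_or_lt_of_le hzy with h | h
    · rw [h, hk]
    · have := lev_strictAnti h
      omega
  intro w hw
  rcases Nat.lt_or_ge (lev w) k with h | h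
  · obtain ⟨w', h2, h3, h4⟩ := exists_between H.gradedBelow hw (l := k) h.le hly
    right
    rw [← huni w' h2 h4]
    exact h3
  · obtain ⟨w', h2, h3⟩ := exists_above' (x := w) h
    left
    rw [← huni w' (hw.trans h2) h3]
    exact h2

/-- an unnatural element below row 0 or below the junk has two elements above it on every level -/
theorem two_le_nab_row0 (hS : RowS S) (C : Chart t S N co) (Mx : MaxChart S N co) (H : Gr P r)
    {z x : P} (hzN : z ∉ N) (hzJ : z ∉ junk S N co) (hzx : z ≤ x)
    (hx : x ∈ junk S N co ∨ (x ∈ N ∧ (co x).1 = 0)) {k : ℕ} (hk : 1 ≤ k) (hk1 : S (1, k - 1))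
    (hkx : k ≤ lev x) : 2 ≤ nab k z := by
  by_contra hcon
  obtain ⟨y, hxy, hly⟩ := exists_above' (x := x) hkx
  have hung := hung_of_nab H hly (hzx.trans hxy) (by omega)
  have key : y ∈ N → (co y).1 = 0 → False := by
    intro hy h0
    have hl := C.lev y hy
    have hzy : z < y := lt_of_le_of_ne (hzx.trans hxy) (fun h => hzN (h ▸ hy))
    have h2 := lev_strictAnti hzy
    have h3 : (co y).2 = k := by omega
    exact hung_row0 hS C Mx H hzN hzJ (lev z - lev y) y hy (by omega) h0 (by omega)
      (by rw [h3]; exact hk1) hzy hung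
  rcases hx with hx | ⟨hx, h0⟩
  · obtain ⟨x1, H1, hxj⟩ := mem_junk.mp hx
    rcases jset_anc hxj hxy with h | h
    · refine hzJ (mem_junk.mpr ⟨x1, H1, mem_jset.mpr
        ⟨(hzx.trans hxy).trans_lt (mem_jset.mp h).1, fun w hw => ?_⟩⟩)
      rcases hung w hw with h' | h'
      · exact Or.inl (h'.trans (mem_jset.mp h).1.le)
      · exact (mem_jset.mp h).2 w h'
    · have hy := C.up x1 H1.mem y h
      have h2 := (C.le_iff x1 H1.mem y hy).mp h
      have h3 : (co y).1 ≤ (co x1).1 := h2.1
      rw [H1.fst] at h3
      exact key hy (by omega)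
  · have hy := C.up x hx y hxy
    have h2 := (C.le_iff x hx y hy).mp hxy
    have h3 : (co y).1 ≤ (co x).1 := h2.1
    exact key hy (by omega)

end Row

section Types

variable {j i b : ℕ} {t : Tops P} {N : Tops P → Finset P} {Nc : Finset P} {co : P → ℕ × ℕ}

/-- a light component has no private unnatural elements -/
lemma light_private (HN : NatSys N) (hNt : N t = onlyB t) {z : P} (hz : z ∈ unnat N) :
    ∃ s : P, lev s = 0 ∧ s ≠ t ∧ (z ≤ s ∨ ¬ z ≤ (t : P)) := by
  have h1 : z ∉ onlyB t := by
    rw [← hNt]
    exact mem_unnat.mp hz t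
  rw [mem_onlyB] at h1
  push Not at h1
  obtain ⟨s, hs, hzs, hne⟩ := h1
  exact ⟨s, hs, hne, Or.inl hzs⟩

/-- pendants of a rectangle-like component are below interior cells -/
theorem rect_pendant (H : Gr P r) (R : RectNat j i t b Nc co) (hNt : N t = natR Nc co)
    {z x : P} (hz : z ∈ unnat N) (hx : x ∈ N t) (hzx : z ⋖ x) (honly : ∀ y, z ⋖ y → y = x) :
    x ∈ Nc ∧ x ∉ junk (fun _ => True) Nc co ∧ x ∉ junk (fun _ => True) Nc (swp co) ∧
      1 ≤ (co x).1 ∧ 1 ≤ (co x).2 := by
  have hzM : z ∉ natR Nc co := by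
    rw [← hNt]
    exact mem_unnat.mp hz t
  rw [mem_natR] at hzM
  push Not at hzM
  obtain ⟨hzN, hzJ1, hzJ2⟩ := hzM
  have hj : ∀ co' : P → ℕ × ℕ, z ∉ junk (fun _ => True) Nc co' →
      x ∉ junk (fun _ => True) Nc co' := by
    intro co' hzJ hxJ
    obtain ⟨x1, H1, hxj⟩ := mem_junk.mp hxJ
    refine hzJ (mem_junk.mpr ⟨x1, H1, mem_jset.mpr ⟨hzx.1.trans (mem_jset.mp hxj).1,
      fun y hy => ?_⟩⟩)
    rcases eq_or_lt_of_le hy with h | h
    · left
      rw [← h]
      exact (hzx.1.trans (mem_jset.mp hxj).1).le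
    · exact (mem_jset.mp hxj).2 y (anc_of_only honly h)
  have hxN : x ∈ Nc := by
    rw [hNt, mem_natR] at hx
    rcases hx with h | h | h
    · exact h
    · exact absurd h (hj _ hzJ1)
    · exact absurd h (hj _ hzJ2)
  refine ⟨hxN, hj _ hzJ1, hj _ hzJ2, ?_, ?_⟩
  · by_contra hcon
    exact row0_pendant rowS_true R.chart R.max H hzN hzJ1 hxN hzx honly (by omega) trivial
  · by_contra hcon
    exact row0_pendant rowS_true R.chart.swap R.max.swap H hzN hzJ2 hxN hzx honly
      (by simp only [swp_fst]; omega) trivial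

/-- pendants of a stair-like component are not below row 0 -/
theorem stair_pendant (H : Gr P r) (R : StairNat j i t Nc co) (hj1 : 1 ≤ j)
    (hNt : N t = natS Nc co) {z x : P} (hz : z ∈ unnat N) (hx : x ∈ N t) (hzx : z ⋖ x)
    (honly : ∀ y, z ⋖ y → y = x) :
    x ∈ Nc ∧ x ∉ junk (fun c => c.1 ≤ c.2) Nc co ∧ 1 ≤ (co x).1 := by
  have hzM : z ∉ natS Nc co := by
    rw [← hNt]
    exact mem_unnat.mp hz t
  rw [mem_natS] at hzM
  push Not at hzM
  obtain ⟨hzN, hzJ1⟩ := hzM
  have hj : x ∉ junk (fun c => c.1 ≤ c.2) Nc co := by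
    intro hxJ
    obtain ⟨x1, H1, hxj⟩ := mem_junk.mp hxJ
    refine hzJ1 (mem_junk.mpr ⟨x1, H1, mem_jset.mpr ⟨hzx.1.trans (mem_jset.mp hxj).1,
      fun y hy => ?_⟩⟩)
    rcases eq_or_lt_of_le hy with h | h
    · left
      rw [← h]
      exact (hzx.1.trans (mem_jset.mp hxj).1).le
    · exact (mem_jset.mp hxj).2 y (anc_of_only honly h)
  have hxN : x ∈ Nc := by
    rw [hNt, mem_natS] at hx
    rcases hx with h | h
    · exact h
    · exact absurd h hj
  refine ⟨hxN, hj, ?_⟩
  by_contra hcon
  have h0 : (co x).1 = 0 := by omega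
  rcases Nat.eq_zero_or_pos (co x).2 with h1 | h1
  · have hl := R.chart.lev x hxN
    have hlz := (H.covBy_iff.mp hzx).2
    exact hzN (R.strip (mem_lowPart.mpr ⟨hzx.1.le.trans (R.chart.le_t x hxN), by omega⟩))
  · exact row0_pendant rowS_shift R.chart R.max H hzN hzJ1 hxN hzx honly h0 h1

/-- two elements on every level above an unnatural element below a straight natural element -/
theorem rect_two_le_nab (H : Gr P r) (R : RectNat j i t b Nc co) (hNt : N t = natR Nc co)
    {z x : P} (hz : z ∈ unnat N) (hzx : z ≤ x)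
    (hx : x ∈ junk (fun _ => True) Nc co ∨ x ∈ junk (fun _ => True) Nc (swp co) ∨
      (x ∈ Nc ∧ ((co x).1 = 0 ∨ (co x).2 = 0))) {k : ℕ} (hk : 1 ≤ k) (hkx : k ≤ lev x) :
    2 ≤ nab k z := by
  have hzM : z ∉ natR Nc co := by
    rw [← hNt]
    exact mem_unnat.mp hz t
  rw [mem_natR] at hzM
  push Not at hzM
  obtain ⟨hzN, hzJ1, hzJ2⟩ := hzM
  rcases hx with h | h | ⟨h, h' | h'⟩
  · exact two_le_nab_row0 rowS_true R.chart R.max H hzN hzJ1 hzx (Or.inl h) hk trivial hkx
  · exact two_le_nab_row0 rowS_true R.chart.swap R.max.swap H hzN hzJ2 hzx (Or.inl h) hk trivial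
      hkx
  · exact two_le_nab_row0 rowS_true R.chart R.max H hzN hzJ1 hzx (Or.inr ⟨h, h'⟩) hk trivial hkx
  · exact two_le_nab_row0 rowS_true R.chart.swap R.max.swap H hzN hzJ2 hzx (Or.inr ⟨h, h'⟩) hk
      trivial hkx

theorem stair_two_le_nab (H : Gr P r) (R : StairNat j i t Nc co) (hNt : N t = natS Nc co)
    {z x : P} (hz : z ∈ unnat N) (hzx : z ≤ x)
    (hx : x ∈ junk (fun c => c.1 ≤ c.2) Nc co ∨ (x ∈ Nc ∧ (co x).1 = 0)) {k : ℕ} (hk : 2 ≤ k)
    (hkx : k ≤ lev x) : 2 ≤ nab k z := by
  have hzM : z ∉ natS Nc co := by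
    rw [← hNt]
    exact mem_unnat.mp hz t
  rw [mem_natS] at hzM
  push Not at hzM
  exact two_le_nab_row0 rowS_shift R.chart R.max H hzM.1 hzM.2 hzx hx (by omega)
    (show 1 ≤ k - 1 by omega) hkx

end Types

end Pool.Agent.GaussPoset
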